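import Pool.Agent.Helper3.HY.StC

/-!
# HY: basic lemmas
-/

set_option autoImplicit false

namespace Pool.Agent.Helper3.HY

open Polynomial Finset Filter Topology Matrix IsDedekindDomain

section kfil

variable {F : Type} [Field F]

lemma mem_Kfil {n : ℤ} {h : RatFunc F} : h ∈ Kfil F n ↔ h = 0 ∨ h.intDegree ≤ n := Iff.rfl

lemma Kfil_mono {m n : ℤ} (h : m ≤ n) : Kfil F m ≤ Kfil F n := by
  intro x hx
  rcases hx with hx | hx
  · exact Or.inl hx
  · exact Or.inr (hx.trans h)

lemma mul_mem_Kfil {m n : ℤ} {a b : RatFunc F} (ha : a ∈ Kfil F m) (hb : b ∈ Kfil F n) :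
    a * b ∈ Kfil F (m + n) := by
  by_cases ha0 : a = 0
  · subst ha0; rw [zero_mul]; exact zero_mem _
  by_cases hb0 : b = 0
  · subst hb0; rw [mul_zero]; exact zero_mem _
  refine Or.inr ?_
  rw [RatFunc.intDegree_mul ha0 hb0]
  exact add_le_add (ha.resolve_left ha0) (hb.resolve_left hb0)

lemma algebraMap_mem_Kfil {p : F[X]} {n : ℤ} (h : p = 0 ∨ (p.natDegree : ℤ) ≤ n) :
    algebraMap F[X] (RatFunc F) p ∈ Kfil F n := by
  rcases h with rfl | h
  · rw [map_zero]; exact zero_mem _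
  · right; rw [RatFunc.intDegree_polynomial]; exact h

lemma algebraMap_mem_Kfil_iff {p : F[X]} {n : ℤ} :
    algebraMap F[X] (RatFunc F) p ∈ Kfil F n ↔ p = 0 ∨ (p.natDegree : ℤ) ≤ n := by
  constructor
  · rintro (h | h)
    · left; exact (map_eq_zero_iff _ (RatFunc.algebraMap_injective F)).1 h
    · right; rwa [RatFunc.intDegree_polynomial] at h
  · exact algebraMap_mem_Kfil

lemma InA.eq_zero_of_neg {a : RatFunc F} (h : InA a) {n : ℤ} (hn : n < 0) (ha : a ∈ Kfil F n) :
    a = 0 := by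
  obtain ⟨p, rfl⟩ := h
  rcases algebraMap_mem_Kfil_iff.1 ha with rfl | h
  · exact map_zero _
  · omega

lemma InA.eq_const {a : RatFunc F} (h : InA a) (ha : a ∈ Kfil F 0) :
    ∃ c : F, a = algebraMap F (RatFunc F) c := by
  obtain ⟨p, rfl⟩ := h
  have hp : p.natDegree = 0 := by
    rcases algebraMap_mem_Kfil_iff.1 ha with rfl | h
    · simp
    · exact_mod_cast le_antisymm h (by positivity)
  obtain ⟨c, hc⟩ := natDegree_eq_zero.1 hp
  exact ⟨c, by rw [← hc, RatFunc.algebraMap_C]; rfl⟩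

lemma X_pow_mem_Kfil (k : ℕ) : (RatFunc.X : RatFunc F) ^ k ∈ Kfil F k := by
  rw [← RatFunc.algebraMap_X, ← map_pow]
  exact algebraMap_mem_Kfil (Or.inr (by rw [natDegree_X_pow]))

lemma inv_X_pow_mem_Kfil (k : ℕ) : ((RatFunc.X : RatFunc F)⁻¹) ^ k ∈ Kfil F (-(k : ℤ)) := by
  right
  rw [inv_pow, RatFunc.intDegree_inv, ← RatFunc.algebraMap_X, ← map_pow,
    RatFunc.intDegree_polynomial, natDegree_X_pow]

lemma algebraMap_F_mem_Kfil (c : F) : algebraMap F (RatFunc F) c ∈ Kfil F 0 := by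
  by_cases hc : c = 0
  · subst hc; rw [map_zero]; exact zero_mem _
  · right
    have : algebraMap F (RatFunc F) c = RatFunc.C c := rfl
    rw [this, RatFunc.intDegree_C]

lemma inv_mem_Kfil (a : RatFunc F) : a⁻¹ ∈ Kfil F (-a.intDegree) :=
  Or.inr (by rw [RatFunc.intDegree_inv])

end kfil

section rings

variable {F : Type} [Field F] {f : F[X][X]}

instance towerRL : IsScalarTower F[X] (RR f) (LL f) := by
  refine IsScalarTower.of_algebraMap_eq fun a => ?_
  change algebraMap F[X] (LL f) a = AdjoinRoot.map (algebraMap F[X] (RatFunc F)) f (fK f) dvd_rfl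
    (AdjoinRoot.of f a)
  rw [AdjoinRoot.map_of, IsScalarTower.algebraMap_apply F[X] (RatFunc F) (LL f)]
  rfl

lemma algebraMap_root : algebraMap (RR f) (LL f) (AdjoinRoot.root f) = th f := by
  change AdjoinRoot.map (algebraMap F[X] (RatFunc F)) f (fK f) dvd_rfl (AdjoinRoot.root f) = _
  rw [AdjoinRoot.map_root]

lemma algebraMap_mk (p : F[X][X]) : algebraMap (RR f) (LL f) (AdjoinRoot.mk f p) =
    AdjoinRoot.mk (fK f) (p.map (algebraMap F[X] (RatFunc F))) := by
  induction p using Polynomial.induction_on' with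
  | add p q hp hq => rw [map_add, map_add, hp, hq, Polynomial.map_add, map_add]
  | monomial n a =>
    rw [← C_mul_X_pow_eq_monomial, map_mul, map_pow, AdjoinRoot.mk_X, AdjoinRoot.mk_C, map_mul,
      map_pow, algebraMap_root, Polynomial.map_mul, Polynomial.map_pow, map_X, map_C, map_mul,
      map_pow, AdjoinRoot.mk_X, AdjoinRoot.mk_C]
    congr 1
    change AdjoinRoot.map (algebraMap F[X] (RatFunc F)) f (fK f) dvd_rfl (AdjoinRoot.of f a) = _
    rw [AdjoinRoot.map_of]

lemma co_mk {B : Type} [CommRing B] {h : B[X]} (hm : h.Monic) (i : ℕ) (p : B[X]) :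
    co hm i (AdjoinRoot.mk h p) = (p %ₘ h).coeff i := by
  rw [co, LinearMap.comp_apply, AdjoinRoot.modByMonicHom_mk, lcoeff_apply]

lemma co_algebraMap (hm : f.Monic) (i : ℕ) (r : RR f) :
    co (hm.map (algebraMap F[X] (RatFunc F))) i (algebraMap (RR f) (LL f) r) =
      algebraMap F[X] (RatFunc F) (co hm i r) := by
  obtain ⟨p, rfl⟩ := AdjoinRoot.mk_surjective r
  rw [algebraMap_mk, co_mk, co_mk, ← map_modByMonic _ hm, coeff_map]

lemma co_eq_zero {B : Type} [CommRing B] [Nontrivial B] {h : B[X]} (hm : h.Monic) {i : ℕ}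
    (hi : h.natDegree ≤ i) (z : AdjoinRoot h) : co hm i z = 0 := by
  obtain ⟨p, rfl⟩ := AdjoinRoot.mk_surjective z
  rw [co_mk]
  refine coeff_eq_zero_of_degree_lt ((degree_modByMonic_lt p hm).trans_le ?_)
  exact degree_le_natDegree.trans (by exact_mod_cast hi)

lemma sum_co {B : Type} [CommRing B] [Nontrivial B] {h : B[X]} (hm : h.Monic)
    (z : AdjoinRoot h) :
    z = ∑ i ∈ range h.natDegree, co hm i z • AdjoinRoot.root h ^ i := by
  obtain ⟨p, rfl⟩ := AdjoinRoot.mk_surjective z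
  have h1 : AdjoinRoot.mk h p = AdjoinRoot.mk h (p %ₘ h) := by
    rw [AdjoinRoot.mk_eq_mk]
    exact ⟨p /ₘ h, by rw [sub_eq_iff_eq_add, add_comm, modByMonic_add_div p h]⟩
  have h2 : p %ₘ h = ∑ i ∈ range h.natDegree, C ((p %ₘ h).coeff i) * X ^ i := by
    ext n
    rw [finsetSum_coeff]
    simp only [coeff_C_mul, coeff_X_pow, mul_ite, mul_one, mul_zero, sum_ite_eq, mem_range]
    split_ifs with h3
    · rfl
    · refine coeff_eq_zero_of_degree_lt ((degree_modByMonic_lt p hm).trans_le ?_)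
      exact degree_le_natDegree.trans (by exact_mod_cast not_lt.1 h3)
  conv_lhs => rw [h1, h2, map_sum]
  refine sum_congr rfl fun i _ => ?_
  rw [map_mul, map_pow, AdjoinRoot.mk_X, AdjoinRoot.mk_C, co_mk, Algebra.smul_def]
  rfl

lemma ext_co {B : Type} [CommRing B] [Nontrivial B] {h : B[X]} (hm : h.Monic)
    {z w : AdjoinRoot h} (hzw : ∀ i < h.natDegree, co hm i z = co hm i w) : z = w := by
  rw [sum_co hm z, sum_co hm w]
  exact sum_congr rfl fun i hi => by rw [hzw i (mem_range.1 hi)]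

lemma mem_Lfil {hm : f.Monic} {d : ℕ} {n : ℤ} {z : LL f} :
    z ∈ Lfil hm d n ↔ ∀ i : ℕ, co (hm.map (algebraMap F[X] (RatFunc F))) i z ∈
      Kfil F (n - i * d) := Iff.rfl

lemma Bf_apply (hm : f.Monic) (α x y : LL f) :
    Bf hm α x y = tau (hm.map (algebraMap F[X] (RatFunc F))) (α * x * y) := rfl

end rings

end Pool.Agent.Helper3.HY
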