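import Pool.Agent.Helper3.HY.StS

/-!
# HY: from a class to a matrix (parts of `StC`) and small statements
-/

set_option autoImplicit false

namespace Pool.Agent.Helper3.HY

open Polynomial Finset Filter Topology Matrix IsDedekindDomain
open Pool.Agent.Helper54.PT (Prm prm)

/-- `z` is the image of an element of `R`. -/
def InR {F : Type} [Field F] {f : F[X][X]} (z : LL f) : Prop :=
  ∃ r : RR f, z = algebraMap (RR f) (LL f) r

/-- `a` is a polynomial. -/
def InA {F : Type} [Field F] (a : RatFunc F) : Prop :=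
  ∃ p : F[X], a = algebraMap F[X] (RatFunc F) p

/-- An `R`-lattice `I` with `α I I ⊆ R` and selfdual: `(α z x ∈ R for all x ∈ I) → z ∈ I`. -/
structure IsIdl {F : Type} [Field F] {f : F[X][X]} (α : LL f) (I : Submodule F[X] (LL f)) :
    Prop where
  th : ∀ x ∈ I, th f * x ∈ I
  int : ∀ x ∈ I, ∀ y ∈ I, InR (α * x * y)
  dual : ∀ z, (∀ x ∈ I, InR (α * z * x)) → z ∈ I
  span : ∀ z : LL f, ∃ a : F[X], a ≠ 0 ∧ a • z ∈ I

/-- Ca (filtration at infinity).  Coordinates `co i` are linear; `kmul`: degrees add.  Multiplication: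
`th * x`: coordinates of `θ x` are `x_(i-1) - c_(N-i) x_(N-1)` where `c_(N-i) = f.coeff i` has degree
`≤ (N-i) d`: so `θ Lfil n ⊆ Lfil (n + d)`; then `θ^i Lfil n ⊆ Lfil (n + i d)` and `x = ∑ x_i θ^i`. -/
def StCa : Prop :=
  ∀ (F : Type) [Field F] (N d : ℕ), 1 ≤ N → ∀ (f : F[X][X]) (hf : f ∈ family F N d),
    Monotone (Lfil (f := f) hf.1 d) ∧
    (∀ (k n : ℤ) (a : RatFunc F) (x : LL f), a ∈ Kfil F k → x ∈ Lfil hf.1 d n →
      a • x ∈ Lfil hf.1 d (k + n)) ∧
    (∀ x : LL f, ∃ n, x ∈ Lfil hf.1 d n) ∧ (∀ x : LL f, (∀ n, x ∈ Lfil hf.1 d n) → x = 0) ∧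
    th f ∈ Lfil hf.1 d d ∧
    (∀ (m n : ℤ) (x y : LL f), x ∈ Lfil hf.1 d m → y ∈ Lfil hf.1 d n → x * y ∈ Lfil hf.1 d (m + n))

/-- Cb (selfduality at infinity).  First part: definition.  Second part: take `x = θ^j`
(`∈ Lfil (j d)`), `j = 0, 1, ..`: `tau (θ^j z) = z_(N-1-j) + (combination of z_(N-1),.., z_(N-j) with
coefficients polynomials in the c_i of weighted degree)`; by induction on `j` all coordinates have the
right degree: if `z_(N-1-k) ∈ Kfil (n - (N-1-k) d)` for `k < j` then the element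
`z' = ∑_(k<j) z_(N-1-k) θ^(N-1-k)` is in `Lfil n`, `tau (θ^j z')` is in `Kfil (jd + n - (N-1)d)` by the
first part and Ca, and `tau (θ^j (z - z')) = z_(N-1-j)`. -/
def StCb : Prop :=
  ∀ (F : Type) [Field F] (N d : ℕ), 1 ≤ N → ∀ (f : F[X][X]) (hf : f ∈ family F N d),
    (∀ (n : ℤ) (x : LL f), x ∈ Lfil hf.1 d n →
      tau (hf.1.map (algebraMap F[X] (RatFunc F))) x ∈ Kfil F (n - (N - 1) * d)) ∧
    (∀ (n : ℤ) (z : LL f), (∀ (m : ℤ) (x : LL f), x ∈ Lfil hf.1 d m →
      tau (hf.1.map (algebraMap F[X] (RatFunc F))) (x * z) ∈ Kfil F (m + n - (N - 1) * d)) →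
      z ∈ Lfil hf.1 d n)

/-- Cc (the valuation at infinity).  For `z ≠ 0` let `val z` be the least `n` with `z ∈ Lfil n`.  The
leading form of `z` is `∑ lc_i X^i` where `lc_i` is the coefficient of degree `val z - i d` of `z_i`; it
is a nonzero polynomial of degree `< N`.  The leading form of `x y` in degree `val x + val y` is the
product modulo `f̄_∞` (irreducible), hence nonzero: `val (x y) = val x + val y`.  So `D = val α`.  The
matrix of multiplication by `α` in the basis `θ^j` has entries of degree `≤ D + (j - i) d`, so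
`deg N(α) ≤ N D`; the same for `α⁻¹` (`val α⁻¹ = -D`), so `deg N(α) = N D`. -/
def StCc : Prop :=
  ∀ (F : Type) [Field F] (N d : ℕ), 1 ≤ N → ∀ (f : F[X][X]) (hf : f ∈ family F N d), InfIrr d f →
    ∀ [Fact (Irreducible (fK f))] (α : LL f), α ≠ 0 → ∃ D : ℤ,
      (∀ (n : ℤ) (x : LL f), x ∈ Lfil hf.1 d n ↔ α * x ∈ Lfil hf.1 d (n + D)) ∧
      (Algebra.norm (RatFunc F) α).intDegree = N * D

/-- Cd (`R` is selfdual for `tau`).  First: the coordinates of an element of `R` are polynomials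
(`modByMonicHom` commutes with the map).  Second: as in Cb, `tau (θ^j z) ∈ A` for `j = 0, 1, ..` gives
successively that `z_(N-1), z_(N-2), ..` are polynomials. -/
def StCd : Prop :=
  ∀ (F : Type) [Field F] (f : F[X][X]) (hm : f.Monic), 1 ≤ f.natDegree →
    (∀ z : LL f, InR z → InA (tau (hm.map (algebraMap F[X] (RatFunc F))) z)) ∧
    (∀ z : LL f, (∀ r : RR f, InA (tau (hm.map (algebraMap F[X] (RatFunc F)))
      (z * algebraMap (RR f) (LL f) r))) → InR z)

/-- Ce (the ideal).  In the group of fractional ideals of the Dedekind domain `R` the ideal `(α)` has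
even exponents (`FractionalIdeal.count` or the factorization), so `(α)⁻¹ = J ^ 2`; `I = J` as an
`F[t]`-submodule.  `int`: `α J J = R`.  `dual`: if `α z J ⊆ R` then `z R = z α J J ⊆ J`. -/
def StCe : Prop :=
  ∀ (F : Type) [Field F] [Fintype F] (f : F[X][X]), f.Monic →
    ∀ [Fact (Irreducible (fK f))] [IsDedekindDomain (RR f)] [IsFractionRing (RR f) (LL f)]
      (α : LL f), α ≠ 0 → (∀ v, EvenAt v α) → ∃ I : Submodule F[X] (LL f), IsIdl α I

/-- Cf (the lattice).  `D` from Cc is even since `N D = deg N(α)` is even (`N(α)` is a square) and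
`N = 2 g + 1` is odd; `c₀ = D / 2 - g d`.  `bound`: `α x y ∈ Lfil (D + m + n - 2 c₀)` and Cb.  `dual`: Cb and
Cc.  `bdd`: fix `y ∈ I` nonzero and `c ≠ 0` in `A` with `c (α y)⁻¹ ∈ R`; then `c x ∈ R` for `x ∈ I`, and
`R ∩ Lfil (-1) = 0`.  `int`: `α x y ∈ R` and Cd.  `unimod`: if `tau (α x y) ∈ A` for all `x ∈ I` then, as
`I` is stable under `R = A[θ]`, `tau (α x y r) ∈ A` for all `r`, so `α x y ∈ R` (Cd) and `y ∈ I`. -/
def StCf : Prop :=
  ∀ (F : Type) [Field F] [Fintype F] (g d : ℕ), 1 ≤ g → ∀ (f : F[X][X])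
    (hf : f ∈ family F (2 * g + 1) d), InfIrr d f →
    ∀ [Fact (Irreducible (fK f))] (α : LL f), α ≠ 0 → IsSquare (Algebra.norm (RatFunc F) α) →
    ∀ I : Submodule F[X] (LL f), IsIdl α I →
    ∃ c₀ : ℤ, IsLat I (fun n => Lfil hf.1 d (n - c₀)) (Bf hf.1 α)

/-- Cg (discriminant).  Basis `θ^i`; the Gram matrix is (matrix of multiplication by `α`) times the
Hankel matrix `tau (θ^(i+j))`, which is `0` for `i + j < N - 1` and `1` for `i + j = N - 1`, so its
determinant is `(-1)^(N(N-1)/2) = (-1)^g`. -/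
def StCg : Prop :=
  ∀ (F : Type) [Field F] (g : ℕ) (f : F[X][X]) (hm : f.Monic), f.natDegree = 2 * g + 1 →
    ∀ α : LL f, ∃ b : Module.Basis (Ix g) (RatFunc F) (LL f),
      (Matrix.of fun i j => Bf hm α (b i) (b j)).det =
        (-1) ^ g * Algebra.norm (RatFunc F) α

/-- Ch1 (distinguished orbit).  `X` is a `K`-subspace of dimension `g` with `B(X,X) = 0` and
`B(θX,X) = 0`.  Then `α` is a square.  Proof: `X^⊥` has dimension `g + 1` and contains `X + θX`.  Put
`Y_1 = X`, `Y_(j+1) = {x ∈ Y_j : θ x ∈ Y_j}`; `dim Y_(j+1) ≥ dim Y_j - 1` (map `Y_j → Y_(j-1)/Y_j`,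
resp. `X → X^⊥/X`, of dimension `≤ 1`), so `Y_g ≠ 0`; `v ∈ Y_g` nonzero: `v, θv, .., θ^(g-1) v ∈ X` are
independent (degree of `θ` is `N > g`), hence a basis of `X`; so `tau (α v^2 θ^k) = 0` for
`0 ≤ k ≤ 2g - 1`, i.e. `α v^2 ∈ K` (all coordinates except the `0`-th vanish), `α = c v^(-2)`,
`N(α) = c^N N(v)^(-2)` is a square, `N` odd: `c` is a square. -/
def StCh1 : Prop :=
  ∀ (F : Type) [Field F] (g : ℕ), 1 ≤ g → ∀ (f : F[X][X]) (hm : f.Monic),
    f.natDegree = 2 * g + 1 →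
    ∀ [Fact (Irreducible (fK f))] (α : LL f), α ≠ 0 → IsSquare (Algebra.norm (RatFunc F) α) →
    ∀ X : Submodule (RatFunc F) (LL f), Module.finrank (RatFunc F) X = g →
      (∀ x ∈ X, ∀ y ∈ X, Bf hm α x y = 0) → (∀ x ∈ X, ∀ y ∈ X, Bf hm α (th f * x) y = 0) →
      IsSquare α

/-- Ch (the type is admissible).  `e` is a basis of `L` (its Gram matrix is invertible).
If `2 m_(g-1) > d` then for `i, j < g` we have `d + ν_i + ν_j < 0`, so `b i j = 0`, and Ch1 applies to the
span of `e_0, .., e_(g-1)` (isotropic since `Gm i j = 0` for `i, j < g`): contradiction.  If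
`m_i > m_(i+1) + d` (`i + 1 < g`), put `X = span(e_0, .., e_i)`: for `j ≤ i < l`, the coefficient of `e_l` in
`θ e_j` is `B(θ e_j, e_(rev l)) = b j (rev l)` of degree `≤ d + ν_j - ν_l < 0`, so `X` is stable under `θ`, a
`K[θ] = L`-subspace of dimension `0 < i + 1 < N` over `K`: impossible. -/
def StCh : Prop :=
  ∀ (F : Type) [Field F] (g d : ℕ), 1 ≤ g → ∀ (f : F[X][X]) (hm : f.Monic),
    f.natDegree = 2 * g + 1 →
    ∀ [Fact (Irreducible (fK f))] (α : LL f), α ≠ 0 → IsSquare (Algebra.norm (RatFunc F) α) →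
      ¬ IsSquare α → ∀ (m : Fin g → ℕ), Antitone m → ∀ e : Ix g → LL f,
      (∀ i j, Bf hm α (e i) (e j) = Gm (RatFunc F) g i j) → ∀ b ∈ Vset F g d m,
      (∀ i j, Bf hm α (th f * e i) (e j) = algebraMap F[X] (RatFunc F) (b i j)) → Adm g d m

/-- Ci (the characteristic polynomial).  `e` is a basis; `θ e_i = ∑_k T_ki e_k` with
`T_ki = B(θ e_i, e_(rev k))`; so `(b G)^t = T` over `K`, and the characteristic polynomial of
multiplication by `θ` is `f`. -/
def StCi : Prop :=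
  ∀ (F : Type) [Field F] (g : ℕ) (f : F[X][X]) (hm : f.Monic), f.natDegree = 2 * g + 1 →
    ∀ (α : LL f) (e : Ix g → LL f),
      (∀ i j, Bf hm α (e i) (e j) = Gm (RatFunc F) g i j) →
      ∀ b : Matrix (Ix g) (Ix g) F[X],
      (∀ i j, Bf hm α (th f * e i) (e j) = algebraMap F[X] (RatFunc F) (b i j)) → chi b = f

/-- Cj (local goodness).  `α β² = 1 + P r / a`.  Claim: `c e_i / β ∈ R` for some `c ∈ A` prime to `P`:
since `α e_i² ∈ R`, `(e_i/β)² = α e_i² (α β²)⁻¹`; `α β²` is a unit of `R_(P) = A_(P)[θ]` (it is `1` modulo `P`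
in the finite `A_(P)`-algebra `R_(P)`: its inverse is in `R_(P)` by Nakayama / norm prime to `P`), so
`(e_i/β)² ∈ R_(P)`, and `R_(P)` is integrally closed (`R` is a Dedekind domain).  Put
`w_i = c⁻¹ (c e_i/β) mod P ∈ k_P[x]/f̄`; `w_i w_j = α e_i e_j` modulo `P R_(P)`, so
`tau (w_i w_j) = B(e_i,e_j) mod P`, and similarly with `θ`. -/
def StCj : Prop :=
  ∀ (F : Type) [Field F] [Fintype F] (g : ℕ), 1 ≤ g → ∀ (f : F[X][X]) (hm : f.Monic),
    f.natDegree = 2 * g + 1 →
    ∀ [Fact (Irreducible (fK f))] [IsDedekindDomain (RR f)] [IsFractionRing (RR f) (LL f)]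
      (P : Prm F) (α : LL f), α ≠ 0 → LocSq P α → ∀ e : Ix g → LL f,
      (∀ i j, InR (α * e i * e j)) →
      (∀ i j, Bf hm α (e i) (e j) = Gm (RatFunc F) g i j) →
      ∀ b : Matrix (Ix g) (Ix g) F[X],
      (∀ i j, Bf hm α (th f * e i) (e j) = algebraMap F[X] (RatFunc F) (b i j)) →
      ∀ S : Set (kp P)[X], f.map (red P) ∈ S → b.map (red P) ∈ LocGood (kp P) g S

/-! ### Parts of `StDed` -/

/-- De1 (irreducibility).  `s = 1/t`: `f_s(X) = ∑ (reverse of c_i in degree i d)(s) X^(N-i) ∈ F[s][X]` is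
monic, its reduction modulo `s` is `f̄_∞`, irreducible, so `f_s` is irreducible in `F[s][X]`
(`Monic.irreducible_of_irreducible_map`) and over `F(s)` (Gauss); `f(t, x) = t^(N d) f_s(1/t, x/t^d)`.
Separable: the discriminant of `f_s` reduces to that of `f̄_∞`, which is separable (irreducible over a
finite field). -/
def StDe1 : Prop :=
  ∀ (F : Type) [Field F] [Fintype F] (N d : ℕ), 1 ≤ N → ∀ f ∈ family F N d,
    InfIrr d f → Irreducible (fK f) ∧ (fK f).Separable

/-- De2.  `R = A[x]/f` is a free `A`-module with basis `1, .., x^(N-1)`, `L = K ⊗ R`. -/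
def StDe2 : Prop :=
  ∀ (F : Type) [Field F] (f : F[X][X]), f.Monic → Irreducible (fK f) →
    IsFractionRing (RR f) (LL f)

/-- De3 (Dedekind).  `R` is a Noetherian domain of dimension 1 (integral over `A`), not a field.  Let
`𝔭` be a maximal ideal of `R`, `m` its preimage in `A[x] = F[t][x]`, a maximal ideal generated by two
elements; `f ∈ m`, `f ∉ m²`, so `m/(m² + (f))` is one dimensional over the residue field, i.e.
`𝔭/𝔭²` is, the maximal ideal of `R_𝔭` is principal (`IsDiscreteValuationRing.TFAE` /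
`IsLocalRing.finrank_cotangentSpace_eq_one_iff`), `R_𝔭` is a DVR, `R` is Dedekind
(`IsDedekindDomainDvr`). -/
def StDe3 : Prop :=
  ∀ (F : Type) [Field F] [Fintype F] (f : F[X][X]), f.Monic → 1 ≤ f.natDegree →
    Irreducible (fK f) → Smooth f → IsDedekindDomain (RR f)

end Pool.Agent.Helper3.HY
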