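import Pool.Agent.Helper3.HY.Base
import Pool.Agent.Helper3.HY.StC

/-!
# HY, module Cj: local goodness
-/

set_option autoImplicit false

namespace Pool.Agent.Helper3.HY

open Polynomial Finset Filter Topology Matrix IsDedekindDomain
open Pool.Agent.Helper54.PT (Prm prm)

namespace Cj

section

variable {A k : Type} [CommRing A] [CommRing k] (φ : A →+* k) {f : A[X]}

/-- reduction of `A[x]/f` -/
noncomputable def rho (f : A[X]) : AdjoinRoot f →+* AdjoinRoot (f.map φ) :=
  AdjoinRoot.map φ f (f.map φ) dvd_rfl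

lemma rho_mk (p : A[X]) : rho φ f (AdjoinRoot.mk f p) = AdjoinRoot.mk (f.map φ) (p.map φ) := by
  induction p using Polynomial.induction_on' with
  | add p q hp hq => rw [map_add, map_add, hp, hq, Polynomial.map_add, map_add]
  | monomial n a =>
    rw [← C_mul_X_pow_eq_monomial, map_mul, map_pow, AdjoinRoot.mk_X, AdjoinRoot.mk_C, map_mul,
      map_pow, Polynomial.map_mul, Polynomial.map_pow, map_X, map_C, map_mul,
      map_pow, AdjoinRoot.mk_X, AdjoinRoot.mk_C, rho, AdjoinRoot.map_root, AdjoinRoot.map_of]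

lemma rho_root : rho φ f (AdjoinRoot.root f) = AdjoinRoot.root (f.map φ) := by
  rw [rho, AdjoinRoot.map_root]

lemma rho_algebraMap (a : A) : rho φ f (algebraMap A (AdjoinRoot f) a) =
    algebraMap k (AdjoinRoot (f.map φ)) (φ a) := by
  rw [rho, AdjoinRoot.algebraMap_eq, AdjoinRoot.algebraMap_eq, AdjoinRoot.map_of]

lemma co_rho (hm : f.Monic) (i : ℕ) (z : AdjoinRoot f) :
    co (hm.map φ) i (rho φ f z) = φ (co hm i z) := by
  obtain ⟨p, rfl⟩ := AdjoinRoot.mk_surjective z
  rw [rho_mk, co_mk, co_mk, ← map_modByMonic _ hm, coeff_map]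

end

/-- an element of `R` which is prime to `P` divides an element of `A` prime to `P` -/
lemma exists_mul {F : Type} [Field F] {f : F[X][X]} (hm : f.Monic) (P : Prm F) (a : F[X])
    (ha : ¬ P.1 ∣ a) (r : RR f) :
    ∃ (s : RR f) (c : F[X]), ¬ P.1 ∣ c ∧
      (algebraMap F[X] (RR f) a + algebraMap F[X] (RR f) P.1 * r) * s = algebraMap F[X] (RR f) c := by
  classical
  set x := algebraMap F[X] (RR f) a + algebraMap F[X] (RR f) P.1 * r with hx
  have : Module.Finite F[X] (RR f) := (AdjoinRoot.powerBasis' hm).finite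
  have : Algebra.IsIntegral F[X] (RR f) := Algebra.IsIntegral.of_finite F[X] (RR f)
  by_contra hcon
  push Not at hcon
  have hle : (Ideal.span {x}).comap (algebraMap F[X] (RR f)) ≤ Ideal.span {P.1} := by
    intro c hc
    rw [Ideal.mem_comap, Ideal.mem_span_singleton] at hc
    obtain ⟨s, hs⟩ := hc
    rw [Ideal.mem_span_singleton]
    by_contra hPc
    exact hcon s c hPc hs.symm
  have hprime : (Ideal.span {P.1}).IsPrime := by
    rw [Ideal.span_singleton_prime P.2.2.ne_zero]
    exact P.2.2.prime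
  obtain ⟨Q, hQ1, hQ2, hQ3⟩ := Ideal.exists_ideal_over_prime_of_isIntegral (Ideal.span {P.1})
    (Ideal.span {x}) hle
  have hxQ : x ∈ Q := hQ1 (Ideal.mem_span_singleton_self x)
  have hPQ : algebraMap F[X] (RR f) P.1 ∈ Q := by
    have : P.1 ∈ Q.comap (algebraMap F[X] (RR f)) := by
      rw [hQ3]; exact Ideal.mem_span_singleton_self _
    exact this
  have haQ : algebraMap F[X] (RR f) a ∈ Q := by
    have h1 : algebraMap F[X] (RR f) a = x - algebraMap F[X] (RR f) P.1 * r := by rw [hx]; ring
    rw [h1]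
    exact Q.sub_mem hxQ (Q.mul_mem_right _ hPQ)
  have haP : a ∈ Q.comap (algebraMap F[X] (RR f)) := haQ
  rw [hQ3, Ideal.mem_span_singleton] at haP
  exact ha haP

end Cj

theorem hCj : StCj := by
  intro F _ _ g hg f hm hdeg _ _ _ P α hα hloc e he hG b hb S hS
  obtain ⟨β, hβ, r, a, ha, hr⟩ := hloc
  obtain ⟨s, c, hc, hsc⟩ := Cj.exists_mul hm P a ha r
  have hinj : Function.Injective (algebraMap (RR f) (LL f)) := IsFractionRing.injective (RR f) (LL f)
  have htow : ∀ x : F[X], algebraMap F[X] (LL f) x = algebraMap (RR f) (LL f) (algebraMap F[X] (RR f) x) :=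
    fun x => IsScalarTower.algebraMap_apply F[X] (RR f) (LL f) x
  choose mm hmm using he
  -- `a u = a + P r`
  set u : LL f := α * β ^ 2 with hu
  have hau : algebraMap F[X] (LL f) a * u = algebraMap (RR f) (LL f)
      (algebraMap F[X] (RR f) a + algebraMap F[X] (RR f) P.1 * r) := by
    rw [map_add, map_mul, ← htow, ← htow, ← hr]
    ring
  have hu0 : u ≠ 0 := mul_ne_zero hα (pow_ne_zero 2 hβ)
  -- `c e_i / β` lies in `R`
  have hint : ∀ i, ∃ ri : RR f, algebraMap (RR f) (LL f) ri = algebraMap F[X] (LL f) c * e i / β := by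
    intro i
    have h1 : (algebraMap F[X] (LL f) c * e i / β) ^ 2 =
        algebraMap (RR f) (LL f) (algebraMap F[X] (RR f) (c * a) * s * mm i i) := by
      rw [map_mul, map_mul, ← htow, ← hmm i i, map_mul]
      have h2 : algebraMap F[X] (LL f) a * u * algebraMap (RR f) (LL f) s = algebraMap F[X] (LL f) c := by
        rw [hau, ← map_mul, hsc, ← htow]
      have h3 : (e i / β) ^ 2 = α * e i * e i / u := by
        rw [hu]
        field_simp
      calc (algebraMap F[X] (LL f) c * e i / β) ^ 2
          = algebraMap F[X] (LL f) c * (algebraMap F[X] (LL f) c) * (e i / β) ^ 2 := by ring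
        _ = algebraMap F[X] (LL f) c * (algebraMap F[X] (LL f) a * u * algebraMap (RR f) (LL f) s) *
              (α * e i * e i / u) := by rw [h3, h2]
        _ = algebraMap F[X] (LL f) c * algebraMap F[X] (LL f) a * algebraMap (RR f) (LL f) s *
              (α * e i * e i) := by
            field_simp
    have h4 : IsIntegral (RR f) (algebraMap F[X] (LL f) c * e i / β) := by
      apply IsIntegral.of_pow (n := 2) (by norm_num)
      rw [h1]
      exact isIntegral_algebraMap
    exact IsIntegrallyClosed.isIntegral_iff.mp h4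
  choose ri hri using hint
  -- relation modulo `P`
  have hrel : ∀ i j, algebraMap F[X] (RR f) (a * c ^ 2) * mm i j =
      (algebraMap F[X] (RR f) a + algebraMap F[X] (RR f) P.1 * r) * (ri i * ri j) := by
    intro i j
    apply hinj
    have h1 : algebraMap (RR f) (LL f) (algebraMap F[X] (RR f) (a * c ^ 2) * mm i j) =
        algebraMap F[X] (LL f) a * algebraMap F[X] (LL f) c ^ 2 * (α * e i * e j) := by
      rw [map_mul (algebraMap (RR f) (LL f)), ← htow, ← hmm i j, map_mul, map_pow]
    have h2 : algebraMap (RR f) (LL f) ((algebraMap F[X] (RR f) a + algebraMap F[X] (RR f) P.1 * r) *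
        (ri i * ri j)) = algebraMap F[X] (LL f) a * u *
          ((algebraMap F[X] (LL f) c * e i / β) * (algebraMap F[X] (LL f) c * e j / β)) := by
      rw [map_mul (algebraMap (RR f) (LL f)), ← hau, map_mul (algebraMap (RR f) (LL f)), hri, hri]
    rw [h1, h2, hu]
    field_simp
  set h : (kp P)[X] := f.map (red P) with hh
  have hhm : h.Monic := hm.map _
  have hhdeg : h.natDegree = 2 * g + 1 := by rw [hh, hm.natDegree_map, hdeg]
  have hc0 : red P c ≠ 0 := fun h0 => hc (AdjoinRoot.mk_eq_zero.mp h0)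
  have ha0 : red P a ≠ 0 := fun h0 => ha (AdjoinRoot.mk_eq_zero.mp h0)
  have hP0 : red P P.1 = 0 := AdjoinRoot.mk_self
  have hmod : ∀ i j, algebraMap (kp P) (AdjoinRoot h) (red P c)⁻¹ * Cj.rho (red P) f (ri i) *
      (algebraMap (kp P) (AdjoinRoot h) (red P c)⁻¹ * Cj.rho (red P) f (ri j)) =
      Cj.rho (red P) f (mm i j) := by
    intro i j
    have h1 := congrArg (Cj.rho (red P) f) (hrel i j)
    rw [map_mul (Cj.rho (red P) f), map_mul (Cj.rho (red P) f), map_add (Cj.rho (red P) f),
      map_mul (Cj.rho (red P) f), map_mul (Cj.rho (red P) f), Cj.rho_algebraMap, Cj.rho_algebraMap,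
      Cj.rho_algebraMap, hP0, map_zero, zero_mul, add_zero, map_mul (red P), map_pow (red P),
      map_mul (algebraMap (kp P) (AdjoinRoot (f.map (red P)))),
      map_pow (algebraMap (kp P) (AdjoinRoot (f.map (red P))))] at h1
    have h2 : algebraMap (kp P) (AdjoinRoot h) (red P a)⁻¹ * algebraMap (kp P) (AdjoinRoot h) (red P a) = 1 := by
      rw [← map_mul, inv_mul_cancel₀ ha0, map_one]
    have h3 : algebraMap (kp P) (AdjoinRoot h) (red P c)⁻¹ * algebraMap (kp P) (AdjoinRoot h) (red P c) = 1 := by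
      rw [← map_mul, inv_mul_cancel₀ hc0, map_one]
    have h4 : algebraMap (kp P) (AdjoinRoot h) (red P c) ^ 2 * Cj.rho (red P) f (mm i j) =
        Cj.rho (red P) f (ri i) * Cj.rho (red P) f (ri j) := by
      have h5 : algebraMap (kp P) (AdjoinRoot h) (red P a)⁻¹ * (algebraMap (kp P) (AdjoinRoot h) (red P a) *
            algebraMap (kp P) (AdjoinRoot h) (red P c) ^ 2 * Cj.rho (red P) f (mm i j)) =
          algebraMap (kp P) (AdjoinRoot h) (red P a)⁻¹ * (algebraMap (kp P) (AdjoinRoot h) (red P a) *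
            (Cj.rho (red P) f (ri i) * Cj.rho (red P) f (ri j))) := by rw [h1]
      calc algebraMap (kp P) (AdjoinRoot h) (red P c) ^ 2 * Cj.rho (red P) f (mm i j)
          = (algebraMap (kp P) (AdjoinRoot h) (red P a)⁻¹ * algebraMap (kp P) (AdjoinRoot h) (red P a)) *
            (algebraMap (kp P) (AdjoinRoot h) (red P c) ^ 2 * Cj.rho (red P) f (mm i j)) := by
            rw [h2, one_mul]
        _ = algebraMap (kp P) (AdjoinRoot h) (red P a)⁻¹ * (algebraMap (kp P) (AdjoinRoot h) (red P a) *
            algebraMap (kp P) (AdjoinRoot h) (red P c) ^ 2 * Cj.rho (red P) f (mm i j)) := by ring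
        _ = algebraMap (kp P) (AdjoinRoot h) (red P a)⁻¹ * (algebraMap (kp P) (AdjoinRoot h) (red P a) *
            (Cj.rho (red P) f (ri i) * Cj.rho (red P) f (ri j))) := h5
        _ = (algebraMap (kp P) (AdjoinRoot h) (red P a)⁻¹ * algebraMap (kp P) (AdjoinRoot h) (red P a)) *
            (Cj.rho (red P) f (ri i) * Cj.rho (red P) f (ri j)) := by ring
        _ = _ := by rw [h2, one_mul]
    calc algebraMap (kp P) (AdjoinRoot h) (red P c)⁻¹ * Cj.rho (red P) f (ri i) *
          (algebraMap (kp P) (AdjoinRoot h) (red P c)⁻¹ * Cj.rho (red P) f (ri j))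
        = algebraMap (kp P) (AdjoinRoot h) (red P c)⁻¹ ^ 2 *
          (Cj.rho (red P) f (ri i) * Cj.rho (red P) f (ri j)) := by ring
      _ = algebraMap (kp P) (AdjoinRoot h) (red P c)⁻¹ ^ 2 *
          (algebraMap (kp P) (AdjoinRoot h) (red P c) ^ 2 * Cj.rho (red P) f (mm i j)) := by rw [h4]
      _ = (algebraMap (kp P) (AdjoinRoot h) (red P c)⁻¹ * algebraMap (kp P) (AdjoinRoot h) (red P c)) ^ 2 *
          Cj.rho (red P) f (mm i j) := by ring
      _ = _ := by rw [h3, one_pow, one_mul]
  have htau : ∀ z : RR f, tau hhm (Cj.rho (red P) f z) = red P (tau hm z) := by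
    intro z
    have h1 := Cj.co_rho (red P) hm (f.natDegree - 1) z
    have h2 : h.natDegree - 1 = f.natDegree - 1 := by rw [hhdeg, hdeg]
    rw [tau, tau, h2]
    exact h1
  have htauK : ∀ z : RR f, tau (hm.map (algebraMap F[X] (RatFunc F))) (algebraMap (RR f) (LL f) z) =
      algebraMap F[X] (RatFunc F) (tau hm z) := by
    intro z
    have h1 := co_algebraMap hm (f.natDegree - 1) z
    have h2 : (f.map (algebraMap F[X] (RatFunc F))).natDegree - 1 = f.natDegree - 1 := by
      rw [hm.natDegree_map]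
    rw [tau, tau, h2]
    exact h1
  have hinjA : Function.Injective (algebraMap F[X] (RatFunc F)) := RatFunc.algebraMap_injective F
  refine ⟨h, hS, hhm, hhdeg, fun i => algebraMap (kp P) (AdjoinRoot h) (red P c)⁻¹ *
    Cj.rho (red P) f (ri i), ?_, ?_⟩
  · intro i j
    simp only
    rw [hmod, htau]
    have h1 : tau hm (mm i j) = Gm F[X] g i j := by
      apply hinjA
      rw [← htauK, ← hmm, ← Bf_apply hm, hG]
      unfold Gm
      split_ifs
      · rw [map_one]
      · rw [map_zero]
    rw [h1]
    unfold Gm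
    split_ifs
    · rw [map_one]
    · rw [map_zero]
  · intro i j
    simp only
    have h0 : AdjoinRoot.root h * (algebraMap (kp P) (AdjoinRoot h) (red P c)⁻¹ * Cj.rho (red P) f (ri i)) *
        (algebraMap (kp P) (AdjoinRoot h) (red P c)⁻¹ * Cj.rho (red P) f (ri j)) =
        Cj.rho (red P) f (AdjoinRoot.root f * mm i j) := by
      rw [map_mul, Cj.rho_root, ← hmod i j]
      ring
    rw [h0, htau]
    have h1 : tau hm (AdjoinRoot.root f * mm i j) = b i j := by
      apply hinjA
      rw [← htauK, map_mul, algebraMap_root, ← hmm, ← hb, Bf_apply]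
      congr 1
      ring
    rw [h1, Matrix.map_apply]

end Pool.Agent.Helper3.HY
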