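import Pool.Agent.Helper3.HY.Base

set_option autoImplicit false

namespace Pool.Agent.Helper3.HY

open Polynomial Finset Filter Topology Matrix IsDedekindDomain

namespace Ce

open scoped nonZeroDivisors

/-- an element of even valuation everywhere is the inverse of the square of an ideal -/
theorem exists_sqrt {R K : Type} [CommRing R] [IsDedekindDomain R] [Field K] [Algebra R K]
    [IsFractionRing R K] (α : K) (hα : α ≠ 0)
    (h : ∀ v : HeightOneSpectrum R, IsSquare (v.valuation K α)) :
    ∃ J : FractionalIdeal R⁰ K, J ≠ 0 ∧ FractionalIdeal.spanSingleton R⁰ α * J * J = 1 := by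
  classical
  obtain ⟨n, d, hnd⟩ := IsLocalization.exists_mk'_eq R⁰ α
  have hn : n ≠ 0 := by
    rintro rfl
    rw [IsLocalization.mk'_zero] at hnd
    exact hα hnd.symm
  have hd : (d : R) ≠ 0 := nonZeroDivisors.ne_zero d.2
  have h0 : FractionalIdeal.spanSingleton R⁰ α ≠ 0 := by
    rwa [Ne, FractionalIdeal.spanSingleton_eq_zero_iff]
  have key := FractionalIdeal.finprod_heightOneSpectrum_factorization_principal_fraction
    (K := K) hn d
  rw [hnd] at key
  set ex : HeightOneSpectrum R → ℤ := fun v =>
    (((Associates.mk v.asIdeal).count (Associates.mk (Ideal.span {n} : Ideal R)).factors : ℤ) -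
      (Associates.mk v.asIdeal).count (Associates.mk ((Ideal.span {(d : R)}) :
        Ideal R)).factors) with hex
  have hev : ∀ v, ∃ k : ℤ, ex v = k + k := by
    intro v
    obtain ⟨c, hc⟩ := h v
    have h1 : v.valuation K α = WithZero.exp (-(ex v)) := by
      rw [← hnd, HeightOneSpectrum.valuation_of_mk', HeightOneSpectrum.intValuation_if_neg v hn,
        HeightOneSpectrum.intValuation_if_neg v hd, ← WithZero.exp_sub, hex]
      congr 1
      ring
    have hc0 : c ≠ 0 := by
      rintro rfl
      rw [mul_zero, h1] at hc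
      exact WithZero.exp_ne_zero hc
    rw [h1] at hc
    have h2 := congrArg WithZero.log hc
    rw [WithZero.log_exp, WithZero.log_mul hc0 hc0] at h2
    exact ⟨-(WithZero.log c), by linarith⟩
  choose k hk using hev
  have hfin : {v | ex v ≠ 0}.Finite := by
    have hI : FractionalIdeal.spanSingleton R⁰ α =
        FractionalIdeal.spanSingleton R⁰ ((algebraMap R K) d)⁻¹ *
          ((Ideal.span {n} : Ideal R) : FractionalIdeal R⁰ K) := by
      rw [FractionalIdeal.coeIdeal_span_singleton, FractionalIdeal.spanSingleton_mul_spanSingleton]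
      apply congr_arg
      rw [← hnd, IsFractionRing.mk'_eq_div, div_eq_mul_inv, mul_comm]
    exact FractionalIdeal.finite_factors' h0 hI
  have hfk : (Function.mulSupport fun v : HeightOneSpectrum R =>
      (v.asIdeal : FractionalIdeal R⁰ K) ^ k v).Finite := by
    refine hfin.subset fun v hv => ?_
    rw [Function.mem_mulSupport] at hv
    intro h1
    apply hv
    have h2 := hk v
    have h3 : k v = 0 := by omega
    rw [h3, zpow_zero]
  set J : FractionalIdeal R⁰ K := ∏ᶠ v : HeightOneSpectrum R,
    (v.asIdeal : FractionalIdeal R⁰ K) ^ k v with hJ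
  have hJJ : J * J = FractionalIdeal.spanSingleton R⁰ α := by
    rw [hJ, ← finprod_mul_distrib hfk hfk, ← key]
    refine finprod_congr fun v => ?_
    rw [← zpow_add₀ (FractionalIdeal.coeIdeal_ne_zero.2 v.ne_bot), ← hk]
  have hJ0 : J ≠ 0 := by
    intro h1
    rw [h1, mul_zero] at hJJ
    exact h0 hJJ.symm
  refine ⟨J⁻¹, inv_ne_zero hJ0, ?_⟩
  rw [← hJJ]
  field_simp

variable {F : Type} [Field F] {f : F[X][X]}

theorem exists_denom (z : LL f) : ∃ a : F[X], a ≠ 0 ∧ InR (a • z) := by
  obtain ⟨p, rfl⟩ := AdjoinRoot.mk_surjective z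
  obtain ⟨b, hb⟩ := IsLocalization.integerNormalization_map_to_map F[X]⁰ p
  refine ⟨b, nonZeroDivisors.ne_zero b.2,
    AdjoinRoot.mk f (IsLocalization.integerNormalization F[X]⁰ p), ?_⟩
  rw [algebraMap_mk, hb, AdjoinRoot.smul_mk]

end Ce

open scoped nonZeroDivisors in
theorem hCe : StCe := by
  intro F _ _ f hm _ _ _ α hα hev
  obtain ⟨J, hJ0, hJ⟩ := Ce.exists_sqrt (R := RR f) (K := LL f) α hα hev
  refine ⟨(J : Submodule (RR f) (LL f)).restrictScalars F[X], ?_, ?_, ?_, ?_⟩
  · intro x hx
    rw [Submodule.restrictScalars_mem] at hx ⊢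
    have h1 := Submodule.smul_mem (J : Submodule (RR f) (LL f)) (AdjoinRoot.root f) hx
    rwa [Algebra.smul_def, algebraMap_root] at h1
  · intro x hx y hy
    have h1 : α * x * y ∈ FractionalIdeal.spanSingleton (RR f)⁰ α * J * J :=
      FractionalIdeal.mul_mem_mul (FractionalIdeal.mul_mem_mul
        (FractionalIdeal.mem_spanSingleton_self _ _) hx) hy
    rw [hJ, FractionalIdeal.mem_one_iff] at h1
    obtain ⟨r, hr⟩ := h1
    exact ⟨r, hr.symm⟩
  · intro z hz
    have h1 : FractionalIdeal.spanSingleton (RR f)⁰ (α * z) * J ≤ 1 := by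
      rw [FractionalIdeal.mul_le]
      intro x hx y hy
      obtain ⟨r, hr⟩ := (FractionalIdeal.mem_spanSingleton _).1 hx
      obtain ⟨s, hs⟩ := hz y hy
      rw [FractionalIdeal.mem_one_iff]
      refine ⟨r * s, ?_⟩
      rw [map_mul, ← hs, ← hr, Algebra.smul_def]
      ring
    have h2 : FractionalIdeal.spanSingleton (RR f)⁰ z ≤ J := by
      have h3 : FractionalIdeal.spanSingleton (RR f)⁰ z =
          (FractionalIdeal.spanSingleton (RR f)⁰ (α * z) * J) * J := by
        rw [← FractionalIdeal.spanSingleton_mul_spanSingleton]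
        calc FractionalIdeal.spanSingleton (RR f)⁰ z =
            FractionalIdeal.spanSingleton (RR f)⁰ z *
              (FractionalIdeal.spanSingleton (RR f)⁰ α * J * J) := by rw [hJ, mul_one]
          _ = _ := by ring
      rw [h3]
      calc (FractionalIdeal.spanSingleton (RR f)⁰ (α * z) * J) * J ≤ 1 * J := by gcongr
        _ = J := one_mul _
    exact h2 (FractionalIdeal.mem_spanSingleton_self _ _)
  · intro z
    obtain ⟨j, hj, hj0⟩ : ∃ j ∈ J, j ≠ 0 := by
      by_contra hcon
      push Not at hcon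
      exact hJ0 (FractionalIdeal.eq_zero_iff.2 hcon)
    obtain ⟨a, ha, r, hr⟩ := Ce.exists_denom (z / j)
    refine ⟨a, ha, ?_⟩
    rw [Submodule.restrictScalars_mem]
    have h1 : a • z = r • j := by
      rw [Algebra.smul_def r j, ← hr, smul_mul_assoc, div_mul_cancel₀ _ hj0]
    rw [h1]
    exact Submodule.smul_mem _ _ hj

end Pool.Agent.Helper3.HY
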