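import Pool.Agent.Helper3.HY.Defs
import Pool.Agent.Helper54.PT.DefsC

/-!
# HY: the interface statements
-/

set_option autoImplicit false

namespace Pool.Agent.Helper3.HY

open Polynomial Finset Filter Topology Matrix IsDedekindDomain
open Pool.Agent.Helper54.PT (Prm prm IsAbsP)

/-! ### Further definitions -/

section defs

variable {F : Type} [Field F]

/-- The value of the `x - T` map for the quadratic twist `D y ^ 2 = h(x)`. -/
def IsTwPoint {k : Type} [Field k] (h : k[X]) (D : k) (z : AdjoinRoot h) : Prop :=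
  ∃ U V : k[X], U.Monic ∧ IsCoprime U h ∧ U ∣ C D * h - V ^ 2 ∧
    z = AdjoinRoot.mk h (C (-D) ^ U.natDegree * U)

/-- The descent group of the quadratic twist. -/
noncomputable def twGroup {k : Type} [Field k] (h : k[X]) (D : k) : Subgroup (AdjoinRoot h)ˣ :=
  Subgroup.closure ({z | IsTwPoint h D (z : AdjoinRoot h)} ∪ Set.range fun z => z ^ 2)

/-- `z` lies in the descent group of the twist by `D` at the absolute value `v`. -/
def TwAt (f : F[X][X]) (D : F[X]) (v : AbsoluteValue (RatFunc F) ℝ) (z : (LL f)ˣ) : Prop :=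
  Units.map (baseChange (algebraMap (RatFunc F) v.Completion) (fK f) : LL f →* _) z ∈
    twGroup ((fK f).map (algebraMap (RatFunc F) v.Completion))
      (algebraMap (RatFunc F) v.Completion (algebraMap F[X] (RatFunc F) D))

section val

variable {f : F[X][X]} [Fact (Irreducible (fK f))] [IsDedekindDomain (RR f)]
  [IsFractionRing (RR f) (LL f)]

/-- `z` has even valuation at `v`. -/
def EvenAt (v : HeightOneSpectrum (RR f)) (z : LL f) : Prop := IsSquare (v.valuation (LL f) z)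

/-- The parity of the valuation. -/
noncomputable def om (q : HeightOneSpectrum (RR f)) (z : LL f) : ZMod 2 := by
  classical exact if EvenAt q z then 0 else 1

/-- The class of the unit part of `z` (with respect to the uniformizer `P`) at `q`. -/
noncomputable def ep (P : Prm F) (q : HeightOneSpectrum (RR f)) (z : LL f) : ZMod 2 := by
  classical exact if ∃ (j : ℕ) (β : LL f), β ≠ 0 ∧
    q.valuation (LL f) (z * algebraMap F[X] (LL f) P.1 ^ j * β ^ 2 - 1) < 1 then 0 else 1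

/-- `q` lies above `P`. -/
def Over (P : Prm F) (q : HeightOneSpectrum (RR f)) : Prop :=
  algebraMap F[X] (RR f) P.1 ∈ q.asIdeal

/-- `q` is the prime above `P` with residue degree `2 g`. -/
def IsQ (g : ℕ) (P : Prm F) (q : HeightOneSpectrum (RR f)) : Prop :=
  Over P q ∧ ∃ p : F[X][X], (p.map (red P)).Monic ∧ Irreducible (p.map (red P)) ∧
    (p.map (red P)).natDegree = 2 * g ∧ AdjoinRoot.mk f p ∈ q.asIdeal

end val

/-- The product of the primes of `R` and of the partners of the other primes of `T`. -/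
noncomputable def DR (T : Finset (Prm F)) (σ : Prm F → Prm F) (R : Finset (Prm F)) : F[X] :=
  (∏ P ∈ R, P.1) * ∏ P ∈ T \ R, (σ P).1

/-- The density of the local condition. -/
noncomputable def dens {F : Type} [Field F] (g : ℕ) (Cl : ∀ P : Prm F, Set (kp P)[X]) (P : Prm F) :
    ℝ :=
  ((Cl P).ncard : ℝ) / (Nat.card (kp P) : ℝ) ^ (2 * g + 1)

/-- The polynomials which come from a good matrix. -/
def BadSet (F : Type) [Field F] (g d : ℕ) (S : Finset (Prm F)) (Cl : ∀ P : Prm F, Set (kp P)[X]) :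
    Set F[X][X] :=
  {f | Irreducible (fK f) ∧ ∃ m : Fin g → ℕ, Adm g d m ∧ ∃ b ∈ VGood g d m S Cl, chi b = f}

end defs

/-! ### The statements -/

/-- (FAM) The family is finite with `q ^ (d N (N + 1) / 2 + N)` elements. -/
def StFam : Prop :=
  ∀ (F : Type) [Field F] [Fintype F] (N d : ℕ), (family F N d).Finite ∧
    (family F N d).ncard = Fintype.card F ^ (d * (N * (N + 1) / 2) + N)

/-- (DED) -/
def StDed : Prop :=
  ∀ (F : Type) [Field F] [Fintype F] (g d : ℕ), 1 ≤ g → ∀ f ∈ family F (2 * g + 1) d,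
    InfIrr d f → Irreducible (fK f) ∧ (fK f).Separable ∧
      (Smooth f → IsDedekindDomain (RR f) ∧ IsFractionRing (RR f) (LL f))

/-- (C) From a class to a matrix. -/
def StC : Prop :=
  ∀ (F : Type) [Field F] [Fintype F], (2 : F) ≠ 0 → ∀ (g d : ℕ), 1 ≤ g →
    ∀ f ∈ family F (2 * g + 1) d, InfIrr d f →
    ∀ [Fact (Irreducible (fK f))] [IsDedekindDomain (RR f)] [IsFractionRing (RR f) (LL f)]
      (S : Finset (Prm F)) (Cl : ∀ P : Prm F, Set (kp P)[X]), (∀ P ∈ S, f.map (red P) ∈ Cl P) →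
    ∀ α : LL f, α ≠ 0 → IsSquare (Algebra.norm (RatFunc F) α) → (∀ v, EvenAt v α) →
      (∀ P ∈ S, LocSq P α) → ¬ IsSquare α →
    ∃ m : Fin g → ℕ, Adm g d m ∧ ∃ b ∈ VGood g d m S Cl, chi b = f

/-- (U) Counting matrices. -/
def StU : Prop :=
  ∀ (F : Type) [Field F] [Fintype F], (2 : F) ≠ 0 → ∀ g : ℕ, 1 ≤ g →
    ∃ C₀ : ℝ, 0 < C₀ ∧ ∀ T T' : Finset (Prm F), Disjoint T T' → ∀ ε : ℝ, 0 < ε → ∀ᶠ d : ℕ in atTop,
      (BadSet F g d (T ∪ T') (Cls g T)).Finite ∧
      ((BadSet F g d (T ∪ T') (Cls g T)).ncard : ℝ) ≤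
        (C₀ * (1 / 2) ^ T.card * (∏ P ∈ T ∪ T', dens g (Cls g T) P) + ε) *
          (family F (2 * g + 1) d).ncard

/-- (P) The sieve. -/
def StP : Prop :=
  ∀ (F : Type) [Field F] [Fintype F] (g : ℕ), 1 ≤ g →
    ∃ c₀ : ℝ, 0 < c₀ ∧ ∀ (S : Finset (Prm F)) (Cl : ∀ P : Prm F, Set (kp P)[X]),
      (∀ P ∈ S, ∀ h ∈ Cl P, h.Monic ∧ h.natDegree = 2 * g + 1 ∧ Squarefree h) →
      ∀ᶠ d : ℕ in atTop, c₀ * (∏ P ∈ S, dens g Cl P) * (family F (2 * g + 1) d).ncard ≤
        ((GoodSet F g d S Cl).ncard : ℝ)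

/-- (TW) The twist with trivial Selmer group. -/
def StTw : Prop :=
  ∀ (F : Type) [Field F] [Fintype F], (2 : F) ≠ 0 → ∀ (g d : ℕ), 1 ≤ g →
    ∀ T T' : Finset (Prm F), Disjoint T T' → ∀ σ : Prm F → Prm F, (∀ P ∈ T, σ P ∈ T') →
    ∀ f ∈ GoodSet F g d (T ∪ T') (Cls g T),
    ∀ [Fact (Irreducible (fK f))] [IsDedekindDomain (RR f)] [IsFractionRing (RR f) (LL f)],
      (∀ α : LL f, α ≠ 0 → IsSquare (Algebra.norm (RatFunc F) α) → (∀ v, EvenAt v α) →
        (∀ P ∈ T ∪ T', LocSq P α) → IsSquare α) →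
      ∃ R ⊆ T, ∀ z ∈ selmerSet (fK (f.scaleRoots (DR T σ R))), IsSquare z

/-- Positive densities. -/
def StDens : Prop :=
  ∀ (F : Type) [Field F] [Fintype F] (g : ℕ), 1 ≤ g → ∀ (T : Finset (Prm F)) (P : Prm F),
    0 < dens g (Cls g T) P ∧ ∀ h ∈ Cls g T P, h.Monic ∧ h.natDegree = 2 * g + 1 ∧ Squarefree h

/-- Many primes of the same degree. -/
def StPr : Prop :=
  ∀ (F : Type) [Field F] [Fintype F] (n : ℕ), ∃ e : ℕ, 1 ≤ e ∧ n ≤ (prm F e).card

/-- The twist of a polynomial of the family. -/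
def StScale : Prop :=
  ∀ (F : Type) [Field F] (N d : ℕ) (D : F[X]), D ≠ 0 → ∀ f ∈ family F N d,
    f.scaleRoots D ∈ family F N (d + D.natDegree) ∧
      ((fK f).Separable → (fK (f.scaleRoots D)).Separable) ∧
      ∀ f' ∈ family F N d, f.scaleRoots D = f'.scaleRoots D → f = f'

/-! ### Parts of (TW) -/

/-- Transport of the Selmer set of the twist. -/
def StTrans : Prop :=
  ∀ (F : Type) [Field F] [Fintype F] (g : ℕ) (f : F[X][X]) (D : F[X]), f.Monic →
    f.natDegree = 2 * g + 1 → D ≠ 0 →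
    (∀ z : (LL f)ˣ, IsSquare (Algebra.norm (RatFunc F) (z : LL f)) →
      (∀ v : AbsoluteValue (RatFunc F) ℝ, v.IsNontrivial → TwAt f D v z) → IsSquare z) →
    ∀ z ∈ selmerSet (fK (f.scaleRoots D)), IsSquare z

/-- Every prime of `R` lies above a prime of `F[t]`. -/
def StOver : Prop :=
  ∀ (F : Type) [Field F] [Fintype F] (f : F[X][X]), f.Monic →
    ∀ [Fact (Irreducible (fK f))] [IsDedekindDomain (RR f)] [IsFractionRing (RR f) (LL f)],
      Nonempty (HeightOneSpectrum (RR f)) ∧ ∀ q : HeightOneSpectrum (RR f), ∃ P : Prm F, Over P q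

/-- Existence of the prime `q`. -/
def StQ : Prop :=
  ∀ (F : Type) [Field F] [Fintype F] (g : ℕ), 1 ≤ g → ∀ (f : F[X][X]), f.Monic →
    ∀ [Fact (Irreducible (fK f))] [IsDedekindDomain (RR f)] [IsFractionRing (RR f) (LL f)]
      (P : Prm F), f.map (red P) ∈ TType (kp P) g → ∃ q : HeightOneSpectrum (RR f), IsQ g P q

/-- `om` and `ep` are homomorphisms. -/
def StHom : Prop :=
  ∀ (F : Type) [Field F] [Fintype F], (2 : F) ≠ 0 → ∀ (g : ℕ), 1 ≤ g → ∀ (f : F[X][X]), f.Monic →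
    ∀ [Fact (Irreducible (fK f))] [IsDedekindDomain (RR f)] [IsFractionRing (RR f) (LL f)]
      (P : Prm F), f.map (red P) ∈ TType (kp P) g → ∀ q : HeightOneSpectrum (RR f), IsQ g P q →
    ∀ z w : LL f, z ≠ 0 → w ≠ 0 → om q (z * w) = om q z + om q w ∧
      ep P q (z * w) = ep P q z + ep P q w

/-- At the other primes above `P` the valuation is even if the norm is a square. -/
def StQ3 : Prop :=
  ∀ (F : Type) [Field F] [Fintype F], (2 : F) ≠ 0 → ∀ (g : ℕ), 1 ≤ g → ∀ (f : F[X][X]), f.Monic →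
    ∀ [Fact (Irreducible (fK f))] [IsDedekindDomain (RR f)] [IsFractionRing (RR f) (LL f)]
      (P : Prm F), f.map (red P) ∈ TType (kp P) g → ∀ q : HeightOneSpectrum (RR f), IsQ g P q →
    ∀ z : LL f, z ≠ 0 → IsSquare (Algebra.norm (RatFunc F) z) →
      (∀ q', Over P q' → q' ≠ q → EvenAt q' z) ∧ (om q z = 0 → ep P q z = 0 → LocSq P z)

/-- The places where `f` is irreducible. -/
def StI1 : Prop :=
  ∀ (F : Type) [Field F] [Fintype F], (2 : F) ≠ 0 → ∀ (g : ℕ), 1 ≤ g → ∀ (f : F[X][X]), f.Monic →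
    ∀ [Fact (Irreducible (fK f))] [IsDedekindDomain (RR f)] [IsFractionRing (RR f) (LL f)]
      (P : Prm F), f.map (red P) ∈ IType (kp P) g →
    ∀ z : LL f, z ≠ 0 → IsSquare (Algebra.norm (RatFunc F) z) →
      (∀ q, Over P q → EvenAt q z) ∧ LocSq P z

/-- Regular places: even valuation. -/
def StEven : Prop :=
  ∀ (F : Type) [Field F] [Fintype F], (2 : F) ≠ 0 → ∀ (g : ℕ), 1 ≤ g → ∀ (f : F[X][X]), f.Monic →
    f.natDegree = 2 * g + 1 →
    ∀ [Fact (Irreducible (fK f))] [IsDedekindDomain (RR f)] [IsFractionRing (RR f) (LL f)]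
      (P : Prm F) (D : F[X]), ¬ P.1 ∣ D → ∀ v : AbsoluteValue (RatFunc F) ℝ, v.IsNontrivial →
      IsAbsP P v → ∀ z : (LL f)ˣ, TwAt f D v z → ∀ q, Over P q → EvenAt q (z : LL f)

/-- The places of `R`: the image of the twist is a fixed line. -/
def StLine : Prop :=
  ∀ (F : Type) [Field F] [Fintype F], (2 : F) ≠ 0 → ∀ (g : ℕ), 1 ≤ g → ∀ (f : F[X][X]), f.Monic →
    f.natDegree = 2 * g + 1 →
    ∀ [Fact (Irreducible (fK f))] [IsDedekindDomain (RR f)] [IsFractionRing (RR f) (LL f)]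
      (P : Prm F), f.map (red P) ∈ TType (kp P) g → ∀ q : HeightOneSpectrum (RR f), IsQ g P q →
    ∃ η : ZMod 2, ∀ D : F[X], ¬ P.1 ∣ D → ∀ v : AbsoluteValue (RatFunc F) ℝ, v.IsNontrivial →
      IsAbsP P v → ∀ z : (LL f)ˣ, TwAt f (P.1 * D) v z →
      (om q (z : LL f) = 0 ∧ ep P q (z : LL f) = 0) ∨
        (om q (z : LL f) = 1 ∧ ep P q (z : LL f) = η)

/-- Isotropy. -/
def StIso : Prop :=
  ∀ (F : Type) [Field F] [Fintype F], (2 : F) ≠ 0 → ∀ (g d : ℕ), 1 ≤ g →
    ∀ f ∈ family F (2 * g + 1) d, InfIrr d f →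
    ∀ [Fact (Irreducible (fK f))] [IsDedekindDomain (RR f)] [IsFractionRing (RR f) (LL f)]
      (T : Finset (Prm F)), (∀ P ∈ T, f.map (red P) ∈ TType (kp P) g) →
    ∀ q : Prm F → HeightOneSpectrum (RR f), (∀ P ∈ T, IsQ g P (q P)) →
    ∀ z w : LL f, z ≠ 0 → w ≠ 0 → IsSquare (Algebra.norm (RatFunc F) z) →
      IsSquare (Algebra.norm (RatFunc F) w) →
      (∀ v, (∀ P ∈ T, v ≠ q P) → EvenAt v z) → (∀ v, (∀ P ∈ T, v ≠ q P) → EvenAt v w) →
      ∑ P ∈ T, (om (q P) z * ep P (q P) w + om (q P) w * ep P (q P) z) = 0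

end Pool.Agent.Helper3.HY
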