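import Pool.Agent.Helper3.HY.Base
import Pool.Agent.Helper3.HY.St

/-! # HY module Fam: cardinality of the family -/

set_option autoImplicit false

namespace Pool.Agent.Helper3.HY

open Polynomial Finset Filter Topology Matrix IsDedekindDomain

namespace Fam

variable {F : Type} [Field F]

/-- the polynomial with given lower coefficients -/
noncomputable def Phi (F : Type) [Field F] (N d : ℕ)
    (c : (i : Fin N) → degreeLT F ((N - (i : ℕ)) * d + 1)) : F[X][X] :=
  X ^ N + ∑ i : Fin N, C (c i : F[X]) * X ^ (i : ℕ)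

theorem coeff_sum (N d : ℕ) (c : (i : Fin N) → degreeLT F ((N - (i : ℕ)) * d + 1)) (k : Fin N) :
    (Phi F N d c).coeff k = c k := by
  unfold Phi
  rw [coeff_add, coeff_X_pow, if_neg (by have := k.2; omega), zero_add, finsetSum_coeff,
    Finset.sum_eq_single k]
  · rw [coeff_C_mul, coeff_X_pow, if_pos rfl, mul_one]
  · intro b _ hb
    rw [coeff_C_mul, coeff_X_pow, if_neg (fun h => hb (Fin.ext h.symm)), mul_zero]
  · intro h
    exact absurd (Finset.mem_univ _) h

theorem inj (N d : ℕ) : Function.Injective (Phi F N d) := by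
  intro c c' h
  funext k
  apply Subtype.ext
  rw [← coeff_sum, ← coeff_sum, h]

theorem mem_lt_iff (m : ℕ) (p : F[X]) : p ∈ degreeLT F (m + 1) ↔ p.natDegree ≤ m := by
  rw [mem_degreeLT, degree_lt_iff_coeff_zero, natDegree_le_iff_coeff_eq_zero]
  constructor
  · intro h k hk
    exact h k hk
  · intro h k hk
    exact h k hk

theorem range_eq (N d : ℕ) : family F N d = Set.range (Phi F N d) := by
  ext f
  constructor
  · rintro ⟨h1, h2, h3⟩
    refine ⟨fun i => ⟨f.coeff i, (mem_lt_iff _ _).2 (h3 i i.2.le)⟩, ?_⟩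
    unfold Phi
    have h4 := h1.as_sum
    rw [h2, Finset.sum_range] at h4
    exact h4.symm
  · rintro ⟨c, rfl⟩
    have hdeg : degree (∑ i : Fin N, C (c i : F[X]) * X ^ (i : ℕ)) < N :=
      degree_sum_fin_lt _
    have hmon : (Phi F N d c).Monic := monic_X_pow_add hdeg
    have hnat : (Phi F N d c).natDegree = N := by
      apply natDegree_eq_of_degree_eq_some
      unfold Phi
      rw [degree_add_eq_left_of_degree_lt (by rw [degree_X_pow]; exact hdeg), degree_X_pow]
    refine ⟨hmon, hnat, ?_⟩
    intro i hi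
    rcases hi.lt_or_eq with h | h
    · have h5 := coeff_sum N d c ⟨i, h⟩
      have h6 : (Phi F N d c).coeff i = (c ⟨i, h⟩ : F[X]) := h5
      rw [h6]
      exact (mem_lt_iff _ _).1 (c ⟨i, h⟩).2
    · have h7 : (Phi F N d c).coeff i = 1 := by
        have := hmon.coeff_natDegree
        rw [hnat] at this
        rw [h]
        exact this
      rw [h7, natDegree_one]
      exact Nat.zero_le _

theorem sum_eq (N d : ℕ) :
    ∑ i ∈ range N, ((N - i) * d + 1) = d * (N * (N + 1) / 2) + N := by
  induction N with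
  | zero => simp
  | succ N ih =>
    rw [Finset.sum_range_succ']
    simp only [Nat.add_sub_add_right, Nat.sub_zero]
    rw [ih]
    have h1 : (N + 1) * (N + 1 + 1) / 2 = N * (N + 1) / 2 + (N + 1) := by
      have : (N + 1) * (N + 1 + 1) = N * (N + 1) + (N + 1) * 2 := by ring
      rw [this, Nat.add_mul_div_right _ _ (by norm_num)]
    rw [h1]
    ring

instance finiteLT [Fintype F] (n : ℕ) : Finite (degreeLT F n) :=
  Finite.of_equiv _ (degreeLTEquiv F n).symm.toEquiv

theorem card_lt [Fintype F] (n : ℕ) : Nat.card (degreeLT F n) = Fintype.card F ^ n := by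
  rw [Nat.card_congr (degreeLTEquiv F n).toEquiv, Nat.card_eq_fintype_card, Fintype.card_fun,
    Fintype.card_fin]

end Fam

theorem hFam : StFam := by
  intro F _ _ N d
  have hfin : Finite ((i : Fin N) → degreeLT F ((N - (i : ℕ)) * d + 1)) := inferInstance
  rw [Fam.range_eq]
  refine ⟨Set.finite_range _, ?_⟩
  rw [← Set.image_univ, Set.ncard_image_of_injective _ (Fam.inj N d), Set.ncard_univ, Nat.card_pi]
  simp only [Fam.card_lt]
  rw [Finset.prod_pow_eq_pow_sum, ← Fam.sum_eq N d, Finset.sum_range]

end Pool.Agent.Helper3.HY
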