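import Pool.Agent.Helper3.HY.StUU

/-!
# HY: the sieve for smooth plane curves (parts of `StP`), after Poonen

`A = F[t]`, `f ∈ A[x]` monic of degree `N`, `q = #F`, `Q = #(A/P)`.
-/

set_option autoImplicit false

namespace Pool.Agent.Helper3.HY

open Polynomial Finset Filter Topology Matrix
open Pool.Agent.Helper54.PT (Prm prm)

/-- The plane curve is singular at a point above `P`. -/
def BadAt {F : Type} [Field F] (P : Prm F) (f : F[X][X]) : Prop :=
  ∃ m : Ideal F[X][X], m.IsMaximal ∧ C P.1 ∈ m ∧ f ∈ m ^ 2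

/-- The derivative with respect to `t`. -/
noncomputable def dt {F : Type} [Field F] (f : F[X][X]) : F[X][X] :=
  f.sum fun i a => monomial i (derivative a)

/-- The monic irreducible polynomials of degree `N`. -/
def IrrN (F : Type) [Field F] (N : ℕ) : Set F[X] := {h | h.Monic ∧ Irreducible h ∧ h.natDegree = N}

/-- The polynomials with the right behaviour at infinity and at `S`. -/
def WSet (F : Type) [Field F] (N d : ℕ) (S : Finset (Prm F)) (Cl : ∀ P : Prm F, Set (kp P)[X]) :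
    Set F[X][X] :=
  {f | f ∈ family F N d ∧ InfIrr d f ∧ ∀ P ∈ S, f.map (red P) ∈ Cl P}

/-- Pa (maximal ideals).  First: `m ∩ A` is maximal (`Polynomial.isMaximal_comap_C_of_isJacobsonRing`), so
not zero, generated by a monic irreducible polynomial.  Second: `m = (P, φ)` (preimage of a maximal ideal
of `k_P[x]`, generated by an irreducible `φ̄`); `f ∈ m²` implies `f̄ ∈ (φ̄)²`, so `φ̄² ∣ f̄`. -/
def StPa : Prop :=
  ∀ (F : Type) [Field F] [Fintype F],
    (∀ m : Ideal F[X][X], m.IsMaximal → ∃ P : Prm F, C P.1 ∈ m) ∧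
    ∀ (P : Prm F) (f : F[X][X]), Squarefree (f.map (red P)) → ¬ BadAt P f

/-- Pb (local count).  `f ∈ m²`, `m = (P, φ)`, `φ` monic of degree `j ≥ 1` (a fixed lift of the irreducible
`φ̄`), `m² = (P², P φ, φ²)`; `f̄ = φ̄² ā`, so `2 j ≤ N`.  Let `a₀` be the monic lift of `ā` (coefficients of
degree `< deg P`), `f - φ² a₀ = P h`, `deg h < N`.  `P h ∈ m²`: `P h = P² c + P φ b + φ² a`, so `P ∣ a`
(`φ̄ ≠ 0`), `a = P a'`, `h = P c + φ (b + φ a')`: `φ̄ ∣ h̄`, `h̄ = φ̄ b̄`, `deg b̄ < N - j`.  So for given `φ̄` the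
residue `f mod P²` is determined by `(ā, b̄)`: at most `Q ^ (N - 2 j) Q ^ (N - j)` residues, total
`∑_(1 ≤ j ≤ N/2) Q ^ j Q ^ (2 N - 3 j) ≤ Q ^ (2 N) / (Q² - 1)`. -/
def StPb : Prop :=
  ∀ (F : Type) [Field F] [Fintype F] (N : ℕ), 1 ≤ N → ∀ P : Prm F,
    {y : Fin N → AdjoinRoot (P.1 ^ 2) | ∃ f : F[X][X], f.Monic ∧ f.natDegree = N ∧
      (∀ j : Fin N, AdjoinRoot.mk (P.1 ^ 2) (f.coeff j) = y j) ∧ BadAt P f}.ncard *
        (Nat.card (kp P) ^ 2 - 1) ≤ Nat.card (kp P) ^ (2 * N)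

/-- Pc (counting with conditions modulo coprime polynomials).  For given top coefficients
`a_j = (f.coeff j).coeff ((N - j) d)` (`j < N`), which are the coefficients of the irreducible polynomial of
degree `N`, write `f.coeff j = a_j t ^ ((N - j) d) + x_j`, `deg x_j < (N - j) d`, and apply `StEq` to `x`,
`n_j = (N - j) d ≥ d`, and the translates of the sets `A k`. -/
def StPc : Prop :=
  ∀ (F : Type) [Field F] [Fintype F] (N d : ℕ), 1 ≤ N → 1 ≤ d → ∀ (κ : Type) (S : Finset κ)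
    (M : κ → F[X]) (A : ∀ k, Set (Fin N → AdjoinRoot (M k))), (∀ k ∈ S, (M k).Monic) →
    (∀ k ∈ S, ∀ l ∈ S, k ≠ l → IsCoprime (M k) (M l)) → (∑ k ∈ S, (M k).natDegree ≤ d) →
    {f : F[X][X] | f ∈ family F N d ∧ InfIrr d f ∧
      ∀ k ∈ S, (fun j : Fin N => AdjoinRoot.mk (M k) (f.coeff j)) ∈ A k}.ncard *
        Fintype.card F ^ (N * ∑ k ∈ S, (M k).natDegree) =
      (IrrN F N).ncard * Fintype.card F ^ (∑ j : Fin N, (N - (j : ℕ)) * d) *
        ∏ k ∈ S, (A k).ncard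

/-- Pd (main term).  Pc with `κ = Prm F`, `M_P = P`; `#(A/P) = q ^ deg P`;
`#family = q ^ (∑_j ((N - j) d + 1))` (StFam); monic polynomials over `k_P` of degree `N` correspond to
their coefficients `j < N`. -/
def StPd : Prop :=
  ∀ (F : Type) [Field F] [Fintype F] (g d : ℕ), 1 ≤ d →
    ∀ (S : Finset (Prm F)) (Cl : ∀ P : Prm F, Set (kp P)[X]),
    (∀ P ∈ S, ∀ h ∈ Cl P, h.Monic ∧ h.natDegree = 2 * g + 1) →
    (∑ P ∈ S, P.1.natDegree ≤ d) →
    ((WSet F (2 * g + 1) d S Cl).ncard : ℝ) =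
      ((IrrN F (2 * g + 1)).ncard : ℝ) / (Fintype.card F : ℝ) ^ (2 * g + 1) *
        (∏ P ∈ S, dens g Cl P) * (family F (2 * g + 1) d).ncard

/-- Pe (one more prime).  Pc with `κ = Option (Prm F)`, `M_(some P) = P` for `P ∈ S`,
`M_none = P₀²`, `A_none` = the set of Pb; `#(A/P₀²) = Q² `. -/
def StPe : Prop :=
  ∀ (F : Type) [Field F] [Fintype F] (g d : ℕ), 1 ≤ d →
    ∀ (S : Finset (Prm F)) (Cl : ∀ P : Prm F, Set (kp P)[X]),
    (∀ P ∈ S, ∀ h ∈ Cl P, h.Monic ∧ h.natDegree = 2 * g + 1) → ∀ P₀ : Prm F, P₀ ∉ S →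
    (∑ P ∈ S, P.1.natDegree + 2 * P₀.1.natDegree ≤ d) →
    ({f | f ∈ WSet F (2 * g + 1) d S Cl ∧ BadAt P₀ f}.ncard : ℝ) ≤
      ((IrrN F (2 * g + 1)).ncard : ℝ) / (Fintype.card F : ℝ) ^ (2 * g + 1) *
        (∏ P ∈ S, dens g Cl P) * (family F (2 * g + 1) d).ncard *
        (1 / ((Nat.card (kp P₀) : ℝ) ^ 2 - 1))

/-- Pf (sum over the primes).  `e #prm_e ≤ q ^ e` (`sum_prm`), `1/(Q² - 1) ≤ (4/3) Q⁻²`,
`∑_e (q ^ e / e) (4/3) q ^ (-2 e) ≤ (4/3) (1/2 + 1/8 + 1/12) = 17/18`. -/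
def StPf : Prop :=
  ∀ (F : Type) [Field F] [Fintype F] (Φ : Finset (Prm F)),
    ∑ P ∈ Φ, 1 / ((Nat.card (kp P) : ℝ) ^ 2 - 1) ≤ 17 / 18

/-- Pg (derivations).  `derivative` and `dt` are derivations: `(a b)' = a' b + a b' ∈ m` for `a, b ∈ m`. -/
def StPg : Prop :=
  ∀ (F : Type) [Field F] (m : Ideal F[X][X]) (f : F[X][X]), f ∈ m ^ 2 →
    f ∈ m ∧ derivative f ∈ m ∧ dt f ∈ m

/-- Ph (few constants).  The maximal ideals `m` containing `C P` and `u` correspond to irreducible factors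
of `ū ≠ 0` in `k_P[x]`: at most `deg ū ≤ n` of them.  For a given `m` there is at most one `H`:
`C (H₁ ^ p - H₂ ^ p) = C (H₁ - H₂) ^ p ∈ m` gives `H₁ - H₂ ∈ m ∩ A = (P)` and `deg (H₁ - H₂) < deg P`. -/
def StPh : Prop :=
  ∀ (F : Type) [Field F] [Fintype F] (p : ℕ) [Fact p.Prime] [CharP F p] (P : Prm F) (n : ℕ)
    (u h₀ : F[X][X]), u.map (red P) ≠ 0 → u.natDegree ≤ n →
    {H : F[X] | H.natDegree < P.1.natDegree ∧ ∃ m : Ideal F[X][X], m.IsMaximal ∧ C P.1 ∈ m ∧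
      u ∈ m ∧ h₀ + C (H ^ p) ∈ m}.Finite ∧
    {H : F[X] | H.natDegree < P.1.natDegree ∧ ∃ m : Ideal F[X][X], m.IsMaximal ∧ C P.1 ∈ m ∧
      u ∈ m ∧ h₀ + C (H ^ p) ∈ m}.ncard ≤ n

/-- Pi (few large primes).  The product of different primes dividing `r` divides `r`. -/
def StPi : Prop :=
  ∀ (F : Type) [Field F] [Fintype F] (r : F[X]) (a d : ℕ), 1 ≤ d → r ≠ 0 →
    r.natDegree ≤ a * d →
    {P : Prm F | d < 4 * P.1.natDegree ∧ P.1 ∣ r}.Finite ∧
    {P : Prm F | d < 4 * P.1.natDegree ∧ P.1 ∣ r}.ncard ≤ 4 * a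

/-- Pj (resultant).  `Polynomial.exists_mul_add_mul_eq_C_resultant`, `resultant_ne_zero` (over `K`),
`resultant_map_map`; the Sylvester matrix has size at most `2 n` and entries of degree `≤ B`.  If both
`u`, `w` are constant in `x`, one of them is not `0` and is `C r`. -/
def StPj : Prop :=
  ∀ (F : Type) [Field F] (n B : ℕ) (u w : F[X][X]), 1 ≤ n → u.natDegree ≤ n → w.natDegree ≤ n →
    (∀ i, (u.coeff i).natDegree ≤ B) → (∀ i, (w.coeff i).natDegree ≤ B) →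
    IsCoprime (fK u) (fK w) →
    ∃ (r : F[X]) (a b : F[X][X]), r ≠ 0 ∧ r.natDegree ≤ 2 * n * B ∧ a * u + b * w = C r

/-- Pk (few common factors).  If `fK u ≠ 0` and `fK (w + C (G ^ p))` are not coprime there is an
irreducible factor `π` of `fK u` (at most `n` of them up to units) dividing the second; for a given `π` at
most one `G`: `π ∣ C ((G₁ - G₂) ^ p)` and `π` is not constant. -/
def StPk : Prop :=
  ∀ (F : Type) [Field F] [Fintype F] (p : ℕ) [Fact p.Prime] [CharP F p] (n : ℕ) (u w : F[X][X]),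
    u ≠ 0 → u.natDegree ≤ n →
    {G : F[X] | ¬ IsCoprime (fK u) (fK (w + C (G ^ p)))}.Finite ∧
    {G : F[X] | ¬ IsCoprime (fK u) (fK (w + C (G ^ p)))}.ncard ≤ n

/-- Pl (one polynomial).  `u = derivative f` (`u.coeff 0 = f.coeff 1 ≠ 0`), `w_G = dt f + C (G ^ p)`; the
derivatives of `f_(G,H) = f + C (H ^ p + X G ^ p)` are `u` and `w_G` (`derivative (H ^ p) = 0`,
`derivative (X G ^ p) = G ^ p`).  `n ≤ d/4 < deg P`.  Bad `G`: (1) `u`, `w_G` not coprime over `K`: at most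
`N` (Pk); (2) for some `P` with `d < 4 deg P` both `ū = 0` and `w̄_G = 0`: then `P ∣ f.coeff 1`
(`≤ 4 (N-1)` primes, Pi) and `P ∣ derivative (f.coeff 0) + G ^ p`, which determines `G` modulo `P`, so `G`
(`deg G < n < deg P`): at most `4 N`.  For the other `G` the primes `P` in question divide the resultant
`r` (Pj with `B = N d`: `deg r ≤ 2 N · N d`; `C r ∈ m`, so `P ∣ r`): at most `8 N²` primes (Pi), and for each of
them at most `N` values of `H` (Ph with `u` or with `w_G`, whichever is not `0` modulo `P`).  Total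
`≤ (5 N + 8 N³) q ^ n`. -/
def StPl : Prop :=
  ∀ (F : Type) [Field F] [Fintype F] (p : ℕ) [Fact p.Prime] [CharP F p] (N : ℕ), 2 ≤ N →
    ∀ (d n : ℕ), 1 ≤ d → 1 ≤ n → 4 * p * n ≤ d → ∀ f ∈ family F N d, f.coeff 1 ≠ 0 →
    {GH : F[X] × F[X] | GH.1.degree < n ∧ GH.2.degree < n ∧
      ∃ P : Prm F, d < 4 * P.1.natDegree ∧
        BadAt P (f + C (GH.2 ^ p + X * GH.1 ^ p))}.ncard ≤
      (5 * N + 8 * N ^ 3) * Fintype.card F ^ n

/-- Pm (the tail).  Let `n = ⌊d / (4 p)⌋` and `B` the set on the left.  For every `(G, H)` of degree `< n` the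
translation `f ↦ f + C (H ^ p + X G ^ p)` is a bijection of the family (`deg (X G ^ p) ≤ p n ≤ N d`), so
`q ^ (2 n) #B = ∑_(f ∈ family) #{(G, H) : f + C (H ^ p + X G ^ p) ∈ B} ≤
 #family (5 N + 8 N³) q ^ n + #{f.coeff 1 = 0} q ^ (2 n)`, and
`#{f.coeff 1 = 0} q ^ ((N - 1) d + 1) ≤ #family`. -/
def StPm : Prop :=
  ∀ (F : Type) [Field F] [Fintype F] (N : ℕ), 2 ≤ N → ∀ ε : ℝ, 0 < ε → ∀ᶠ d : ℕ in atTop,
    ({f : F[X][X] | f ∈ family F N d ∧
      ∃ P : Prm F, d < 4 * P.1.natDegree ∧ BadAt P f}.ncard : ℝ) ≤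
      ε * (family F N d).ncard

/-- Pn (the sieve).  `c₀ = δ / 36`, `δ = #IrrN / q ^ N > 0` (existence of an irreducible polynomial of degree
`N` over a finite field).  If some `dens` is `0` there is nothing to do.
`GoodSet ⊇ WSet \ ⋃_(P ∉ S, 4 deg P ≤ d) {BadAt P} \ (tail)` (Pa; for `P ∈ S` squarefree).  With
`W = δ ∏ dens #family`: `#WSet = W` (Pd), the union has at most `(17/18) W` elements (Pe, Pf; needs
`∑_S deg P + d/2 ≤ d`), the tail at most `ε #family` with `ε = δ ∏ dens / 36` (Pm). -/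
def StPn : Prop :=
  StPa → StPd → StPe → StPf → StPm → StP

end Pool.Agent.Helper3.HY
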