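import Pool.Agent.Helper3.HY.Base
import Pool.Agent.Helper3.HY.StPP
import Pool.Agent.Helper3.HY.M_Fam

/-! # HY module Pn: the sieve -/

set_option autoImplicit false

namespace Pool.Agent.Helper3.HY

open Polynomial Finset Filter Topology Matrix
open Pool.Agent.Helper54.PT (Prm prm finite_natDegree_le)

namespace Pn

theorem exists_irr (k : Type) [Field k] [Finite k] (n : ℕ) (hn : 1 ≤ n) :
    ∃ p : k[X], p.Monic ∧ Irreducible p ∧ p.natDegree = n := by
  obtain ⟨q, hq⟩ := CharP.exists k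
  have hqp : Fact q.Prime := ⟨CharP.char_is_prime k q⟩
  have : NeZero n := ⟨by omega⟩
  have hfin : Module.finrank k (FiniteField.Extension k q n) = n :=
    FiniteField.finrank_extension k q n
  obtain ⟨α, hα⟩ := Field.exists_primitive_element_of_finite_bot k (FiniteField.Extension k q n)
  have hint : IsIntegral k α := Algebra.IsIntegral.isIntegral α
  refine ⟨minpoly k α, minpoly.monic hint, minpoly.irreducible hint, ?_⟩
  rw [(Field.primitive_element_iff_minpoly_natDegree_eq k α).1 hα, hfin]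

theorem finite_primes (F : Type) [Field F] [Finite F] (n : ℕ) :
    {P : Prm F | P.1.natDegree ≤ n}.Finite :=
  Set.Finite.preimage (f := fun P : Prm F => P.1) Subtype.val_injective.injOn
    (finite_natDegree_le F n)

theorem ncard_biUnion_le {α ι : Type*} (s : Finset ι) (A : ι → Set α) :
    (⋃ i ∈ s, A i).ncard ≤ ∑ i ∈ s, (A i).ncard := by
  classical
  induction s using Finset.induction_on with
  | empty => simp
  | insert a s ha ih =>
    rw [Finset.set_biUnion_insert, sum_insert ha]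
    exact (Set.ncard_union_le _ _).trans (Nat.add_le_add_left ih _)

/-- The covering. -/
theorem cover {F : Type} [Field F] [Fintype F] (hPa : StPa) (g d : ℕ) (S : Finset (Prm F))
    (Cl : ∀ P : Prm F, Set (kp P)[X])
    (hCl : ∀ P ∈ S, ∀ h ∈ Cl P, h.Monic ∧ h.natDegree = 2 * g + 1 ∧ Squarefree h)
    (Φ : Finset (Prm F)) (hΦ : ∀ P : Prm F, P ∉ S → 4 * P.1.natDegree ≤ d → P ∈ Φ) :
    WSet F (2 * g + 1) d S Cl ⊆ (GoodSet F g d S Cl ∪
      ⋃ P ∈ Φ, {f | f ∈ WSet F (2 * g + 1) d S Cl ∧ BadAt P f}) ∪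
      {f : F[X][X] | f ∈ family F (2 * g + 1) d ∧
        ∃ P : Prm F, d < 4 * P.1.natDegree ∧ BadAt P f} := by
  intro f hf
  by_cases hs : Smooth f
  · exact Or.inl (Or.inl ⟨hf.1, hf.2.1, hf.2.2, hs⟩)
  · unfold Smooth at hs
    push Not at hs
    obtain ⟨m, hm, hfm⟩ := hs
    obtain ⟨P, hP⟩ := (hPa F).1 m hm
    have hbad : BadAt P f := ⟨m, hm, hP, hfm⟩
    by_cases hPS : P ∈ S
    · exact absurd hbad ((hPa F).2 P f (hCl P hPS _ (hf.2.2 P hPS)).2.2)
    · by_cases hPd : 4 * P.1.natDegree ≤ d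
      · refine Or.inl (Or.inr ?_)
        simp only [Set.mem_iUnion]
        exact ⟨P, hΦ P hPS hPd, hf, hbad⟩
      · exact Or.inr ⟨hf.1, P, not_le.1 hPd, hbad⟩

end Pn

open Pn in
theorem hPn : StPn := by
  intro hPa hPd hPe hPf hPm F _ _ g hg
  have hδpos : 0 < ((IrrN F (2 * g + 1)).ncard : ℝ) / (Fintype.card F : ℝ) ^ (2 * g + 1) := by
    have hfin : (IrrN F (2 * g + 1)).Finite :=
      (finite_natDegree_le F (2 * g + 1)).subset fun h hh => hh.2.2.le
    obtain ⟨p, h1, h2, h3⟩ := exists_irr F (2 * g + 1) (by omega)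
    have h4 : 0 < (IrrN F (2 * g + 1)).ncard := (Set.ncard_pos hfin).2 ⟨p, h1, h2, h3⟩
    have h5 : 0 < Fintype.card F := Fintype.card_pos
    positivity
  have hPd' := hPd F g
  have hPe' := hPe F g
  generalize ((IrrN F (2 * g + 1)).ncard : ℝ) / (Fintype.card F : ℝ) ^ (2 * g + 1) = δ
    at hδpos hPd' hPe'
  refine ⟨δ / 36, by positivity, ?_⟩
  intro S Cl hCl
  have hCl' : ∀ P ∈ S, ∀ h ∈ Cl P, h.Monic ∧ h.natDegree = 2 * g + 1 :=
    fun P hP h hh => ⟨(hCl P hP h hh).1, (hCl P hP h hh).2.1⟩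
  have hD0 : 0 ≤ ∏ P ∈ S, dens g Cl P := prod_nonneg fun P _ => by unfold dens; positivity
  rcases hD0.eq_or_lt with h0 | hDpos
  · refine Eventually.of_forall fun d => ?_
    rw [← h0]
    simp
  have hε : 0 < δ * (∏ P ∈ S, dens g Cl P) / 36 := by positivity
  filter_upwards [hPm F (2 * g + 1) (by omega) _ hε, eventually_ge_atTop 1,
    eventually_ge_atTop (2 * ∑ P ∈ S, P.1.natDegree)] with d hd hd1 hd2
  have hW := hPd' d hd1 S Cl hCl' (by omega)
  have hE : ∀ P₀ : Prm F, P₀ ∉ S → 4 * P₀.1.natDegree ≤ d →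
      ({f | f ∈ WSet F (2 * g + 1) d S Cl ∧ BadAt P₀ f}.ncard : ℝ) ≤
        δ * (∏ P ∈ S, dens g Cl P) * (family F (2 * g + 1) d).ncard *
          (1 / ((Nat.card (kp P₀) : ℝ) ^ 2 - 1)) :=
    fun P₀ h1 h2 => hPe' d hd1 S Cl hCl' P₀ h1 (by omega)
  generalize (∏ P ∈ S, dens g Cl P) = D at hD0 hDpos hε hd hW hE ⊢
  set Φ : Finset (Prm F) := (finite_primes F d).toFinset.filter
    (fun P => P ∉ S ∧ 4 * P.1.natDegree ≤ d) with hΦ
  have hΦmem : ∀ P : Prm F, P ∈ Φ ↔ P ∉ S ∧ 4 * P.1.natDegree ≤ d := by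
    intro P
    rw [hΦ, mem_filter, Set.Finite.mem_toFinset]
    constructor
    · exact fun h => h.2
    · intro h
      refine ⟨?_, h⟩
      change P.1.natDegree ≤ d
      omega
  have hcov := cover hPa g d S Cl hCl Φ fun P h1 h2 => (hΦmem P).2 ⟨h1, h2⟩
  have hfam : (family F (2 * g + 1) d).Finite := (hFam F (2 * g + 1) d).1
  have hfin : ((GoodSet F g d S Cl ∪
      ⋃ P ∈ Φ, {f | f ∈ WSet F (2 * g + 1) d S Cl ∧ BadAt P f}) ∪
      {f : F[X][X] | f ∈ family F (2 * g + 1) d ∧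
        ∃ P : Prm F, d < 4 * P.1.natDegree ∧ BadAt P f}).Finite := by
    refine hfam.subset ?_
    rintro f ((hf | hf) | hf)
    · exact hf.1
    · simp only [Set.mem_iUnion] at hf
      obtain ⟨P, _, hf, _⟩ := hf
      exact hf.1
    · exact hf.1
  have h1 := Set.ncard_le_ncard hcov hfin
  have h2 := h1.trans (Set.ncard_union_le _ _)
  have h3 := h2.trans (Nat.add_le_add_right (Set.ncard_union_le _ _) _)
  have h4 := h3.trans (Nat.add_le_add_right (Nat.add_le_add_left (ncard_biUnion_le Φ _) _) _)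
  have h5 : ((WSet F (2 * g + 1) d S Cl).ncard : ℝ) ≤ (GoodSet F g d S Cl).ncard +
      ∑ P ∈ Φ, ({f | f ∈ WSet F (2 * g + 1) d S Cl ∧ BadAt P f}.ncard : ℝ) +
      ({f : F[X][X] | f ∈ family F (2 * g + 1) d ∧
        ∃ P : Prm F, d < 4 * P.1.natDegree ∧ BadAt P f}.ncard : ℝ) := by
    exact_mod_cast h4
  have h6 : ∑ P ∈ Φ, ({f | f ∈ WSet F (2 * g + 1) d S Cl ∧ BadAt P f}.ncard : ℝ) ≤
      δ * D * (family F (2 * g + 1) d).ncard * (17 / 18) := by
    calc ∑ P ∈ Φ, ({f | f ∈ WSet F (2 * g + 1) d S Cl ∧ BadAt P f}.ncard : ℝ)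
        ≤ ∑ P ∈ Φ, δ * D * (family F (2 * g + 1) d).ncard *
          (1 / ((Nat.card (kp P) : ℝ) ^ 2 - 1)) :=
          sum_le_sum fun P hP => hE P ((hΦmem P).1 hP).1 ((hΦmem P).1 hP).2
      _ = δ * D * (family F (2 * g + 1) d).ncard *
          ∑ P ∈ Φ, (1 / ((Nat.card (kp P) : ℝ) ^ 2 - 1)) := by rw [mul_sum]
      _ ≤ δ * D * (family F (2 * g + 1) d).ncard * (17 / 18) :=
          mul_le_mul_of_nonneg_left (hPf F Φ) (by positivity)
  rw [hW] at h5
  nlinarith [h5, h6, hd]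

end Pool.Agent.Helper3.HY
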