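import Pool.Agent.Helper3.HY.StC

/-!
# HY: counting matrices (parts of `StU`)

`N = 2 g + 1`, `G = Gm` antidiagonal, `q = #F`.
-/

set_option autoImplicit false

namespace Pool.Agent.Helper3.HY

open Polynomial Finset Filter Topology Matrix
open Pool.Agent.Helper54.PT (Prm prm)

/-- The strictly upper triangular matrices of the type `m`. -/
def Nset (F : Type) [Field F] (g : ℕ) (m : Fin g → ℕ) : Set (Matrix (Ix g) (Ix g) F[X]) :=
  {C | ∀ i j, C i j = 0 ∨ (nu g m i < nu g m j ∧ ((C i j).natDegree : ℤ) ≤ nu g m j - nu g m i)}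

/-- The part of the bad set which belongs to the type `m`. -/
def BadM (F : Type) [Field F] (g d : ℕ) (m : Fin g → ℕ) (S : Finset (Prm F))
    (Cl : ∀ P : Prm F, Set (kp P)[X]) : Set F[X][X] :=
  {f | Irreducible (fK f) ∧ ∃ b ∈ VGood g d m S Cl, chi b = f}

/-- Ua1 (nilpotency).  `Nset` is closed under multiplication (`(C C')_ij = ∑ C_ik C'_kj`, a nonzero term
has `ν_i < ν_k < ν_j`, degrees add).  A nonzero entry of a product of `n` elements gives a chain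
`ν_i < ν_k < ..` of `n + 1` different indices, so `C ^ (2 g + 1) = 0`; `E = ∑_(k ≤ 2 g) (-C) ^ k`,
`E - 1 ∈ Nset`. -/
def StUa1 : Prop :=
  ∀ (F : Type) [Field F] (g : ℕ) (m : Fin g → ℕ), ∀ C ∈ Nset F g m,
    ∃ E : Matrix (Ix g) (Ix g) F[X], (1 + C) * E = 1 ∧ E * (1 + C) = 1 ∧ C * E ∈ Nset F g m

/-- Ua2 (Cayley transform).  `Cᵀ G = - G C`.  With `E = (1 + C)⁻¹` put `h = (1 - C) E = 1 - 2 C E`.
`hᵀ G h = Eᵀ (1 - C)ᵀ G (1 - C) E = Eᵀ G (1 + C) (1 - C) E = Eᵀ G (1 - C) (1 + C) E = Eᵀ G (1 - C)` and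
`G = Eᵀ (1 + C)ᵀ G = Eᵀ G (1 - C)`.  `h - 1 = - 2 C E ∈ Nset`.  Injective: `C E = C' E'` gives
`E = 1 - C E = E'` and `1 + C = 1 + C'`. -/
def StUa2 : Prop :=
  ∀ (F : Type) [Field F], (2 : F) ≠ 0 → ∀ (g : ℕ) (m : Fin g → ℕ),
    ∃ φ : Matrix (Ix g) (Ix g) F[X] → Matrix (Ix g) (Ix g) F[X],
      (∀ C ∈ Nset F g m, Cᵀ * Gm F[X] g = -(Gm F[X] g * C) → φ C ∈ Ugp F g m) ∧
      ∀ C ∈ Nset F g m, ∀ C' ∈ Nset F g m, φ C = φ C' → C = C'

/-- Ub (the exponent).  For `i < j` with `i + j ≤ 2 g` we have `j ≤ rev i`, so `ν_j ≤ - ν_i` and the term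
is `0`; for `i < j`, `i + j > 2 g` it is `ν_i + ν_j ≥ 0`.  For fixed `j > g` the index `i` runs over
`2 g - j < i < j`, an interval symmetric about `g`, so `∑_i ν_i = 0` and the sum is `(2 j - 2 g - 1) ν_j`; with
`j = 2 g - a`, `ν_j = m_a`: `(2 g - 1 - 2 a) m_a`. -/
def StUb : Prop :=
  ∀ (g : ℕ) (m : Fin g → ℕ), Antitone m →
    rho2 g m = ∑ p : Ix g × Ix g, if p.1 < p.2 then (nu g m p.1 + nu g m p.2).toNat else 0

/-- Ua (many unipotent isometries).  For a family of polynomials `p_ij` (`i < j`) with `p_ij` of degree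
`< (ν_i + ν_j)_+` (as `degree p_ij < (ν_i + ν_j).toNat`) let `c` be the antisymmetric matrix with
`c_ij = p_ij` for `i < j`, and `C = - G c`, `C_ij = - c_(rev i, j)`; `ν_(rev i) = - ν_i`, so `C ∈ Nset`;
`Cᵀ G = - cᵀ Gᵀ G = c = - G C` (`G² = 1`, `cᵀ = -c`).  The map is injective and there are
`∏_(i<j) q ^ ((ν_i + ν_j)_+) = q ^ rho2` families (Ub); apply Ua2. -/
def StUa : Prop :=
  ∀ (F : Type) [Field F] [Fintype F], (2 : F) ≠ 0 → ∀ (g : ℕ) (m : Fin g → ℕ), Antitone m →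
    ∃ s : Finset (Matrix (Ix g) (Ix g) F[X]), (∀ h ∈ s, h ∈ Ugp F g m) ∧
      Fintype.card F ^ rho2 g m ≤ s.card

/-- Uc (cusp inequality).  Let `D = d + 1`, `m_i = - ν_i` for `0 ≤ i ≤ 2 g` (so `m_g = 0`,
`m_(2g-i) = - m_i`).  `exc = ∑_(i≤j) (m_i + m_j - D)_+`; only `j < 2 g - i` contributes, so
`exc = ∑_(i<g) [(2 m_i - D)_+ + ∑_(j=i+1)^(2g-1-i) (m_i + m_j - D)_+]`, and
`rho2 = ∑_(i<g) (2g-1-2i) m_i = ∑_(i<g) ∑_(j=i+1)^(2g-1-i) (m_i + m_j)` (the `m_j` cancel).  With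
`x - (x - D)_+ = min(D, x)` it is enough that, for `i < g`, `S_i = ∑_(j=i+1)^(2g-1-i) min(D, m_i + m_j)
= min(D, m_i) + ∑_(j=i+1)^(g-1) [min(D, m_i + m_j) + min(D, m_i - m_j)]` satisfies
`(2 m_i - D)_+ + min(⌊D/2⌋, m_i) ≤ S_i`.  If `2 m_i ≤ D`: `S_i ≥ min(D, m_i) = m_i`.  If `D < 2 m_i`, `m_i < D`:
then `i < g - 1` (as `2 m_(g-1) ≤ d`) and `S_i ≥ m_i + min(D, m_i + m_(i+1)) ≥ 2 m_i ≥ (2 m_i - D) + D/2`.
If `m_i ≥ D`: `∑_j min(D, m_i - m_j) ≥ m_i - m_(g-1)` (induction: each term is at least the step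
`m_(j-1) - m_j ≤ d`), the `g - i` other terms are `D`, and `m_i ≤ (g-1-i) d + m_(g-1)`, so
`S_i ≥ m_i - m_(g-1) + (g-i) D ≥ m_i - m_(g-1) + m_i - m_(g-1) + d ≥ 2 m_i`.  (For `i > 0` drop the
term `min(⌊D/2⌋, m_i)`.) -/
def StUc : Prop :=
  ∀ (g d : ℕ) (m : Fin g → ℕ), Adm g d m → ∀ i₀ : Fin g, (i₀ : ℕ) = 0 →
    exc g d m + min ((d + 1) / 2) (m i₀) ≤ rho2 g m

/-- Ud (stability).  `(hᵀ b h)_ij = ∑ h_ki b_kl h_lj` has degree
`≤ (ν_i - ν_k) + (d + ν_k + ν_l) + (ν_j - ν_l)`.  From `hᵀ G h = G`, `G² = 1`: `h G hᵀ = G`, so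
`h G = G (hᵀ)⁻¹` and `hᵀ b h G = hᵀ (b G) (hᵀ)⁻¹` (`Matrix.charpoly_units_conj` or
`charpoly_mul_comm`).  Locally replace `w` by `w'_j = ∑_i h̄_ij w_i`. -/
def StUd : Prop :=
  ∀ (F : Type) [Field F] (g d : ℕ) (m : Fin g → ℕ) (S : Finset (Prm F))
    (Cl : ∀ P : Prm F, Set (kp P)[X]), ∀ b ∈ VGood g d m S Cl, ∀ h ∈ Ugp F g m,
    hᵀ * b * h ∈ VGood g d m S Cl ∧ chi (hᵀ * b * h) = chi b

/-- Ue1 (centralizer).  `v ≠ 0`: `v, X v, .., X^(n-1) v` is a basis (the minimal polynomial of `X` is the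
irreducible polynomial of degree `n`, and `p(X)` is invertible for `p` prime to it), so `Y v = p(X) v`
for some `p`, and `Y X^i v = X^i Y v = p(X) X^i v`. -/
def StUe1 : Prop :=
  ∀ (K : Type) [Field K] (n : ℕ) (X Y : Matrix (Fin n) (Fin n) K), Irreducible X.charpoly →
    X * Y = Y * X → ∃ p : K[X], Y = Polynomial.aeval X p

/-- Ue (free orbits).  `h = h1 h2⁻¹` (over `K`; `det h_i = 1`).  Then `hᵀ b h = b`, `hᵀ G h = G`; with
`X = G b` (`b = G X`): `hᵀ G = G h⁻¹`, so `X h = h X`; `charpoly X = charpoly (b G)` is irreducible over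
`K`; Ue1: `h = p(X)`; `Xᵀ G = b G G = b = G X`, so `hᵀ G = G h` and `G h² = G`, `h² = 1`.  `(h - 1)(h + 1) = 0`
in the field `K[X]` (`p ^ 2 - 1` is divisible by the irreducible `charpoly X`, so one of `p - 1`, `p + 1` is):
`h1 = ± h2`; compare the diagonal entries (`1`). -/
def StUe : Prop :=
  ∀ (F : Type) [Field F], (2 : F) ≠ 0 → ∀ (g : ℕ), 1 ≤ g → ∀ (m : Fin g → ℕ)
    (b h₁ h₂ : Matrix (Ix g) (Ix g) F[X]), b.IsSymm → Irreducible (fK (chi b)) →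
    h₁ ∈ Ugp F g m → h₂ ∈ Ugp F g m → h₁ᵀ * b * h₁ = h₂ᵀ * b * h₂ → h₁ = h₂

/-- Uf (number of matrices).  `b` is determined by the entries with `i ≤ j`, the number of polynomials of
degree `≤ n` (`n ∈ ℤ`) and `0` is `q ^ (n+1)_+`; `x_+ = x + (-x)_+` and `∑_(i≤j) (ν_i + ν_j) = (N+1) ∑ ν_i = 0`,
and the number of pairs is `(g + 1) (2 g + 1)`. -/
def StUf : Prop :=
  ∀ (F : Type) [Field F] [Fintype F] (g d : ℕ) (m : Fin g → ℕ), (Vset F g d m).Finite ∧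
    (Vset F g d m).ncard = Fintype.card F ^ ((d + 1) * ((g + 1) * (2 * g + 1)) + exc g d m)

/-- Equidistribution modulo coprime polynomials.  The reduction of the polynomials of degree `< n`
modulo `∏ M_k` is surjective with fibres of size `q ^ (n - deg ∏ M_k)` (division with remainder), and the
Chinese remainder theorem. -/
def StEq : Prop :=
  ∀ (F : Type) [Field F] [Fintype F] (ι κ : Type) [Fintype ι] (S : Finset κ) (M : κ → F[X])
    (n : ι → ℕ) (A : ∀ k, Set (ι → AdjoinRoot (M k))), (∀ k ∈ S, (M k).Monic) →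
    (∀ k ∈ S, ∀ l ∈ S, k ≠ l → IsCoprime (M k) (M l)) →
    (∀ i, ∑ k ∈ S, (M k).natDegree ≤ n i) →
    {x : ι → F[X] | (∀ i, (x i).degree < n i) ∧
      ∀ k ∈ S, (fun i => AdjoinRoot.mk (M k) (x i)) ∈ A k}.ncard *
        Fintype.card F ^ (Fintype.card ι * ∑ k ∈ S, (M k).natDegree) =
      Fintype.card F ^ (∑ i, n i) * ∏ k ∈ S, (A k).ncard

/-- Uh (equidistribution of the matrices).  `StEq` with `ι = {(i, j) : i ≤ j}`, `κ = Prm F`, `M_P = P`,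
`n_ij = d + 1 + ν_i + ν_j` (`≥ d + 1 - 2 m_0 ≥ ∑ deg P`), `A_P` = the upper triangles of the matrices of
`LocGood` (which are symmetric), and `∑_(i≤j) n_ij = (d+1) (g+1) (2g+1)`. -/
def StUh : Prop :=
  ∀ (F : Type) [Field F] [Fintype F] (g d : ℕ), 1 ≤ g → ∀ (m : Fin g → ℕ), Antitone m →
    ∀ (S : Finset (Prm F)) (Cl : ∀ P : Prm F, Set (kp P)[X]),
    (∀ i : Fin g, 2 * m i + ∑ P ∈ S, P.1.natDegree ≤ d + 1) →
    (VGood g d m S Cl).ncard * ∏ P ∈ S, Nat.card (kp P) ^ ((g + 1) * (2 * g + 1)) =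
      Fintype.card F ^ ((d + 1) * ((g + 1) * (2 * g + 1))) *
        ∏ P ∈ S, (LocGood (kp P) g (Cl P)).ncard

/-- Ug1 (hyperbolic pair).  An isotropic vector `u ≠ 0` exists: take an orthogonal basis
(`LinearMap.BilinForm.exists_orthogonal_basis`) and `FiniteField.exists_root_sum_quadratic` for
`δ1 x² + δ2 y² + δ3 = 0`; choose `v` with `B u v = 1` and replace it by `v - (B v v / 2) u`. -/
def StUg1 : Prop :=
  ∀ (k : Type) [Field k] [Fintype k], (2 : k) ≠ 0 → ∀ (W : Type) [AddCommGroup W] [Module k W]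
    [FiniteDimensional k W] (B : LinearMap.BilinForm k W), (∀ x y, B x y = B y x) →
    (∀ x, (∀ y, B x y = 0) → x = 0) → 3 ≤ Module.finrank k W →
    ∃ u v : W, B u u = 0 ∧ B v v = 0 ∧ B u v = 1

/-- Ug2 (number of isotropic vectors).  Induction on `g`; `g = 0`: only `0`.  Step: `u, v` from Ug1,
`W = ⟨u, v⟩ ⊕ W'`, `W'` the orthogonal complement (nondegenerate of dimension `2 g - 1`);
`x = a u + b v + w'`, `B x x = 2 a b + B w' w'`; for `w'` isotropic there are `2 Q - 1` pairs `(a, b)`, for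
the others `Q - 1`; `(2 Q - 1) n' + (Q - 1) (Q ^ (2 g - 1) - n') = Q ^ (2 g)` for `n' = Q ^ (2 g - 2)`. -/
def StUg2 : Prop :=
  ∀ (k : Type) [Field k] [Fintype k], (2 : k) ≠ 0 → ∀ (g : ℕ) (W : Type) [AddCommGroup W]
    [Module k W] [FiniteDimensional k W] (B : LinearMap.BilinForm k W), (∀ x y, B x y = B y x) →
    (∀ x, (∀ y, B x y = 0) → x = 0) → Module.finrank k W = 2 * g + 1 →
    {x : W | B x x = 0}.ncard = Fintype.card k ^ (2 * g)

/-- Ug (number of standard bases).  Induction on `g`.  `g = 0`: `B w w = 1` has at most two solutions in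
a space of dimension 1.  Step: `w_0` is isotropic: at most `Q ^ (2 g)` choices (Ug2); given `w_0 ≠ 0`, the
vector `w_(2g)` lies in the affine hyperplane `B w_0 x = 1` (`Q ^ (2 g)` elements) and is isotropic; on
each line `x + k w_0` there is exactly one isotropic vector: `Q ^ (2 g - 1)` choices; the other vectors
`w_1, .., w_(2g-1)` form a standard basis of the orthogonal complement of `⟨w_0, w_(2g)⟩`.
`2 g + (2 g - 1) + (g - 1) (2 g - 1) = g (2 g + 1)`. -/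
def StUg : Prop :=
  ∀ (k : Type) [Field k] [Fintype k], (2 : k) ≠ 0 → ∀ (g : ℕ) (W : Type) [AddCommGroup W]
    [Module k W] [FiniteDimensional k W] (B : LinearMap.BilinForm k W), (∀ x y, B x y = B y x) →
    (∀ x, (∀ y, B x y = 0) → x = 0) → Module.finrank k W = 2 * g + 1 →
    {w : Ix g → W | ∀ i j, B (w i) (w j) = Gm k g i j}.ncard ≤
      2 * Fintype.card k ^ (g * (2 * g + 1))

/-- Ui1 (the form `tau (x y)` is nondegenerate).  `tau (θ^j z)`, `j = 0, 1, ..` gives successively that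
the coordinates `z_(N-1), z_(N-2), ..` vanish. -/
def StUi1 : Prop :=
  ∀ (k : Type) [Field k] (h : k[X]) (hm : h.Monic), 1 ≤ h.natDegree → ∀ z : AdjoinRoot h,
    (∀ y : AdjoinRoot h, tau hm (z * y) = 0) → z = 0

/-- Ui2 (square roots of 1).  `IType`: `± 1`.  `TType`: `k[x]/((x-a) p) = k × k[x]/p` (coprime since
`deg p = 2 g ≥ 2`), `(± 1, ± 1)`. -/
def StUi2 : Prop :=
  ∀ (k : Type) [Field k], (2 : k) ≠ 0 → ∀ (g : ℕ), 1 ≤ g → ∀ h : k[X],
    (h ∈ IType k g → ∃ s : Finset (AdjoinRoot h), s.card = 2 ∧ ∀ β ∈ s, β ^ 2 = 1) ∧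
    (h ∈ TType k g → ∃ s : Finset (AdjoinRoot h), s.card = 4 ∧ ∀ β ∈ s, β ^ 2 = 1)

/-- Ui3 (matrices from a given polynomial).  The map `w ↦ b` from the set of tuples `w` with Gram matrix `G`
(at most `2 Q ^ (g (2g+1))`, Ug for the form `tau (x y)`) has fibres of size at least `#s`: `w ↦ β w`, and
`β w = β' w` implies `β = β'` since `w` is a basis (Gram matrix invertible). -/
def StUi3 : Prop :=
  ∀ (k : Type) [Field k] [Fintype k], (2 : k) ≠ 0 → ∀ (g : ℕ) (h : k[X]) (hm : h.Monic),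
    h.natDegree = 2 * g + 1 → ∀ s : Finset (AdjoinRoot h), (∀ β ∈ s, β ^ 2 = 1) →
    {b : Matrix (Ix g) (Ix g) k | ∃ w : Ix g → AdjoinRoot h,
      (∀ i j, tau hm (w i * w j) = Gm k g i j) ∧
      ∀ i j, tau hm (AdjoinRoot.root h * w i * w j) = b i j}.ncard * s.card ≤
        2 * Fintype.card k ^ (g * (2 * g + 1))

/-- Ui (the local count).  Union over `h` in the class (`IType`, `TType` are finite), Ui2, Ui3. -/
def StUi : Prop :=
  ∀ (k : Type) [Field k] [Fintype k], (2 : k) ≠ 0 → ∀ (g : ℕ), 1 ≤ g →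
    (LocGood k g (IType k g)).ncard ≤
      (IType k g).ncard * Fintype.card k ^ (g * (2 * g + 1)) ∧
    2 * (LocGood k g (TType k g)).ncard ≤
      (TType k g).ncard * Fintype.card k ^ (g * (2 * g + 1))

/-- Uj (orbits).  Choose for every `f ∈ BadM` a matrix `b_f ∈ VGood` with `chi b_f = f`; the map
`(f, h) ↦ hᵀ b_f h` from `BadM × s` (`s` from Ua) to `VGood` is injective by Ud and Ue.  Finite: `VGood` is
contained in `Vset` (Uf). -/
def StUj : Prop :=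
  ∀ (F : Type) [Field F] [Fintype F], (2 : F) ≠ 0 → ∀ (g d : ℕ), 1 ≤ g → ∀ (m : Fin g → ℕ),
    Antitone m → ∀ (S : Finset (Prm F)) (Cl : ∀ P : Prm F, Set (kp P)[X]),
    (BadM F g d m S Cl).Finite ∧
      (BadM F g d m S Cl).ncard * Fintype.card F ^ rho2 g m ≤ (VGood g d m S Cl).ncard

/-- Uk (one type in the main region).  Uj, Uh, Ui: `#LocGood_P / Q_P ^ ((g+1)(2g+1)) ≤ dens_P` for
`P ∈ T'` and `≤ dens_P / 2` for `P ∈ T`. -/
def StUk : Prop :=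
  ∀ (F : Type) [Field F] [Fintype F], (2 : F) ≠ 0 → ∀ (g d : ℕ), 1 ≤ g → ∀ (m : Fin g → ℕ),
    Antitone m → ∀ T T' : Finset (Prm F), Disjoint T T' →
    (∀ i : Fin g, 2 * m i + ∑ P ∈ T ∪ T', P.1.natDegree ≤ d + 1) →
    ((BadM F g d m (T ∪ T') (Cls g T)).ncard : ℝ) * (Fintype.card F : ℝ) ^ rho2 g m ≤
      (Fintype.card F : ℝ) ^ ((d + 1) * ((g + 1) * (2 * g + 1))) *
        ((1 / 2) ^ T.card * ∏ P ∈ T ∪ T', dens g (Cls g T) P)

/-- Ul (one type in general).  Uj, Uf (`VGood ⊆ Vset`) and Uc. -/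
def StUl : Prop :=
  ∀ (F : Type) [Field F] [Fintype F], (2 : F) ≠ 0 → ∀ (g d : ℕ), 1 ≤ g → ∀ (m : Fin g → ℕ),
    Adm g d m → ∀ (S : Finset (Prm F)) (Cl : ∀ P : Prm F, Set (kp P)[X]),
    ∀ i₀ : Fin g, (i₀ : ℕ) = 0 →
    ((BadM F g d m S Cl).ncard : ℝ) * (Fintype.card F : ℝ) ^ min ((d + 1) / 2) (m i₀) ≤
      (Fintype.card F : ℝ) ^ ((d + 1) * ((g + 1) * (2 * g + 1)))

/-- Um (summation).  `BadSet = ⋃_(m admissible) BadM`; admissible `m` have `m_i ≤ g d`, so there are at most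
`(g d + 1) ^ g` of them.  Put `Σ = ∑_(P ∈ T ∪ T') deg P`, `W = q ^ ((d+1)(g+1)(2g+1))`;
`#family = q ^ (d (2g+1)(g+1) + 2g+1) = W q ^ (-g(2g+1))`.  The `m` with `2 m_0 + Σ ≤ d + 1` (main): Uk,
`rho2 ≥ ∑ m_i`, `∑_m q ^ (-∑ m_i) ≤ (∑_k q ^ (-k)) ^ g ≤ 2 ^ g`: total
`≤ 2 ^ g q ^ (g(2g+1)) (1/2) ^ |T| ∏ dens #family`.  The other `m`: Ul, and
`min ((d+1)/2) m_0 ≥ (d + 1 - Σ) / 2`: total `≤ (g d + 1) ^ g q ^ (g(2g+1)) q ^ (-(d+1-Σ)/2) #family ≤ ε #family` for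
large `d`. -/
def StUm : Prop :=
  StUj → StUk → StUl → StFam → StU

end Pool.Agent.Helper3.HY
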