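import Pool.Agent.Helper3.HY.Base
import Pool.Agent.Helper3.HY.StUU

/-! # HY: module Ui (the local count) -/

set_option autoImplicit false

namespace Pool.Agent.Helper3.HY

namespace MUi

open Polynomial Finset Matrix

/-- the matrices which belong to one polynomial -/
def Am (k : Type) [Field k] (g : ℕ) (h : k[X]) : Set (Matrix (Ix g) (Ix g) k) :=
  {b | ∃ hm : h.Monic, h.natDegree = 2 * g + 1 ∧ ∃ w : Ix g → AdjoinRoot h,
    (∀ i j, tau hm (w i * w j) = Gm k g i j) ∧
      ∀ i j, tau hm (AdjoinRoot.root h * w i * w j) = b i j}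

lemma finite_deg (k : Type) [Field k] [Fintype k] (n : ℕ) :
    {p : k[X] | p.natDegree ≤ n}.Finite := by
  refine Set.Finite.of_injOn (f := fun (p : k[X]) (i : Fin (n + 1)) => p.coeff i)
    (t := Set.univ) (fun _ _ => Set.mem_univ _) ?_ Set.finite_univ
  intro p hp q hq hpq
  ext i
  by_cases hi : i < n + 1
  · exact congrFun hpq ⟨i, hi⟩
  · have hp' : p.natDegree ≤ n := hp
    have hq' : q.natDegree ≤ n := hq
    rw [coeff_eq_zero_of_natDegree_lt (by omega), coeff_eq_zero_of_natDegree_lt (by omega)]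

lemma union_bound {k : Type} [Field k] [Fintype k] {g c N : ℕ} {S : Set k[X]} (hS : S.Finite)
    (h : ∀ x ∈ S, c * (Am k g x).ncard ≤ N) : c * (LocGood k g S).ncard ≤ S.ncard * N := by
  classical
  have h1 : LocGood k g S ⊆ ⋃ x ∈ hS.toFinset, Am k g x := by
    rintro b ⟨x, hx, hb⟩
    simp only [Set.mem_iUnion]
    exact ⟨x, hS.mem_toFinset.2 hx, hb⟩
  have h2 : (LocGood k g S).ncard ≤ ∑ x ∈ hS.toFinset, (Am k g x).ncard :=
    (Set.ncard_le_ncard h1 (Set.toFinite _)).trans (Finset.set_ncard_biUnion_le _ _)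
  calc c * (LocGood k g S).ncard ≤ c * ∑ x ∈ hS.toFinset, (Am k g x).ncard :=
        Nat.mul_le_mul_left c h2
    _ = ∑ x ∈ hS.toFinset, c * (Am k g x).ncard := Finset.mul_sum _ _ _
    _ ≤ ∑ _x ∈ hS.toFinset, N := Finset.sum_le_sum fun x hx => h x (hS.mem_toFinset.1 hx)
    _ = S.ncard * N := by rw [Finset.sum_const, smul_eq_mul, Set.ncard_eq_toFinset_card S hS]

end MUi

open Polynomial Finset Matrix

theorem hUi (hUi2 : StUi2) (hUi3 : StUi3) : StUi := by
  intro k _ _ h2 g hg
  have hA : ∀ (h : k[X]) (_ : h.Monic), h.natDegree = 2 * g + 1 →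
      ∀ s : Finset (AdjoinRoot h), (∀ β ∈ s, β ^ 2 = 1) →
      (MUi.Am k g h).ncard * s.card ≤ 2 * Fintype.card k ^ (g * (2 * g + 1)) := by
    intro h hm hd s hs
    have h1 := hUi3 k h2 g h hm hd s hs
    have h3 : MUi.Am k g h = {b : Matrix (Ix g) (Ix g) k | ∃ w : Ix g → AdjoinRoot h,
      (∀ i j, tau hm (w i * w j) = Gm k g i j) ∧
      ∀ i j, tau hm (AdjoinRoot.root h * w i * w j) = b i j} := by
      ext b
      constructor
      · rintro ⟨_, _, hb⟩; exact hb
      · intro hb; exact ⟨hm, hd, hb⟩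
    rw [h3]
    exact h1
  constructor
  · have hfin : (IType k g).Finite :=
      (MUi.finite_deg k (2 * g + 1)).subset fun h hh => hh.2.2.le
    have := MUi.union_bound (c := 1) (N := Fintype.card k ^ (g * (2 * g + 1))) (g := g) hfin (by
      intro h hh
      obtain ⟨s, hs, hs1⟩ := (hUi2 k h2 g hg h).1 hh
      have h3 := hA h hh.1 hh.2.2 s hs1
      rw [hs] at h3
      omega)
    rwa [one_mul] at this
  · have hT : ∀ h ∈ TType k g, h.Monic ∧ h.natDegree = 2 * g + 1 := by
      rintro h ⟨a, p, hp, hirr, hd, rfl⟩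
      refine ⟨(monic_X_sub_C a).mul hp, ?_⟩
      rw [(monic_X_sub_C a).natDegree_mul hp, natDegree_X_sub_C, hd]
      ring
    have hfin : (TType k g).Finite :=
      (MUi.finite_deg k (2 * g + 1)).subset fun h hh => (hT h hh).2.le
    exact MUi.union_bound (c := 2) (N := Fintype.card k ^ (g * (2 * g + 1))) (g := g) hfin (by
      intro h hh
      obtain ⟨s, hs, hs1⟩ := (hUi2 k h2 g hg h).2 hh
      have h3 := hA h (hT h hh).1 (hT h hh).2 s hs1
      rw [hs] at h3
      omega)

end Pool.Agent.Helper3.HY
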