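import Pool.Agent.Helper3.HY.Base
import Pool.Agent.Helper3.HY.StUU

/-!
# HY module Uf (number of symmetric matrices of type `m`)
-/

set_option autoImplicit false

namespace Pool.Agent.Helper3.HY

open Polynomial Finset Matrix

namespace Uf

theorem nu_rev {g : ℕ} (m : Fin g → ℕ) (i : Ix g) : nu g m (Fin.rev i) = -nu g m i := by
  unfold nu
  have hr : (Fin.rev i : ℕ) = 2 * g - i.1 := by
    rw [Fin.val_rev]; omega
  have hi := i.2
  rcases lt_trichotomy i.1 g with h | h | h
  · have h1 : ¬ (Fin.rev i : ℕ) < g := by omega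
    have h2 : g < (Fin.rev i : ℕ) := by omega
    rw [dif_neg h1, dif_pos h2, dif_pos h, neg_neg]
    congr 2
    apply Fin.ext
    simp only [hr]
    omega
  · have h1 : ¬ (Fin.rev i : ℕ) < g := by omega
    have h2 : ¬ g < (Fin.rev i : ℕ) := by omega
    rw [dif_neg h1, dif_neg h2, dif_neg (by omega), dif_neg (by omega), neg_zero]
  · have h1 : (Fin.rev i : ℕ) < g := by omega
    rw [dif_pos h1, dif_neg (by omega), dif_pos h]
    congr 3
    apply Fin.ext
    simp only [hr]

/-- the polynomials of bounded degree -/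
def PS (F : Type) [Field F] (n : ℤ) : Set F[X] := {p | p = 0 ∨ (p.natDegree : ℤ) ≤ n}

theorem PS_eq (F : Type) [Field F] (n : ℤ) :
    PS F n = (degreeLT F (n + 1).toNat : Set F[X]) := by
  ext p
  rw [SetLike.mem_coe, mem_degreeLT]
  unfold PS
  rw [Set.mem_ofPred_eq]
  by_cases hp : p = 0
  · subst hp
    simp
  · rw [← natDegree_lt_iff_degree_lt hp]
    constructor
    · rintro (h | h)
      · exact absurd h hp
      · omega
    · intro h
      right
      omega

theorem PS_card (F : Type) [Field F] [Fintype F] (n : ℤ) :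
    Nat.card (PS F n) = Fintype.card F ^ (n + 1).toNat ∧ Finite (PS F n) := by
  have e : PS F n ≃ (Fin (n + 1).toNat → F) :=
    (Equiv.setCongr (PS_eq F n)).trans (degreeLTEquiv F (n + 1).toNat).toEquiv
  refine ⟨?_, Finite.of_equiv _ e.symm⟩
  rw [Nat.card_congr e, Nat.card_pi]
  simp

/-- the pairs `i ≤ j` -/
abbrev Pr (g : ℕ) : Type := {p : Ix g × Ix g // p.1 ≤ p.2}

/-- the symmetric matrices as families -/
noncomputable def eqv (F : Type) [Field F] (g d : ℕ) (m : Fin g → ℕ) :
    Vset F g d m ≃ ((p : Pr g) → PS F (d + nu g m p.1.1 + nu g m p.1.2)) where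
  toFun b := fun p => ⟨b.1 p.1.1 p.1.2, b.2.2 p.1.1 p.1.2⟩
  invFun c := ⟨Matrix.of fun i j => if h : i ≤ j then (c ⟨(i, j), h⟩).1
    else (c ⟨(j, i), (not_le.1 h).le⟩).1, by
      constructor
      · apply Matrix.IsSymm.ext
        intro i j
        rw [Matrix.of_apply, Matrix.of_apply]
        rcases lt_trichotomy i j with h | h | h
        · rw [dif_neg (not_le.2 h), dif_pos h.le]
        · subst h
          rfl
        · rw [dif_pos h.le, dif_neg (not_le.2 h)]
      · intro i j
        rw [Matrix.of_apply]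
        by_cases h : i ≤ j
        · have h1 := (c ⟨(i, j), h⟩).2
          rw [dif_pos h]
          exact h1
        · have h1 := (c ⟨(j, i), (not_le.1 h).le⟩).2
          rw [dif_neg h]
          rcases h1 with h1 | h1
          · exact Or.inl h1
          · right
            refine h1.trans (le_of_eq ?_)
            ring⟩
  left_inv b := by
    apply Subtype.ext
    ext1 i j
    change (if h : i ≤ j then b.1 i j else b.1 j i) = b.1 i j
    by_cases h : i ≤ j
    · rw [dif_pos h]
    · rw [dif_neg h]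
      exact b.2.1.apply i j
  right_inv c := by
    funext p
    apply Subtype.ext
    obtain ⟨⟨i, j⟩, hp⟩ := p
    have hp' : i ≤ j := hp
    change (Matrix.of (fun i j => if h : i ≤ j then (c ⟨(i, j), h⟩).1
      else (c ⟨(j, i), (not_le.1 h).le⟩).1) : Matrix (Ix g) (Ix g) F[X]) i j = _
    rw [Matrix.of_apply, dif_pos hp']

theorem sum_nu_pairs {g : ℕ} (m : Fin g → ℕ) :
    (∑ p : Ix g × Ix g, if p.1 ≤ p.2 then nu g m p.1 + nu g m p.2 else 0) = 0 := by
  have h1 : (∑ p : Ix g × Ix g, if p.1 ≤ p.2 then nu g m p.1 + nu g m p.2 else 0) =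
      -∑ p : Ix g × Ix g, if p.1 ≤ p.2 then nu g m p.1 + nu g m p.2 else 0 := by
    conv_lhs => rw [← Equiv.sum_comp ((Equiv.prodComm _ _).trans
      (Equiv.prodCongr Fin.revPerm Fin.revPerm))]
    rw [← sum_neg_distrib]
    refine sum_congr rfl fun p _ => ?_
    obtain ⟨i, j⟩ := p
    have h2 : ((Equiv.prodComm (Ix g) (Ix g)).trans (Equiv.prodCongr Fin.revPerm Fin.revPerm))
        (i, j) = (Fin.rev j, Fin.rev i) := rfl
    rw [h2]
    simp only [Fin.rev_le_rev, nu_rev]
    split_ifs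
    · ring
    · rfl
  omega

theorem card_pairs (g : ℕ) :
    (∑ p : Ix g × Ix g, if p.1 ≤ p.2 then (1 : ℕ) else 0) = (g + 1) * (2 * g + 1) := by
  rw [Fintype.sum_prod_type_right]
  have h1 : ∀ j : Ix g, (∑ i : Ix g, if i ≤ j then (1 : ℕ) else 0) = j.1 + 1 := by
    intro j
    rw [← card_filter]
    have : (univ.filter fun i : Ix g => i ≤ j) = Iic j := by ext i; simp
    rw [this, Fin.card_Iic]
  rw [sum_congr rfl fun j _ => h1 j, Fin.sum_univ_eq_sum_range (fun n => n + 1) (2 * g + 1),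
    sum_add_distrib, sum_const, card_range, smul_eq_mul, mul_one]
  have h2 := Finset.sum_range_id_mul_two (2 * g + 1)
  have h3 : 2 * g + 1 - 1 = 2 * g := by omega
  rw [h3] at h2
  nlinarith

end Uf

theorem hUf : StUf := by
  intro F _ _ g d m
  have hfin : ∀ n : ℤ, Finite (Uf.PS F n) := fun n => (Uf.PS_card F n).2
  have hF : Finite (Vset F g d m) := Finite.of_equiv _ (Uf.eqv F g d m).symm
  refine ⟨Set.toFinite _, ?_⟩
  rw [← Nat.card_coe_set_eq, Nat.card_congr (Uf.eqv F g d m), Nat.card_pi]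
  simp only [(Uf.PS_card F _).1]
  rw [prod_pow_eq_pow_sum]
  congr 1
  have h1 : (∑ p : Uf.Pr g, ((d : ℤ) + nu g m p.1.1 + nu g m p.1.2 + 1).toNat) =
      ∑ p : Ix g × Ix g, if p.1 ≤ p.2 then ((d : ℤ) + nu g m p.1 + nu g m p.2 + 1).toNat else 0 := by
    rw [← sum_filter]
    exact (sum_subtype (univ.filter fun p : Ix g × Ix g => p.1 ≤ p.2) (by simp)
      (fun p : Ix g × Ix g => ((d : ℤ) + nu g m p.1 + nu g m p.2 + 1).toNat)).symm
  rw [h1]
  have h2 : ∀ p : Ix g × Ix g,
      (((if p.1 ≤ p.2 then ((d : ℤ) + nu g m p.1 + nu g m p.2 + 1).toNat else 0 : ℕ)) : ℤ) =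
      ((d : ℤ) + 1) * ((if p.1 ≤ p.2 then (1 : ℕ) else 0 : ℕ) : ℤ) +
        (if p.1 ≤ p.2 then nu g m p.1 + nu g m p.2 else 0) +
        ((if p.1 ≤ p.2 then (-(d + 1 : ℤ) - nu g m p.1 - nu g m p.2).toNat else 0 : ℕ) : ℤ) := by
    intro p
    by_cases h : p.1 ≤ p.2
    · simp only [if_pos h]
      push_cast
      omega
    · simp only [if_neg h]
      simp
  have h3 : ((∑ p : Ix g × Ix g, if p.1 ≤ p.2 then
      ((d : ℤ) + nu g m p.1 + nu g m p.2 + 1).toNat else 0 : ℕ) : ℤ) =
      (((d + 1) * ((g + 1) * (2 * g + 1)) + exc g d m : ℕ) : ℤ) := by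
    rw [Nat.cast_sum, sum_congr rfl fun p _ => h2 p, sum_add_distrib, sum_add_distrib,
      Uf.sum_nu_pairs, add_zero, ← mul_sum, ← Nat.cast_sum, ← Nat.cast_sum, Uf.card_pairs]
    unfold exc
    push_cast
    ring
  exact_mod_cast h3

end Pool.Agent.Helper3.HY
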