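import Pool.Agent.Helper3.HY.StUU

/-!
# HY, module Uh: equidistribution of the matrices
-/

set_option autoImplicit false

namespace Pool.Agent.Helper3.HY

open Polynomial Finset Filter Topology Matrix
open Pool.Agent.Helper54.PT (Prm prm)

namespace MUh

/-! ### the numbers `ν` -/

section nu

variable {g : ℕ} {m : Fin g → ℕ}

lemma nu_of_lt {i : Ix g} (h : i.1 < g) : nu g m i = -(m ⟨i.1, h⟩ : ℤ) := by rw [nu, dif_pos h]

lemma nu_mid {i : Ix g} (h : i.1 = g) : nu g m i = 0 := by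
  rw [nu, dif_neg (by omega), dif_neg (by omega)]

lemma nu_of_gt {i : Ix g} (h : g < i.1) : nu g m i = (m ⟨2 * g - i.1, by omega⟩ : ℤ) := by
  rw [nu, dif_neg (by omega), dif_pos h]

lemma nu_rev (i : Ix g) : nu g m (Fin.rev i) = -nu g m i := by
  have h1 : (Fin.rev i).1 = 2 * g - i.1 := by rw [Fin.val_rev]; omega
  have hi := i.2
  rcases lt_trichotomy i.1 g with h | h | h
  · rw [nu, nu, dif_neg (by omega), dif_pos (by omega), dif_pos h, neg_neg]
    congr 2
    apply Fin.ext
    simp only [h1]; omega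
  · rw [nu, nu, dif_neg (by omega), dif_neg (by omega), dif_neg (by omega), dif_neg (by omega)]
    rfl
  · rw [nu, nu, dif_pos (by omega), dif_neg (by omega), dif_pos h]
    congr 3
    exact Fin.ext h1

lemma neg_le_nu (hg : 1 ≤ g) (hm : Antitone m) (i : Ix g) : -(m ⟨0, hg⟩ : ℤ) ≤ nu g m i := by
  have h0 : ∀ j : Fin g, m j ≤ m ⟨0, hg⟩ := fun j => hm (by rw [Fin.le_def]; exact Nat.zero_le _)
  rcases lt_trichotomy i.1 g with h | h | h
  · rw [nu_of_lt h, neg_le_neg_iff]; exact_mod_cast h0 _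
  · rw [nu_mid h]; have : (0 : ℤ) ≤ (m ⟨0, hg⟩ : ℤ) := Int.natCast_nonneg _
    linarith
  · rw [nu_of_gt h]
    have h1 : (0 : ℤ) ≤ (m ⟨0, hg⟩ : ℤ) := Int.natCast_nonneg _
    have h2 : (0 : ℤ) ≤ (m ⟨2 * g - i.1, by omega⟩ : ℤ) := Int.natCast_nonneg _
    linarith

lemma sum_nu : ∑ i : Ix g, nu g m i = 0 := by
  have h : ∑ i : Ix g, nu g m i = ∑ i : Ix g, nu g m (Fin.rev i) :=
    (Equiv.sum_comp Fin.revPerm _).symm
  simp only [nu_rev, sum_neg_distrib] at h
  omega

end nu

/-! ### upper triangles -/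

/-- the positions of the upper triangle -/
abbrev Up (g : ℕ) : Type := {p : Ix g × Ix g // p.1 ≤ p.2}

/-- twice a symmetric sum over the upper triangle -/
lemma two_sum {N : ℕ} (f : Fin N → Fin N → ℤ) (hf : ∀ i j, f i j = f j i) :
    2 * ∑ p : {p : Fin N × Fin N // p.1 ≤ p.2}, f p.1.1 p.1.2 =
      ∑ i, ∑ j, f i j + ∑ i, f i i := by
  have h1 : ∑ p : {p : Fin N × Fin N // p.1 ≤ p.2}, f p.1.1 p.1.2 =
      ∑ i, ∑ j, if i ≤ j then f i j else 0 := by
    rw [← Fintype.sum_prod_type' (f := fun i j : Fin N => if i ≤ j then f i j else 0),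
      ← Finset.sum_filter, Finset.sum_subtype (p := fun p : Fin N × Fin N => p.1 ≤ p.2)]
    intro x
    simp
  have h2 : ∑ p : {p : Fin N × Fin N // p.1 ≤ p.2}, f p.1.1 p.1.2 =
      ∑ i, ∑ j, if j ≤ i then f i j else 0 := by
    rw [h1, Finset.sum_comm]
    refine Finset.sum_congr rfl fun i _ => Finset.sum_congr rfl fun j _ => ?_
    split_ifs
    · rw [hf]
    · rfl
  have h3 : ∀ i, ∑ j, (if i ≤ j then f i j else 0) + ∑ j, (if j ≤ i then f i j else 0) =
      ∑ j, f i j + f i i := by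
    intro i
    have h4 : f i i = ∑ j, if i = j then f i j else 0 := by simp
    rw [h4, ← Finset.sum_add_distrib, ← Finset.sum_add_distrib]
    refine Finset.sum_congr rfl fun j _ => ?_
    rcases lt_trichotomy i j with h | h | h
    · rw [if_pos h.le, if_neg (not_le.2 h), if_neg h.ne]
    · subst h; rw [if_pos le_rfl, if_pos rfl]
    · rw [if_neg (not_le.2 h), if_pos h.le, if_neg h.ne', add_comm]
  rw [two_mul]
  nth_rewrite 1 [h1]
  rw [h2, ← Finset.sum_add_distrib, ← Finset.sum_add_distrib]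
  exact Finset.sum_congr rfl fun i _ => h3 i

lemma card_Up (g : ℕ) : Fintype.card (Up g) = (g + 1) * (2 * g + 1) := by
  have h := two_sum (N := 2 * g + 1) (fun _ _ => 1) (fun _ _ => rfl)
  simp only [sum_const, card_univ, Fintype.card_fin, nsmul_eq_mul, mul_one] at h
  have h2 : (Fintype.card (Up g) : ℤ) = ((g + 1) * (2 * g + 1) : ℕ) := by
    push_cast at h ⊢
    linarith
  exact_mod_cast h2

/-- the upper triangle of a matrix -/
def up {B : Type} {g : ℕ} (b : Matrix (Ix g) (Ix g) B) : Up g → B := fun p => b p.1.1 p.1.2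

lemma up_inj {B : Type} {g : ℕ} {b c : Matrix (Ix g) (Ix g) B} (hb : b.IsSymm) (hc : c.IsSymm)
    (h : up b = up c) : b = c := by
  have h1 : ∀ i j : Ix g, i ≤ j → b i j = c i j := fun i j hij => congrFun h ⟨(i, j), hij⟩
  ext i j
  rcases le_total i j with hij | hij
  · exact h1 i j hij
  · rw [← hb.apply i j, ← hc.apply i j]
    exact h1 j i hij

/-- the symmetric matrix with given upper triangle -/
def dn {B : Type} {g : ℕ} (x : Up g → B) : Matrix (Ix g) (Ix g) B := fun i j =>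
  if h : i ≤ j then x ⟨(i, j), h⟩ else x ⟨(j, i), (le_total i j).resolve_left h⟩

lemma dn_symm {B : Type} {g : ℕ} (x : Up g → B) : (dn x).IsSymm := by
  ext i j
  rw [transpose_apply]
  unfold dn
  by_cases h : i = j
  · subst h; rfl
  rcases lt_or_gt_of_ne h with h' | h'
  · rw [dif_neg (not_le.2 h'), dif_pos h'.le]
  · rw [dif_pos h'.le, dif_neg (not_le.2 h')]

lemma up_dn {B : Type} {g : ℕ} (x : Up g → B) : up (dn x) = x := by
  funext p
  unfold up dn
  rw [dif_pos p.2]

lemma up_map {B B' : Type} {g : ℕ} (b : Matrix (Ix g) (Ix g) B) (φ : B → B') :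
    up (b.map φ) = fun p => φ (up b p) := rfl

lemma isSymm_map {B B' : Type} {g : ℕ} {b : Matrix (Ix g) (Ix g) B} (hb : b.IsSymm) (φ : B → B') :
    (b.map φ).IsSymm := by
  ext i j
  rw [transpose_apply, map_apply, map_apply, hb.apply]

lemma LocGood_symm {k : Type} [Field k] {g : ℕ} {S : Set k[X]} {b : Matrix (Ix g) (Ix g) k}
    (hb : b ∈ LocGood k g S) : b.IsSymm := by
  obtain ⟨h, -, hm, -, w, -, h2⟩ := hb
  ext i j
  rw [transpose_apply, ← h2, ← h2]
  congr 1
  ring

lemma card_kp {F : Type} [Field F] [Fintype F] (P : Prm F) :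
    Nat.card (kp P) = Fintype.card F ^ P.1.natDegree := by
  have : Module.Finite F (kp P) := (AdjoinRoot.powerBasis P.2.2.ne_zero).finite
  rw [Module.natCard_eq_pow_finrank (K := F) (V := kp P), Nat.card_eq_fintype_card,
    (AdjoinRoot.powerBasis P.2.2.ne_zero).finrank, AdjoinRoot.powerBasis_dim]

lemma degree_lt_iff {F : Type} [Field F] {p : F[X]} {e : ℤ} :
    p.degree < ((e + 1).toNat : ℕ) ↔ (p = 0 ∨ (p.natDegree : ℤ) ≤ e) := by
  by_cases hp : p = 0
  · subst hp
    simp only [degree_zero, true_or, iff_true]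
    exact WithBot.bot_lt_coe _
  · rw [degree_eq_natDegree hp]
    simp only [hp, false_or, Nat.cast_lt]
    omega

end MUh

open MUh in
theorem hUh (hEq : StEq) : StUh := by
  intro F _ _ g d hg m hm S Cl hS
  classical
  set s := ∑ P ∈ S, P.1.natDegree with hs
  let n : Up g → ℕ := fun p => ((d : ℤ) + nu g m p.1.1 + nu g m p.1.2 + 1).toNat
  have h0 : (2 * m ⟨0, hg⟩ + s : ℕ) ≤ d + 1 := hS ⟨0, hg⟩
  have hpos : ∀ i j : Ix g, (s : ℤ) ≤ (d : ℤ) + nu g m i + nu g m j + 1 := by
    intro i j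
    have h1 := neg_le_nu hg hm i
    have h2 := neg_le_nu hg hm j
    have h3 : ((2 * m ⟨0, hg⟩ + s : ℕ) : ℤ) ≤ ((d + 1 : ℕ) : ℤ) := by exact_mod_cast h0
    push_cast at h3
    linarith
  have hcop : ∀ k ∈ S, ∀ l ∈ S, k ≠ l → IsCoprime (k.1) (l.1) := by
    intro k _ l _ hkl
    rw [k.2.2.coprime_iff_not_dvd]
    intro hdvd
    apply hkl
    apply Subtype.ext
    exact eq_of_monic_of_associated k.2.1 l.2.1 (k.2.2.associated_of_dvd l.2.2 hdvd)
  have key := hEq F (Up g) (Prm F) S (fun P => P.1) n (fun P => up '' LocGood (kp P) g (Cl P))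
    (fun k _ => k.2.1) hcop (fun p => by
      have := hpos p.1.1 p.1.2
      change s ≤ ((d : ℤ) + nu g m p.1.1 + nu g m p.1.2 + 1).toNat
      omega)
  -- the set of matrices
  have hV : (VGood g d m S Cl).ncard = {x : Up g → F[X] | (∀ i, (x i).degree < n i) ∧
      ∀ k ∈ S, (fun i => AdjoinRoot.mk k.1 (x i)) ∈ up '' LocGood (kp k) g (Cl k)}.ncard := by
    have hinj : Set.InjOn (up (B := F[X]) (g := g)) (VGood g d m S Cl) :=
      fun b hb c hc h => up_inj hb.1.1 hc.1.1 h
    rw [← Set.ncard_image_of_injOn hinj]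
    congr 1
    ext x
    constructor
    · rintro ⟨b, ⟨⟨hb1, hb2⟩, hb3⟩, rfl⟩
      refine ⟨fun p => degree_lt_iff.2 (hb2 p.1.1 p.1.2), fun P hP => ?_⟩
      exact ⟨b.map (red P), hb3 P hP, up_map b (red P)⟩
    · rintro ⟨hx1, hx2⟩
      refine ⟨dn x, ⟨⟨dn_symm x, ?_⟩, ?_⟩, up_dn x⟩
      · have h1 : ∀ i j : Ix g, i ≤ j → (dn x i j = 0 ∨
            ((dn x i j).natDegree : ℤ) ≤ d + nu g m i + nu g m j) := by
          intro i j hij
          have h2 : dn x i j = x ⟨(i, j), hij⟩ := congrFun (up_dn x) ⟨(i, j), hij⟩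
          rw [h2]
          exact degree_lt_iff.1 (hx1 ⟨(i, j), hij⟩)
        intro i j
        rcases le_total i j with hij | hij
        · exact h1 i j hij
        · rw [← (dn_symm x).apply i j]
          have h3 := h1 j i hij
          rwa [add_right_comm] at h3
      · intro P hP
        obtain ⟨c, hc, hcx⟩ := hx2 P hP
        have h4 : (dn x).map (red P) = c := by
          refine up_inj (isSymm_map (dn_symm x) _) (LocGood_symm hc) ?_
          rw [up_map, up_dn, hcx]
        rw [h4]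
        exact hc
  have hA : ∀ P ∈ S, (up '' LocGood (kp P) g (Cl P)).ncard = (LocGood (kp P) g (Cl P)).ncard :=
    fun P _ => Set.ncard_image_of_injOn fun b hb c hc h => up_inj (LocGood_symm hb)
      (LocGood_symm hc) h
  have hsum : ∑ p, n p = (d + 1) * ((g + 1) * (2 * g + 1)) := by
    have h1 : ∀ p : Up g, (n p : ℤ) = (d : ℤ) + nu g m p.1.1 + nu g m p.1.2 + 1 := by
      intro p
      have := hpos p.1.1 p.1.2
      exact Int.toNat_of_nonneg (by omega)
    have h2 := two_sum (N := 2 * g + 1)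
      (fun i j => (d : ℤ) + nu g m i + nu g m j + 1) (fun i j => by ring)
    have h3 : ∑ i : Ix g, ∑ j : Ix g, ((d : ℤ) + nu g m i + nu g m j + 1) =
        (2 * g + 1) * (2 * g + 1) * (d + 1) := by
      simp only [sum_add_distrib, sum_const, card_univ, Fintype.card_fin, nsmul_eq_mul,
        ← Finset.mul_sum, sum_nu]
      push_cast
      ring
    have h4 : ∑ i : Ix g, ((d : ℤ) + nu g m i + nu g m i + 1) = (2 * g + 1) * (d + 1) := by
      simp only [sum_add_distrib, sum_const, card_univ, Fintype.card_fin, nsmul_eq_mul, sum_nu]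
      push_cast
      ring
    have h5 : ((∑ p, n p : ℕ) : ℤ) = (((d + 1) * ((g + 1) * (2 * g + 1)) : ℕ) : ℤ) := by
      rw [Nat.cast_sum, Finset.sum_congr rfl fun p _ => h1 p]
      have h6 := h2
      rw [h3, h4] at h6
      push_cast
      linarith
    exact_mod_cast h5
  rw [← hV, card_Up, hsum] at key
  rw [Finset.prod_congr rfl hA] at key
  rw [← key]
  congr 1
  rw [Finset.prod_congr rfl fun P _ => by rw [card_kp P, ← pow_mul]]
  rw [Finset.prod_pow_eq_pow_sum, ← Finset.sum_mul, mul_comm]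

end Pool.Agent.Helper3.HY
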