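import Pool.Agent.Helper3.HY.Base
import Pool.Agent.Helper3.HY.StUU

/-!
# HY: the form given by the top coordinate is nondegenerate
-/

set_option autoImplicit false

namespace Pool.Agent.Helper3.HY

open Polynomial Finset

theorem hUi1 : StUi1 := by
  intro k _ h hm hN z hz
  obtain ⟨p0, rfl⟩ := AdjoinRoot.mk_surjective z
  have e : AdjoinRoot.mk h p0 = AdjoinRoot.mk h (p0 %ₘ h) := by
    rw [AdjoinRoot.mk_eq_mk]
    exact ⟨p0 /ₘ h, by rw [sub_eq_iff_eq_add, add_comm, modByMonic_add_div p0 h]⟩
  rw [e] at hz ⊢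
  have hdeg : (p0 %ₘ h).degree < h.degree := degree_modByMonic_lt p0 hm
  generalize p0 %ₘ h = p at hz hdeg
  by_cases hp : p = 0
  · rw [hp, map_zero]
  exfalso
  have hd : p.natDegree < h.natDegree := natDegree_lt_natDegree hp hdeg
  have h1 := hz (AdjoinRoot.mk h (X ^ (h.natDegree - 1 - p.natDegree)))
  rw [← map_mul, tau, co_mk, (modByMonic_eq_self_iff hm).2] at h1
  · have h2 : h.natDegree - 1 = p.natDegree + (h.natDegree - 1 - p.natDegree) := by omega
    rw [h2, Nat.add_sub_cancel_left, coeff_mul_X_pow, coeff_natDegree] at h1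
    exact hp (leadingCoeff_eq_zero.1 h1)
  · rw [degree_mul, degree_X_pow, degree_eq_natDegree hp, degree_eq_natDegree hm.ne_zero]
    exact_mod_cast (by omega : p.natDegree + (h.natDegree - 1 - p.natDegree) < h.natDegree)

end Pool.Agent.Helper3.HY
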