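import Pool.Agent.Helper3.HY.StUU

set_option autoImplicit false

namespace Pool.Agent.Helper3.HY

open Polynomial Finset Filter Topology Matrix
open Pool.Agent.Helper54.PT (Prm prm)

namespace UmAux

lemma geom_le {x : ℝ} (h0 : 0 ≤ x) (h1 : x ≤ 1 / 2) (n : ℕ) :
    ∑ k ∈ Finset.range n, x ^ k ≤ 2 := by
  have hx : x < 1 := by linarith
  have h3 : ∑ k ∈ Finset.range n, x ^ k ≤ (1 - x)⁻¹ := by
    rw [geom_sum_eq hx.ne]
    have h4 : (x ^ n - 1) / (x - 1) = (1 - x ^ n) * (1 - x)⁻¹ := by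
      rw [div_eq_mul_inv, ← neg_sub (1 : ℝ) (x ^ n), ← neg_sub (1 : ℝ) x, inv_neg]
      ring
    rw [h4]
    have h5 : 0 ≤ x ^ n := pow_nonneg h0 n
    have h6 : 0 < (1 - x)⁻¹ := inv_pos.2 (by linarith)
    nlinarith
  have h4 : (1 - x)⁻¹ ≤ 2 := by
    rw [inv_le_comm₀ (by linarith) (by norm_num)]
    linarith
  linarith

lemma sum_types_le {x : ℝ} (h0 : 0 ≤ x) (h1 : x ≤ 1 / 2) (g n : ℕ) :
    ∑ m ∈ Fintype.piFinset (fun _ : Fin g => Finset.range n), x ^ (∑ i, m i) ≤ 2 ^ g := by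
  have h2 : ∑ m ∈ Fintype.piFinset (fun _ : Fin g => Finset.range n), x ^ (∑ i, m i) =
      ∏ _i : Fin g, ∑ k ∈ Finset.range n, x ^ k := by
    rw [Finset.prod_univ_sum]
    apply Finset.sum_congr rfl
    intro m _
    rw [Finset.prod_pow_eq_pow_sum]
  rw [h2]
  calc ∏ _i : Fin g, ∑ k ∈ Finset.range n, x ^ k ≤ ∏ _i : Fin g, (2 : ℝ) := by
        apply Finset.prod_le_prod
        · intro i _
          exact Finset.sum_nonneg fun k _ => pow_nonneg h0 k
        · intro i _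
          exact geom_le h0 h1 n
    _ = 2 ^ g := by simp

lemma lim_aux {x : ℝ} (h0 : 0 ≤ x) (h1 : x ≤ 1 / 2) (g s : ℕ) (c : ℝ) (hc : 0 ≤ c) :
    Tendsto (fun d : ℕ => ((g * d + 1 : ℕ) : ℝ) ^ g * c * x ^ ((d + 1 - s) / 2)) atTop (𝓝 0) := by
  have hn : Tendsto (fun d : ℕ => (d + 1 - s) / 2) atTop atTop := by
    rw [tendsto_atTop]
    intro b
    filter_upwards [eventually_ge_atTop (2 * b + s)] with d hd
    omega
  have h2 : Tendsto (fun n : ℕ => (n : ℝ) ^ g * (1 / 2 : ℝ) ^ n) atTop (𝓝 0) :=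
    tendsto_pow_const_mul_const_pow_of_abs_lt_one g (by norm_num [abs_of_pos])
  have h3 : Tendsto (fun n : ℕ => (((g * (2 + s) + 1 : ℕ) : ℝ) ^ g * c) *
      ((n : ℝ) ^ g * (1 / 2 : ℝ) ^ n)) atTop (𝓝 0) := by
    simpa using h2.const_mul (((g * (2 + s) + 1 : ℕ) : ℝ) ^ g * c)
  have h4 := h3.comp hn
  refine tendsto_of_tendsto_of_tendsto_of_le_of_le' tendsto_const_nhds h4 ?_ ?_
  · exact Eventually.of_forall fun d => by positivity
  · filter_upwards [eventually_ge_atTop (s + 2)] with d hd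
    simp only [Function.comp]
    set n := (d + 1 - s) / 2 with hnn
    have hn1 : 1 ≤ n := by omega
    have hdn : d ≤ 2 * n + s := by omega
    have h5 : g * d + 1 ≤ (g * (2 + s) + 1) * n := by
      calc g * d + 1 ≤ g * (2 * n + s) + 1 := by
            have := Nat.mul_le_mul_left g hdn
            omega
        _ ≤ g * (2 * n + s * n) + 1 * n := by
            have h6 : s ≤ s * n := Nat.le_mul_of_pos_right s (by omega)
            have := Nat.mul_le_mul_left g (Nat.add_le_add_left h6 (2 * n))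
            omega
        _ = (g * (2 + s) + 1) * n := by ring
    have h6 : ((g * d + 1 : ℕ) : ℝ) ^ g ≤ ((g * (2 + s) + 1 : ℕ) : ℝ) ^ g * (n : ℝ) ^ g := by
      rw [← mul_pow]
      apply pow_le_pow_left₀ (by positivity)
      exact_mod_cast h5
    have h7 : x ^ n ≤ (1 / 2 : ℝ) ^ n := pow_le_pow_left₀ h0 h1 n
    calc ((g * d + 1 : ℕ) : ℝ) ^ g * c * x ^ n
        ≤ (((g * (2 + s) + 1 : ℕ) : ℝ) ^ g * (n : ℝ) ^ g) * c * (1 / 2) ^ n := by
          apply mul_le_mul _ h7 (pow_nonneg h0 n) (by positivity)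
          exact mul_le_mul_of_nonneg_right h6 hc
      _ = _ := by ring

/-- admissible types are bounded -/
lemma adm_le {g d : ℕ} {m : Fin g → ℕ} (h : Adm g d m) (i : Fin g) : m i ≤ g * d := by
  obtain ⟨_, h2, h3⟩ := h
  have key : ∀ k : ℕ, ∀ i : Fin g, (i : ℕ) + 1 + k = g → m i ≤ (k + 1) * d := by
    intro k
    induction k with
    | zero =>
      intro i hi
      have := h2 i (by omega)
      omega
    | succ k ih =>
      intro i hi
      have h4 := ih ⟨i + 1, by omega⟩ (by simp only; omega)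
      have h5 := h3 i ⟨i + 1, by omega⟩ rfl
      calc m i ≤ m ⟨i + 1, by omega⟩ + d := h5
        _ ≤ (k + 1) * d + d := by omega
        _ = (k + 1 + 1) * d := by ring
  have h4 := key (g - 1 - i) i (by omega)
  refine h4.trans (Nat.mul_le_mul_right _ (by omega))

lemma rho2_ge {g : ℕ} (m : Fin g → ℕ) : ∑ i, m i ≤ rho2 g m := by
  unfold rho2
  apply Finset.sum_le_sum
  intro i _
  have h1 : 1 ≤ 2 * g - 1 - 2 * (i : ℕ) := by omega
  calc m i = 1 * m i := (one_mul _).symm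
    _ ≤ _ := Nat.mul_le_mul_right _ h1

end UmAux

open UmAux in
theorem hUm : StUm := by
  classical
  intro hUj hUk hUl hFam F _ _ h2 g hg
  have hq1 : 1 < Fintype.card F := Fintype.one_lt_card
  set q : ℝ := (Fintype.card F : ℝ) with hq
  have hq2 : 2 ≤ q := by
    rw [hq]
    exact_mod_cast hq1
  have hq0 : 0 < q := by linarith
  have hx0 : 0 ≤ 1 / q := by positivity
  have hx1 : 1 / q ≤ 1 / 2 := by
    apply one_div_le_one_div_of_le (by norm_num) hq2
  refine ⟨2 ^ g * q ^ (g * (2 * g + 1)), by positivity, ?_⟩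
  intro T T' hT ε hε
  set s : ℕ := ∑ P ∈ T ∪ T', P.1.natDegree with hs
  set X : ℝ := (1 / 2) ^ T.card * ∏ P ∈ T ∪ T', dens g (Cls g T) P with hX
  have hX0 : 0 ≤ X := by
    rw [hX]
    apply mul_nonneg (by positivity)
    apply Finset.prod_nonneg
    intro P _
    unfold dens
    positivity
  have hlim := (lim_aux hx0 hx1 g s (q ^ (g * (2 * g + 1))) (by positivity)).eventually
    (gt_mem_nhds hε)
  filter_upwards [hlim] with d hd
  set W : ℝ := q ^ ((d + 1) * ((g + 1) * (2 * g + 1))) with hW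
  have hW0 : 0 < W := by positivity
  set A : Finset (Fin g → ℕ) :=
    (Fintype.piFinset fun _ : Fin g => Finset.range (g * d + 1)).filter (fun m => Adm g d m)
    with hA
  have hAmem : ∀ m, Adm g d m → m ∈ A := by
    intro m hm
    refine Finset.mem_filter.2 ⟨Fintype.mem_piFinset.2 fun i => ?_, hm⟩
    rw [Finset.mem_range]
    have := adm_le hm i
    omega
  have hsub : BadSet F g d (T ∪ T') (Cls g T) ⊆
      ⋃ m ∈ A, BadM F g d m (T ∪ T') (Cls g T) := by
    rintro f ⟨hf, m, hm, hb⟩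
    rw [Set.mem_iUnion₂]
    exact ⟨m, hAmem m hm, hf, hb⟩
  have hfin : (⋃ m ∈ A, BadM F g d m (T ∪ T') (Cls g T)).Finite := by
    apply Set.Finite.biUnion A.finite_toSet
    intro m hm
    exact (hUj F h2 g d hg m (Finset.mem_filter.1 hm).2.1 _ _).1
  refine ⟨hfin.subset hsub, ?_⟩
  have hcard1 : ((BadSet F g d (T ∪ T') (Cls g T)).ncard : ℝ) ≤
      ∑ m ∈ A, ((BadM F g d m (T ∪ T') (Cls g T)).ncard : ℝ) := by
    have h3 := (Set.ncard_le_ncard hsub hfin).trans
      (Finset.set_ncard_biUnion_le A fun m => BadM F g d m (T ∪ T') (Cls g T))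
    exact_mod_cast h3
  -- the first element
  set i₀ : Fin g := ⟨0, by omega⟩ with hi₀
  -- each type
  have heach : ∀ m ∈ A, ((BadM F g d m (T ∪ T') (Cls g T)).ncard : ℝ) ≤
      W * X * (1 / q) ^ (∑ i, m i) + W * (1 / q) ^ ((d + 1 - s) / 2) := by
    intro m hm
    have hadm : Adm g d m := (Finset.mem_filter.1 hm).2
    by_cases hmain : ∀ i : Fin g, 2 * m i + s ≤ d + 1
    · have h3 := hUk F h2 g d hg m hadm.1 T T' hT hmain
      rw [← hq, ← hW, ← hX] at h3
      have h4 : ((BadM F g d m (T ∪ T') (Cls g T)).ncard : ℝ) * q ^ (∑ i, m i) ≤ W * X := by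
        refine le_trans ?_ h3
        apply mul_le_mul_of_nonneg_left _ (Nat.cast_nonneg _)
        exact pow_le_pow_right₀ (by linarith) (rho2_ge m)
      have h5 : ((BadM F g d m (T ∪ T') (Cls g T)).ncard : ℝ) ≤
          W * X * (1 / q) ^ (∑ i, m i) := by
        rw [one_div, inv_pow, ← div_eq_mul_inv, le_div_iff₀ (by positivity)]
        exact h4
      have h6 : 0 ≤ W * (1 / q) ^ ((d + 1 - s) / 2) := by positivity
      linarith
    · push Not at hmain
      obtain ⟨i, hi⟩ := hmain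
      have h3 := hUl F h2 g d hg m hadm (T ∪ T') (Cls g T) i₀ rfl
      rw [← hq, ← hW] at h3
      have h4 : m i ≤ m i₀ := hadm.1 (by
        rw [hi₀, Fin.le_def]
        exact Nat.zero_le _)
      have h5 : (d + 1 - s) / 2 ≤ min ((d + 1) / 2) (m i₀) := by
        rw [le_min_iff]
        constructor <;> omega
      have h6 : ((BadM F g d m (T ∪ T') (Cls g T)).ncard : ℝ) * q ^ ((d + 1 - s) / 2) ≤ W := by
        refine le_trans ?_ h3
        apply mul_le_mul_of_nonneg_left _ (Nat.cast_nonneg _)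
        exact pow_le_pow_right₀ (by linarith) h5
      have h7 : ((BadM F g d m (T ∪ T') (Cls g T)).ncard : ℝ) ≤
          W * (1 / q) ^ ((d + 1 - s) / 2) := by
        rw [one_div, inv_pow, ← div_eq_mul_inv, le_div_iff₀ (by positivity)]
        exact h6
      have h8 : 0 ≤ W * X * (1 / q) ^ (∑ i, m i) := by positivity
      linarith
  -- the sum
  have hsum1 : ∑ m ∈ A, (1 / q) ^ (∑ i, m i) ≤ 2 ^ g := by
    refine le_trans ?_ (sum_types_le hx0 hx1 g (g * d + 1))
    apply Finset.sum_le_sum_of_subset_of_nonneg (Finset.filter_subset _ _)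
    intro m _ _
    positivity
  have hAcard : (A.card : ℝ) ≤ ((g * d + 1 : ℕ) : ℝ) ^ g := by
    have h3 : A.card ≤ (g * d + 1) ^ g := by
      refine (Finset.card_filter_le _ _).trans ?_
      rw [Fintype.card_piFinset]
      simp
    exact_mod_cast h3
  have htot : ((BadSet F g d (T ∪ T') (Cls g T)).ncard : ℝ) ≤
      W * X * 2 ^ g + W * (((g * d + 1 : ℕ) : ℝ) ^ g * (1 / q) ^ ((d + 1 - s) / 2)) := by
    refine (hcard1.trans (Finset.sum_le_sum heach)).trans ?_
    rw [Finset.sum_add_distrib, ← Finset.mul_sum, Finset.sum_const, nsmul_eq_mul]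
    have h3 : W * X * ∑ m ∈ A, (1 / q) ^ (∑ i, m i) ≤ W * X * 2 ^ g :=
      mul_le_mul_of_nonneg_left hsum1 (by positivity)
    have h4 : (A.card : ℝ) * (W * (1 / q) ^ ((d + 1 - s) / 2)) ≤
        ((g * d + 1 : ℕ) : ℝ) ^ g * (W * (1 / q) ^ ((d + 1 - s) / 2)) :=
      mul_le_mul_of_nonneg_right hAcard (by positivity)
    linarith
  -- the family
  have hfam : W = ((family F (2 * g + 1) d).ncard : ℝ) * q ^ (g * (2 * g + 1)) := by
    rw [(hFam F (2 * g + 1) d).2, hW]
    push_cast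
    rw [← hq, ← pow_add]
    congr 1
    have h3 : (2 * g + 1) * (2 * g + 1 + 1) / 2 = (g + 1) * (2 * g + 1) := by
      have : (2 * g + 1) * (2 * g + 1 + 1) = 2 * ((g + 1) * (2 * g + 1)) := by ring
      rw [this, Nat.mul_div_cancel_left _ (by norm_num)]
    rw [h3]
    ring
  refine htot.trans ?_
  rw [hfam]
  set M : ℝ := ((family F (2 * g + 1) d).ncard : ℝ) with hM
  have hM0 : 0 ≤ M := Nat.cast_nonneg _
  have h3 : M * q ^ (g * (2 * g + 1)) *
      (((g * d + 1 : ℕ) : ℝ) ^ g * (1 / q) ^ ((d + 1 - s) / 2)) ≤ M * ε := by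
    have h4 : M * q ^ (g * (2 * g + 1)) *
        (((g * d + 1 : ℕ) : ℝ) ^ g * (1 / q) ^ ((d + 1 - s) / 2)) =
        M * (((g * d + 1 : ℕ) : ℝ) ^ g * q ^ (g * (2 * g + 1)) *
          (1 / q) ^ ((d + 1 - s) / 2)) := by ring
    rw [h4]
    exact mul_le_mul_of_nonneg_left hd.le hM0
  have h4 : (2 ^ g * q ^ (g * (2 * g + 1)) * (1 / 2) ^ T.card *
      (∏ P ∈ T ∪ T', dens g (Cls g T) P) + ε) * M =
      M * q ^ (g * (2 * g + 1)) * X * 2 ^ g + M * ε := by
    rw [hX]
    ring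
  rw [h4]
  linarith

end Pool.Agent.Helper3.HY
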