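import Pool.Agent.Helper3.HY.Base
import Pool.Agent.Helper3.HY.StUU

/-!
# HY, module Ug: number of standard bases
-/

set_option autoImplicit false

namespace Pool.Agent.Helper3.HY

open Polynomial Finset Filter Topology Matrix

namespace M_Ug

/-- middle indices -/
def mid (g : ℕ) (i : Ix g) : Ix (g + 1) := ⟨i.1 + 1, by have := i.2; omega⟩

/-- last index -/
def lst (g : ℕ) : Ix (g + 1) := ⟨2 * g + 2, by omega⟩

/-- first index -/
def fst (g : ℕ) : Ix (g + 1) := ⟨0, by omega⟩

theorem cases (g : ℕ) (i : Ix (g + 1)) : i = fst g ∨ i = lst g ∨ ∃ j, i = mid g j := by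
  by_cases h0 : i.1 = 0
  · exact Or.inl (Fin.ext h0)
  · by_cases h1 : i.1 = 2 * g + 2
    · exact Or.inr (Or.inl (Fin.ext h1))
    · refine Or.inr (Or.inr ⟨⟨i.1 - 1, ?_⟩, Fin.ext ?_⟩)
      · have := i.2; omega
      · change i.1 = i.1 - 1 + 1
        omega

theorem gm_mid (k : Type) [Field k] (g : ℕ) (i j : Ix g) :
    Gm k (g + 1) (mid g i) (mid g j) = Gm k g i j := by
  unfold Gm
  have : mid g j = Fin.rev (mid g i) ↔ j = Fin.rev i := by
    rw [Fin.ext_iff, Fin.ext_iff, Fin.val_rev, Fin.val_rev]
    change j.1 + 1 = 2 * (g + 1) + 1 - (i.1 + 1 + 1) ↔ j.1 = 2 * g + 1 - (i.1 + 1)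
    have := i.2
    have := j.2
    omega
  simp only [this]

theorem gm_fl (k : Type) [Field k] (g : ℕ) : Gm k (g + 1) (fst g) (lst g) = 1 := by
  unfold Gm
  rw [if_pos]
  apply Fin.ext
  rw [Fin.val_rev]
  change 2 * g + 2 = 2 * (g + 1) + 1 - (0 + 1)
  omega

theorem gm_ff (k : Type) [Field k] (g : ℕ) : Gm k (g + 1) (fst g) (fst g) = 0 := by
  unfold Gm
  rw [if_neg]
  intro h
  have := congrArg Fin.val h
  rw [Fin.val_rev] at this
  change 0 = 2 * (g + 1) + 1 - (0 + 1) at this
  omega

theorem gm_ll (k : Type) [Field k] (g : ℕ) : Gm k (g + 1) (lst g) (lst g) = 0 := by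
  unfold Gm
  rw [if_neg]
  intro h
  have := congrArg Fin.val h
  rw [Fin.val_rev] at this
  change 2 * g + 2 = 2 * (g + 1) + 1 - (2 * g + 2 + 1) at this
  omega

theorem gm_fm (k : Type) [Field k] (g : ℕ) (j : Ix g) :
    Gm k (g + 1) (fst g) (mid g j) = 0 := by
  unfold Gm
  rw [if_neg]
  intro h
  have := congrArg Fin.val h
  rw [Fin.val_rev] at this
  change j.1 + 1 = 2 * (g + 1) + 1 - (0 + 1) at this
  have := j.2
  omega

theorem gm_lm (k : Type) [Field k] (g : ℕ) (j : Ix g) :
    Gm k (g + 1) (lst g) (mid g j) = 0 := by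
  unfold Gm
  rw [if_neg]
  intro h
  have := congrArg Fin.val h
  rw [Fin.val_rev] at this
  change j.1 + 1 = 2 * (g + 1) + 1 - (2 * g + 2 + 1) at this
  omega

/-- counting by fibres -/
theorem fib {α β : Type} [Finite α] [Finite β] (S : Set α) (T : Set β) (f : α → β)
    (hf : ∀ a ∈ S, f a ∈ T) (n : ℕ) (hn : ∀ b ∈ T, {a ∈ S | f a = b}.ncard ≤ n) :
    S.ncard ≤ n * T.ncard := by
  classical
  have : Fintype α := Fintype.ofFinite α
  have : Fintype β := Fintype.ofFinite β
  rw [Set.ncard_eq_toFinset_card', Set.ncard_eq_toFinset_card']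
  refine Finset.card_le_mul_card_image_of_maps_to (f := f) (fun a ha => ?_) n fun b hb => ?_
  · rw [Set.mem_toFinset] at ha ⊢
    exact hf a ha
  · rw [Set.mem_toFinset] at hb
    refine le_trans (le_of_eq ?_) (hn b hb)
    rw [Set.ncard_eq_toFinset_card']
    congr 1
    ext a
    simp

section

variable {k : Type} [Field k] [Fintype k] {W : Type} [AddCommGroup W] [Module k W]
  [FiniteDimensional k W]

theorem hyper (φ : W →ₗ[k] k) (hφ : φ ≠ 0) (n : ℕ) (hn : Module.finrank k W = n + 1) :
    {x : W | φ x = 1}.ncard ≤ Fintype.card k ^ n := by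
  have : Finite W := Module.finite_of_finite k
  have : Fintype W := Fintype.ofFinite W
  have hker : Module.finrank k (LinearMap.ker φ) = n := by
    have h1 := LinearMap.finrank_range_add_finrank_ker φ
    have h2 : LinearMap.range φ = ⊤ := LinearMap.range_eq_top.2 (LinearMap.surjective hφ)
    rw [h2, finrank_top, Module.finrank_self, hn] at h1
    omega
  have hcard : Nat.card (LinearMap.ker φ) = Fintype.card k ^ n := by
    rw [Module.natCard_eq_pow_finrank (K := k), hker, Nat.card_eq_fintype_card]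
  rcases Set.eq_empty_or_nonempty {x : W | φ x = 1} with h | ⟨x₀, hx₀⟩
  · rw [h, Set.ncard_empty]
    exact Nat.zero_le _
  · rw [← hcard]
    change _ ≤ Nat.card ((LinearMap.ker φ : Set W))
    rw [Nat.card_coe_set_eq]
    refine Set.ncard_le_ncard_of_injOn (fun x => x - x₀) (fun x hx => ?_)
      (fun x _ y _ h => sub_left_injective h) (Set.toFinite _)
    change φ (x - x₀) = 0
    have h1 : φ x = 1 := hx
    have h2 : φ x₀ = 1 := hx₀
    rw [map_sub, h1, h2, sub_self]

theorem partner (h2 : (2 : k) ≠ 0) (B : LinearMap.BilinForm k W) (hB : ∀ x y, B x y = B y x)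
    (n : ℕ) (hn : Module.finrank k W = n + 2) (u : W) (hu : B u u = 0) :
    {v : W | B u v = 1 ∧ B v v = 0}.ncard ≤ Fintype.card k ^ n := by
  have : Finite W := Module.finite_of_finite k
  rcases Set.eq_empty_or_nonempty {v : W | B u v = 1 ∧ B v v = 0} with h | ⟨v₀, hv₀, _⟩
  · rw [h, Set.ncard_empty]
    exact Nat.zero_le _
  have hne : B u ≠ 0 := by
    intro h
    rw [h, LinearMap.zero_apply] at hv₀
    exact zero_ne_one hv₀
  have h3 := hyper (B u) hne (n + 1) hn
  have hQ : 0 < Fintype.card k := Fintype.card_pos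
  have h4 : ({v : W | B u v = 1 ∧ B v v = 0} ×ˢ (Set.univ : Set k)).ncard ≤
      {x : W | B u x = 1}.ncard := by
    refine Set.ncard_le_ncard_of_injOn (fun p => p.1 + p.2 • u) ?_ ?_ (Set.toFinite _)
    · rintro ⟨v, t⟩ ⟨⟨hv1, _⟩, _⟩
      change B u (v + t • u) = 1
      rw [map_add, map_smul, hu, smul_zero, add_zero, hv1]
    · rintro ⟨v, t⟩ ⟨⟨hv1, hv2⟩, _⟩ ⟨v', t'⟩ ⟨⟨hv1', hv2'⟩, _⟩ h
      have h5 : v + t • u = v' + t' • u := h
      have h6 : v' = v + (t - t') • u := by
        rw [sub_smul, ← add_sub_assoc, h5, add_sub_cancel_right]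
      have h7 : B v' v' = 2 * (t - t') := by
        rw [h6]
        simp only [map_add, map_smul, LinearMap.add_apply, LinearMap.smul_apply, smul_eq_mul, hu,
          hv2]
        change B u v = 1 at hv1
        rw [hB v u, hv1]
        ring
      rw [hv2'] at h7
      have h8 : t - t' = 0 := by
        rcases mul_eq_zero.1 h7.symm with h | h
        · exact absurd h h2
        · exact h
      have h9 : t = t' := sub_eq_zero.1 h8
      rw [h8, zero_smul, add_zero] at h6
      rw [h6, h9]
  rw [Set.ncard_prod, Set.ncard_univ, Nat.card_eq_fintype_card] at h4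
  have h5 := h4.trans h3
  rw [pow_succ] at h5
  exact Nat.le_of_mul_le_mul_right h5 hQ

end

/-- orthogonal complement of a hyperbolic pair -/
theorem compl {k : Type} [Field k] {W : Type} [AddCommGroup W] [Module k W]
    [FiniteDimensional k W] (B : LinearMap.BilinForm k W) (hB : ∀ x y, B x y = B y x)
    (hnd : ∀ x, (∀ y, B x y = 0) → x = 0) (n : ℕ) (hn : Module.finrank k W = n + 2) (u v : W)
    (hu : B u u = 0) (hv : B v v = 0) (huv : B u v = 1) :
    ∃ W' : Submodule k W, (∀ x, x ∈ W' ↔ B u x = 0 ∧ B v x = 0) ∧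
      Module.finrank k W' = n ∧ ∀ x : W', (∀ y : W', B x y = 0) → x = 0 := by
  have hvu : B v u = 1 := by rw [hB, huv]
  set φ : W →ₗ[k] k × k := (B u).prod (B v) with hφ
  have hmem : ∀ x, x ∈ LinearMap.ker φ ↔ B u x = 0 ∧ B v x = 0 := by
    intro x
    rw [LinearMap.mem_ker, hφ, LinearMap.prod_apply]
    exact Prod.mk_eq_zero
  have hsurj : Function.Surjective φ := by
    rintro ⟨a, b⟩
    refine ⟨a • v + b • u, ?_⟩
    rw [hφ, LinearMap.prod_apply]
    apply Prod.ext
    · change B u (a • v + b • u) = a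
      rw [map_add, map_smul, map_smul, hu, huv]
      simp
    · change B v (a • v + b • u) = b
      rw [map_add, map_smul, map_smul, hv, hvu]
      simp
  refine ⟨LinearMap.ker φ, hmem, ?_, ?_⟩
  · have h1 := LinearMap.finrank_range_add_finrank_ker φ
    rw [LinearMap.range_eq_top.2 hsurj, finrank_top, Module.finrank_prod, Module.finrank_self,
      hn] at h1
    omega
  · intro x hx
    have hx1 := (hmem _).1 x.2
    apply Subtype.ext
    apply hnd
    intro y
    have hy' : y - (B v y) • u - (B u y) • v ∈ LinearMap.ker φ := by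
      rw [hmem]
      constructor
      · rw [map_sub, map_sub, map_smul, map_smul, hu, huv]
        simp
      · rw [map_sub, map_sub, map_smul, map_smul, hv, hvu]
        simp
    have h1 := hx ⟨_, hy'⟩
    change B x (y - (B v y) • u - (B u y) • v) = 0 at h1
    rw [map_sub, map_sub, map_smul, map_smul, hB (x : W) u, hB (x : W) v, hx1.1, hx1.2] at h1
    simpa using h1

end M_Ug

open M_Ug in
theorem hUg (hUg2 : StUg2) : StUg := by
  intro k _ _ h2 g
  induction g with
  | zero =>
    intro W _ _ _ B hB hnd hfin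
    rcases Set.eq_empty_or_nonempty {w : Ix 0 → W | ∀ i j, B (w i) (w j) = Gm k 0 i j} with
      h | ⟨w₀, hw₀⟩
    · rw [h, Set.ncard_empty]
      exact Nat.zero_le _
    · have hone : ∀ i j : Ix 0, Gm k 0 i j = 1 := by
        intro i j
        unfold Gm
        rw [if_pos]
        exact Subsingleton.elim (α := Fin 1) _ _
      have h3 : {w : Ix 0 → W | ∀ i j, B (w i) (w j) = Gm k 0 i j} ⊆ {w₀, -w₀} := by
        intro w hw
        have h4 : B (w₀ 0) (w₀ 0) = 1 := by rw [hw₀ 0 0, hone]
        have h5 : B (w 0) (w 0) = 1 := by rw [hw 0 0, hone]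
        have h6 : w₀ 0 ≠ 0 := by
          intro h
          rw [h, map_zero] at h4
          exact zero_ne_one h4
        obtain ⟨c, hc⟩ := exists_smul_eq_of_finrank_eq_one (by simpa using hfin) h6 (w 0)
        have h7 : c * c = 1 := by
          rw [← hc, map_smul, map_smul, LinearMap.smul_apply, h4] at h5
          simpa using h5
        rcases mul_self_eq_one_iff.1 h7 with h8 | h8
        · left
          funext i
          have hi : i = 0 := Subsingleton.elim (α := Fin 1) _ _
          rw [hi, ← hc, h8, one_smul]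
        · right
          funext i
          have hi : i = 0 := Subsingleton.elim (α := Fin 1) _ _
          rw [hi, ← hc, h8, neg_one_smul]
          rfl
      refine (Set.ncard_le_ncard h3 (Set.toFinite _)).trans ((Set.ncard_insert_le _ _).trans ?_)
      rw [Set.ncard_singleton]
      simp
  | succ g ih =>
    intro W _ _ _ B hB hnd hfin
    have : Finite W := Module.finite_of_finite k
    have hfin2 : Module.finrank k W = (2 * g + 1) + 2 := by rw [hfin]; ring
    set S := {w : Ix (g + 1) → W | ∀ i j, B (w i) (w j) = Gm k (g + 1) i j} with hS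
    have hiso := hUg2 k h2 (g + 1) W B hB hnd hfin
    have key : ∀ u ∈ {x : W | B x x = 0}, {w ∈ S | w (fst g) = u}.ncard ≤
        2 * Fintype.card k ^ (g * (2 * g + 1)) * Fintype.card k ^ (2 * g + 1) := by
      intro u hu
      have hpart := partner h2 B hB (2 * g + 1) hfin2 u hu
      refine (fib {w ∈ S | w (fst g) = u} {v : W | B u v = 1 ∧ B v v = 0} (fun w => w (lst g))
        ?_ (2 * Fintype.card k ^ (g * (2 * g + 1))) ?_).trans (Nat.mul_le_mul_left _ hpart)
      · rintro w ⟨hw, rfl⟩
        exact ⟨by rw [hw, gm_fl], by rw [hw, gm_ll]⟩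
      · rintro v ⟨huv, hv⟩
        obtain ⟨W', hW', hfin', hnd'⟩ := compl B hB hnd (2 * g + 1) hfin2 u v hu hv huv
        have h3 := ih W' (B.restrict W') (fun x y => hB x y) hnd' hfin'
        refine le_trans ?_ h3
        rw [← Set.ncard_image_of_injective
          {w : Ix g → W' | ∀ i j, (B.restrict W') (w i) (w j) = Gm k g i j}
          (f := fun (w : Ix g → W') (i : Ix g) => ((w i : W') : W)) (by
            intro w w' h
            funext i
            exact Subtype.ext (congrFun h i))]
        refine Set.ncard_le_ncard_of_injOn (fun w i => w (mid g i)) ?_ ?_ (Set.toFinite _)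
        · rintro w ⟨⟨hw, hwu⟩, hwv⟩
          have hmem : ∀ i, w (mid g i) ∈ W' := by
            intro i
            rw [hW', ← hwu, ← hwv]
            exact ⟨by rw [hw, gm_fm], by rw [hw, gm_lm]⟩
          refine ⟨fun i => ⟨w (mid g i), hmem i⟩, fun i j => ?_, rfl⟩
          change B (w (mid g i)) (w (mid g j)) = _
          rw [hw, gm_mid]
        · rintro w ⟨⟨hw, hwu⟩, hwv⟩ w' ⟨⟨hw', hwu'⟩, hwv'⟩ h
          funext i
          rcases cases g i with rfl | rfl | ⟨j, rfl⟩
          · rw [hwu, hwu']
          · exact hwv.trans hwv'.symm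
          · exact congrFun h j
    have h4 := fib S {x : W | B x x = 0} (fun w => w (fst g)) (fun w hw => by
      change B (w (fst g)) (w (fst g)) = 0
      rw [hw, gm_ff]) _ key
    rw [hiso] at h4
    refine h4.trans (le_of_eq ?_)
    rw [mul_assoc, mul_assoc, ← pow_add, ← pow_add]
    congr 2
    ring

end Pool.Agent.Helper3.HY
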