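import Pool.Agent.Helper3.HY.Base
import Pool.Agent.Helper3.HY.StUU

/-!
# HY: hyperbolic pairs over finite fields
-/

set_option autoImplicit false

namespace Pool.Agent.Helper3.HY

open Polynomial Finset

private lemma root_quad (k : Type) [Field k] [Fintype k] (h2 : (2 : k) ≠ 0) (a b c : k)
    (ha : a ≠ 0) (hb : b ≠ 0) : ∃ x y : k, a * x ^ 2 + b * y ^ 2 + c = 0 := by
  have hchar : ringChar k ≠ 2 := by
    intro h
    apply h2
    have := ringChar.Nat.cast_ringChar (R := k)
    rw [h] at this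
    exact_mod_cast this
  have hdf : (C a * X ^ 2 : k[X]).degree = 2 := by
    rw [degree_C_mul_X_pow 2 ha]; rfl
  have hdg : (C b * X ^ 2 + C c : k[X]).degree = 2 := by
    rw [degree_add_eq_left_of_degree_lt]
    · rw [degree_C_mul_X_pow 2 hb]; rfl
    · rw [degree_C_mul_X_pow 2 hb]
      exact lt_of_le_of_lt degree_C_le (by norm_num)
  obtain ⟨x, y, h⟩ := FiniteField.exists_root_sum_quadratic hdf hdg
    (by rw [← Nat.odd_iff]; exact (FiniteField.odd_card_of_char_ne_two hchar) |> Nat.odd_iff.2)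
  refine ⟨x, y, ?_⟩
  simp only [eval_add, eval_mul, eval_C, eval_pow, eval_X] at h
  linear_combination h

theorem hUg1 : StUg1 := by
  intro k _ _ h2 W _ _ _ B hs hnd h3
  have hinv : Invertible (2 : k) := invertibleOfNonzero h2
  have hsymm : LinearMap.IsSymm B := ⟨fun x y => hs x y⟩
  obtain ⟨v, hv⟩ := LinearMap.BilinForm.exists_orthogonal_basis hsymm
  have hd : ∀ i, B (v i) (v i) ≠ 0 := by
    intro i hi
    refine v.ne_zero i (hnd (v i) fun y => ?_)
    rw [← v.sum_repr y, map_sum]
    refine sum_eq_zero fun j _ => ?_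
    rw [map_smul]
    by_cases hij : i = j
    · subst hij; rw [hi, smul_zero]
    · rw [show B (v i) (v j) = 0 from hv hij, smul_zero]
  obtain ⟨u, hu0, huu⟩ : ∃ u : W, u ≠ 0 ∧ B u u = 0 := by
    let i0 : Fin (Module.finrank k W) := ⟨0, by omega⟩
    let i1 : Fin (Module.finrank k W) := ⟨1, by omega⟩
    let i2 : Fin (Module.finrank k W) := ⟨2, by omega⟩
    have h01 : i0 ≠ i1 := by intro h; have := congrArg Fin.val h; simp [i0, i1] at this
    have h02 : i0 ≠ i2 := by intro h; have := congrArg Fin.val h; simp [i0, i2] at this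
    have h12 : i1 ≠ i2 := by intro h; have := congrArg Fin.val h; simp [i1, i2] at this
    obtain ⟨x, y, hxy⟩ := root_quad k h2 (B (v i0) (v i0)) (B (v i1) (v i1)) (B (v i2) (v i2))
      (hd i0) (hd i1)
    refine ⟨x • v i0 + y • v i1 + v i2, ?_, ?_⟩
    · intro h
      have h4 := congrArg (fun w => v.repr w i2) h
      simp [h02, h12] at h4
    · have e1 : B (v i0) (v i1) = 0 := hv h01
      have e2 : B (v i0) (v i2) = 0 := hv h02
      have e3 : B (v i1) (v i2) = 0 := hv h12
      have e4 : B (v i1) (v i0) = 0 := hv h01.symm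
      have e5 : B (v i2) (v i0) = 0 := hv h02.symm
      have e6 : B (v i2) (v i1) = 0 := hv h12.symm
      simp only [map_add, map_smul, LinearMap.add_apply, LinearMap.smul_apply, smul_eq_mul, e1, e2,
        e3, e4, e5, e6]
      linear_combination hxy
  obtain ⟨y, hy⟩ : ∃ y, B u y ≠ 0 := by
    by_contra h
    push Not at h
    exact hu0 (hnd u h)
  refine ⟨u, (B u y)⁻¹ • y - (B ((B u y)⁻¹ • y) ((B u y)⁻¹ • y) / 2) • u, huu, ?_, ?_⟩
  · have h5 : B u ((B u y)⁻¹ • y) = 1 := by
      rw [map_smul, smul_eq_mul, inv_mul_cancel₀ hy]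
    generalize (B u y)⁻¹ • y = w at h5
    have h6 : B w u = 1 := by rw [hs, h5]
    simp only [map_sub, map_smul, LinearMap.sub_apply, LinearMap.smul_apply, smul_eq_mul, huu, h5,
      h6]
    field_simp
    ring
  · rw [map_sub, map_smul, map_smul, smul_eq_mul, smul_eq_mul, huu, inv_mul_cancel₀ hy]
    ring

end Pool.Agent.Helper3.HY
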