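import Pool.Agent.Helper3.HY.Base
import Pool.Agent.Helper3.HY.StUU

/-!
# HY: the number of isotropic vectors
-/

set_option autoImplicit false

namespace Pool.Agent.Helper3.HY

open Polynomial Finset

namespace Ug2

section hyp

variable {k : Type} [Field k] {W : Type} [AddCommGroup W] [Module k W]

/-- The orthogonal complement of a pair of vectors. -/
def perp (B : LinearMap.BilinForm k W) (u v : W) : Submodule k W :=
  LinearMap.ker (B u) ⊓ LinearMap.ker (B v)

lemma mem_perp {B : LinearMap.BilinForm k W} {u v x : W} :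
    x ∈ perp B u v ↔ B u x = 0 ∧ B v x = 0 := by
  rw [perp, Submodule.mem_inf, LinearMap.mem_ker, LinearMap.mem_ker]

/-- The decomposition of the space attached to a hyperbolic pair. -/
noncomputable def hypEquiv (B : LinearMap.BilinForm k W) (hs : ∀ x y, B x y = B y x) (u v : W)
    (huu : B u u = 0) (hvv : B v v = 0) (huv : B u v = 1) : W ≃ₗ[k] (k × k) × perp B u v where
  toFun x := ((B v x, B u x), ⟨x - (B v x) • u - (B u x) • v, by
    rw [mem_perp]
    constructor
    · simp [huu, huv]
    · simp [hvv, hs v u, huv]⟩)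
  invFun p := p.1.1 • u + p.1.2 • v + p.2
  map_add' x y := by
    ext
    · simp
    · simp
    · simp only [map_add, Prod.snd_add, Submodule.coe_add]
      module
  map_smul' c x := by
    ext
    · simp
    · simp
    · simp only [map_smul, Prod.smul_snd, Submodule.coe_smul, RingHom.id_apply, smul_eq_mul]
      module
  left_inv x := by
    simp only
    module
  right_inv p := by
    obtain ⟨⟨a, b⟩, ⟨w, hw⟩⟩ := p
    rw [mem_perp] at hw
    have h1 : B v (a • u + b • v + w) = a := by
      simp [hvv, hs v u, huv, hw.2]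
    have h2 : B u (a • u + b • v + w) = b := by
      simp [huu, huv, hw.1]
    ext
    · exact h1
    · exact h2
    · simp only [h1, h2]
      module

lemma hypEquiv_symm (B : LinearMap.BilinForm k W) (hs : ∀ x y, B x y = B y x) (u v : W)
    (huu : B u u = 0) (hvv : B v v = 0) (huv : B u v = 1) (p : (k × k) × perp B u v) :
    (hypEquiv B hs u v huu hvv huv).symm p = p.1.1 • u + p.1.2 • v + p.2 := rfl

lemma form_symm (B : LinearMap.BilinForm k W) (hs : ∀ x y, B x y = B y x) (u v : W)
    (huu : B u u = 0) (hvv : B v v = 0) (huv : B u v = 1) (p : (k × k) × perp B u v) :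
    B ((hypEquiv B hs u v huu hvv huv).symm p) ((hypEquiv B hs u v huu hvv huv).symm p) =
      2 * p.1.1 * p.1.2 + B p.2 p.2 := by
  obtain ⟨⟨a, b⟩, ⟨w, hw⟩⟩ := p
  rw [mem_perp] at hw
  rw [hypEquiv_symm]
  simp only [map_add, map_smul, LinearMap.add_apply, LinearMap.smul_apply, smul_eq_mul, huu, hvv,
    huv, hs v u, hw.1, hw.2, hs w u, hs w v]
  ring

lemma perp_nondeg (B : LinearMap.BilinForm k W) (hs : ∀ x y, B x y = B y x)
    (hnd : ∀ x, (∀ y, B x y = 0) → x = 0) (u v : W)
    (huu : B u u = 0) (hvv : B v v = 0) (huv : B u v = 1) (x : perp B u v)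
    (hx : ∀ y, B.restrict (perp B u v) x y = 0) : x = 0 := by
  refine Subtype.ext (hnd x fun y => ?_)
  rw [← (hypEquiv B hs u v huu hvv huv).symm_apply_apply y, hypEquiv_symm]
  have h1 := mem_perp.1 x.2
  have h2 := hx ((hypEquiv B hs u v huu hvv huv) y).2
  rw [LinearMap.BilinForm.restrict_apply] at h2
  simp only [LinearMap.domRestrict_apply] at h2
  rw [map_add, map_add, map_smul, map_smul, hs x u, hs x v, h1.1, h1.2]
  simpa using h2

lemma finrank_perp [FiniteDimensional k W] (B : LinearMap.BilinForm k W)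
    (hs : ∀ x y, B x y = B y x) (u v : W)
    (huu : B u u = 0) (hvv : B v v = 0) (huv : B u v = 1) :
    Module.finrank k W = 2 + Module.finrank k (perp B u v) := by
  rw [(hypEquiv B hs u v huu hvv huv).finrank_eq, Module.finrank_prod, Module.finrank_prod,
    Module.finrank_self]

end hyp

lemma count_aux {k : Type} [Field k] [Fintype k] (h2 : (2 : k) ≠ 0) {V : Type} [Finite V]
    (f : V → k) :
    {p : (k × k) × V | 2 * p.1.1 * p.1.2 + f p.2 = 0}.ncard =
      Fintype.card k * {w : V | f w = 0}.ncard + (Fintype.card k - 1) * Nat.card V := by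
  classical
  have e : {p : (k × k) × V | 2 * p.1.1 * p.1.2 + f p.2 = 0} =
      (fun q : k × V => (((0 : k), q.1), q.2)) '' (Set.univ ×ˢ {w : V | f w = 0}) ∪
      (fun q : k × V => ((q.1, -f q.2 / (2 * q.1)), q.2)) '' ({0}ᶜ ×ˢ Set.univ) := by
    ext ⟨⟨a, b⟩, w⟩
    constructor
    · intro h
      simp only [Set.mem_setOf_eq] at h
      by_cases ha : a = 0
      · left
        refine ⟨(b, w), ⟨trivial, ?_⟩, ?_⟩
        · rw [ha] at h
          simpa using h
        · rw [ha]
      · right
        refine ⟨(a, w), ⟨ha, trivial⟩, ?_⟩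
        simp only [Prod.mk.injEq, true_and, and_true]
        field_simp
        linear_combination -h
    · rintro (⟨⟨b', w'⟩, ⟨-, h⟩, h'⟩ | ⟨⟨a', w'⟩, ⟨h, -⟩, h'⟩)
      · simp only [Prod.mk.injEq] at h'
        obtain ⟨⟨rfl, rfl⟩, rfl⟩ := h'
        simpa using h
      · simp only [Prod.mk.injEq] at h'
        obtain ⟨⟨rfl, rfl⟩, rfl⟩ := h'
        have h3 : a' ≠ 0 := h
        simp only [Set.mem_setOf_eq]
        field_simp
        ring
  rw [e, Set.ncard_union_eq, Set.ncard_image_of_injective, Set.ncard_image_of_injective,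
    Set.ncard_prod, Set.ncard_prod, Set.ncard_univ, Set.ncard_univ, Set.ncard_compl,
    Set.ncard_singleton, Nat.card_eq_fintype_card (α := k)]
  · rintro ⟨a, w⟩ ⟨a', w'⟩ h
    simp only [Prod.mk.injEq] at h
    rw [h.1.1, h.2]
  · rintro ⟨a, w⟩ ⟨a', w'⟩ h
    simp only [Prod.mk.injEq, true_and] at h
    rw [h.1, h.2]
  · rw [Set.disjoint_left]
    rintro _ ⟨q, -, rfl⟩ ⟨q', ⟨h, -⟩, h'⟩
    simp only [Prod.mk.injEq] at h'
    exact h h'.1.1

end Ug2

theorem hUg2 (hUg1 : StUg1) : StUg2 := by
  intro k _ _ h2 g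
  induction g with
  | zero =>
    intro W _ _ _ B hs hnd hf
    obtain ⟨w, hw0, hw⟩ := finrank_eq_one_iff'.1 hf
    have hww : B w w ≠ 0 := by
      intro h
      refine hw0 (hnd w fun y => ?_)
      obtain ⟨c, rfl⟩ := hw y
      rw [map_smul, h, smul_zero]
    have : {x : W | B x x = 0} = {0} := by
      ext x
      rw [Set.mem_setOf_eq, Set.mem_singleton_iff]
      constructor
      · intro h
        obtain ⟨c, rfl⟩ := hw x
        rw [map_smul, map_smul, LinearMap.smul_apply, smul_eq_mul, smul_eq_mul] at h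
        rcases mul_eq_zero.1 h with h | h
        · rw [h, zero_smul]
        · rcases mul_eq_zero.1 h with h | h
          · rw [h, zero_smul]
          · exact absurd h hww
      · rintro rfl
        rw [map_zero]
    rw [this, Set.ncard_singleton, Nat.mul_zero, pow_zero]
  | succ g ih =>
    intro W _ _ _ B hs hnd hf
    obtain ⟨u, v, huu, hvv, huv⟩ := hUg1 k h2 W B hs hnd (by omega)
    have hfin : Finite W := Module.finite_of_finite k
    have hfr := Ug2.finrank_perp B hs u v huu hvv huv
    have h1 := ih (Ug2.perp B u v) (B.restrict (Ug2.perp B u v)) (fun x y => hs x y)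
      (Ug2.perp_nondeg B hs hnd u v huu hvv huv) (by omega)
    have h3 : {x : W | B x x = 0} = (Ug2.hypEquiv B hs u v huu hvv huv).symm ''
        {p | 2 * p.1.1 * p.1.2 + B p.2 p.2 = 0} := by
      ext x
      constructor
      · intro hx
        refine ⟨Ug2.hypEquiv B hs u v huu hvv huv x, ?_, LinearEquiv.symm_apply_apply _ _⟩
        rw [Set.mem_setOf_eq, ← Ug2.form_symm B hs u v huu hvv huv, LinearEquiv.symm_apply_apply]
        exact hx
      · rintro ⟨p, hp, rfl⟩
        rw [Set.mem_setOf_eq, Ug2.form_symm]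
        exact hp
    rw [h3, Set.ncard_image_of_injective _ (LinearEquiv.injective _),
      Ug2.count_aux h2 (fun w : Ug2.perp B u v => B w w)]
    have h4 : {w : Ug2.perp B u v | B w w = 0}.ncard = Fintype.card k ^ (2 * g) := h1
    have h5 : Nat.card (Ug2.perp B u v) = Fintype.card k ^ (2 * g + 1) := by
      rw [Module.natCard_eq_pow_finrank (K := k), Nat.card_eq_fintype_card]
      congr 1
      omega
    rw [h4, h5]
    have h6 : 1 ≤ Fintype.card k := Fintype.card_pos
    obtain ⟨q, hq⟩ := Nat.exists_eq_add_of_le' h6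
    rw [hq, Nat.add_sub_cancel]
    ring

end Pool.Agent.Helper3.HY
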