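import Pool.Agent.Helper3.HY.St
import Pool.Agent.Helper54.PT.DefsC

/-!
# HY: the twist with trivial Selmer group
-/

set_option autoImplicit false

namespace Pool.Agent.Helper3.HY

open Polynomial Finset Filter Topology Matrix IsDedekindDomain
open Pool.Agent.Helper54.PT (Prm prm mem_prm IsAbsP)

/-- The coordinate lemma: an isotropic set of vectors is transversal to a coordinate Lagrangian. -/
theorem coord_lemma {ι : Type} [Fintype ι] [DecidableEq ι] (X : Set (ι → ZMod 2 × ZMod 2))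
    (hiso : ∀ x ∈ X, ∀ y ∈ X, ∑ i, ((x i).1 * (y i).2 + (y i).1 * (x i).2) = 0) (η : ι → ZMod 2) :
    ∃ R : Finset ι, ∀ x ∈ X, (∀ i, i ∉ R → (x i).1 = 0) →
      (∀ i ∈ R, x i = 0 ∨ x i = (1, η i)) → x = 0 := by
  classical
  let W : Finset ι → Set (ι → ZMod 2 × ZMod 2) := fun R =>
    {x | x ∈ X ∧ (∀ i, i ∉ R → (x i).1 = 0) ∧ ∀ i ∈ R, x i = 0 ∨ x i = (1, η i)}
  obtain ⟨R, -, hR⟩ := exists_min_image (univ : Finset (Finset ι)) (fun R => (W R).ncard)
    ⟨∅, mem_univ _⟩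
  refine ⟨R, fun x hx h1 h2 => ?_⟩
  by_contra hne
  obtain ⟨i, hi⟩ : ∃ i, x i ≠ 0 := by
    by_contra h; push Not at h; exact hne (funext h)
  set R' : Finset ι := if i ∈ R then R.erase i else insert i R with hR'
  have hxW : x ∈ W R := ⟨hx, h1, h2⟩
  have hmem : ∀ j, j ≠ i → (j ∈ R' ↔ j ∈ R) := by
    intro j hj
    by_cases h : i ∈ R
    · rw [hR', if_pos h, mem_erase]; exact ⟨fun h => h.2, fun h => ⟨hj, h⟩⟩
    · rw [hR', if_neg h, mem_insert]; exact ⟨fun h => h.resolve_left hj, Or.inr⟩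
  have hii : i ∈ R' ↔ i ∉ R := by
    by_cases h : i ∈ R
    · rw [hR', if_pos h]; simp [h]
    · rw [hR', if_neg h]; simp [h]
  -- the local structure at j
  have hloc : ∀ y ∈ W R', ∀ j, j ≠ i → (x j).1 * (y j).2 + (y j).1 * (x j).2 = 0 := by
    intro y hy j hj
    by_cases h : j ∈ R
    · rcases h2 j h with h3 | h3 <;> rcases hy.2.2 j ((hmem j hj).2 h) with h4 | h4 <;>
        rw [h3, h4] <;> simp
      exact CharTwo.add_self_eq_zero _
    · rw [h1 j h, hy.2.1 j fun h' => h ((hmem j hj).1 h')]; simp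
  have hyi : ∀ y ∈ W R', y i = 0 := by
    intro y hy
    have h3 := hiso x hx y hy.1
    rw [sum_eq_single i (fun j _ hj => hloc y hy j hj) (fun h => absurd (mem_univ i) h)] at h3
    by_cases h : i ∈ R
    · have h4 : (y i).1 = 0 := hy.2.1 i fun h' => hii.1 h' h
      rcases h2 i h with h5 | h5
      · exact absurd h5 hi
      · rw [h5, h4] at h3
        simp only [one_mul, zero_mul, add_zero] at h3
        exact Prod.ext h4 h3
    · have h4 : (x i).1 = 0 := h1 i h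
      rcases hy.2.2 i (hii.2 h) with h5 | h5
      · exact h5
      · rw [h5, h4] at h3
        simp only [one_mul, zero_mul, zero_add] at h3
        exact absurd (Prod.ext h4 h3) hi
  have hsub : W R' ⊆ W R := by
    intro y hy
    refine ⟨hy.1, fun j hj => ?_, fun j hj => ?_⟩
    · by_cases h : j = i
      · subst h; rw [hyi y hy]; rfl
      · exact hy.2.1 j fun h' => hj ((hmem j h).1 h')
    · by_cases h : j = i
      · subst h; exact Or.inl (hyi y hy)
      · exact hy.2.2 j ((hmem j h).2 hj)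
  have hnot : x ∉ W R' := fun h => hi (hyi x h)
  have hlt : (W R').ncard < (W R).ncard :=
    Set.ncard_lt_ncard ⟨hsub, fun h => hnot (h hxW)⟩ (Set.toFinite _)
  exact absurd (hR R' (mem_univ _)) (not_le.2 hlt)

open Classical in
theorem tw_of (hTrans : StTrans) (hOver : StOver) (hQ : StQ) (hQ3 : StQ3) (hI1 : StI1)
    (hEven : StEven) (hLine : StLine) (hIso : StIso)
    (hAbs : ∀ (F : Type) [Field F] [Finite F] (P : Prm F), ∃ v : AbsoluteValue (RatFunc F) ℝ,
      v.IsNontrivial ∧ IsAbsP P v) : StTw := by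
  intro F _ _ h2 g d hg T T' hdis σ hσ f hf _ _ _ htriv
  obtain ⟨hfam, hinf, hcl, hsm⟩ := hf
  have hm : f.Monic := hfam.1
  have hdeg : f.natDegree = 2 * g + 1 := hfam.2.1
  have hT : ∀ P ∈ T, f.map (red P) ∈ TType (kp P) g := by
    intro P hP
    have := hcl P (mem_union_left _ hP)
    rwa [Cls, if_pos hP] at this
  have hT' : ∀ P ∈ T', f.map (red P) ∈ IType (kp P) g := by
    intro P hP
    have := hcl P (mem_union_right _ hP)
    rwa [Cls, if_neg (fun h => (disjoint_left.1 hdis h) hP)] at this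
  have hqex : ∀ P : Prm F, ∃ q : HeightOneSpectrum (RR f), P ∈ T → IsQ g P q := by
    intro P
    by_cases hP : P ∈ T
    · obtain ⟨q, hq⟩ := hQ F g hg f hm P (hT P hP)
      exact ⟨q, fun _ => hq⟩
    · exact ⟨(hOver F f hm).1.some, fun h => absurd h hP⟩
  choose q hq using hqex
  have hηex : ∀ P : Prm F, ∃ η : ZMod 2, P ∈ T → ∀ D : F[X], ¬ P.1 ∣ D →
      ∀ v : AbsoluteValue (RatFunc F) ℝ, v.IsNontrivial →
      IsAbsP P v → ∀ z : (LL f)ˣ, TwAt f (P.1 * D) v z →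
      (om (q P) (z : LL f) = 0 ∧ ep P (q P) (z : LL f) = 0) ∨
        (om (q P) (z : LL f) = 1 ∧ ep P (q P) (z : LL f) = η) := by
    intro P
    by_cases hP : P ∈ T
    · obtain ⟨η, hη⟩ := hLine F h2 g hg f hm hdeg P (hT P hP) (q P) (hq P hP)
      exact ⟨η, fun _ => hη⟩
    · exact ⟨0, fun h => absurd h hP⟩
  choose η hη using hηex
  let X : Set (T → ZMod 2 × ZMod 2) := {x | ∃ z : LL f, z ≠ 0 ∧
    IsSquare (Algebra.norm (RatFunc F) z) ∧ (∀ v, (∀ P ∈ T, v ≠ q P) → EvenAt v z) ∧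
    ∀ P : T, x P = (om (q P) z, ep P.1 (q P) z)}
  have hXiso : ∀ x ∈ X, ∀ y ∈ X, ∑ i, ((x i).1 * (y i).2 + (y i).1 * (x i).2) = 0 := by
    rintro x ⟨z, hz0, hzN, hze, hzx⟩ y ⟨w, hw0, hwN, hwe, hwy⟩
    have := hIso F h2 g d hg f hfam hinf T hT q hq z w hz0 hw0 hzN hwN hze hwe
    rw [← this, ← sum_coe_sort T]
    exact sum_congr rfl fun P _ => by rw [hzx P, hwy P]
  obtain ⟨R₀, hR₀⟩ := coord_lemma X hXiso fun P => η P.1
  set R : Finset (Prm F) := R₀.map (Function.Embedding.subtype _) with hR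
  have hRT : R ⊆ T := by
    intro P hP
    obtain ⟨Q, -, rfl⟩ := Finset.mem_map.1 hP
    exact Q.2
  have hmemR : ∀ P : T, P.1 ∈ R ↔ P ∈ R₀ := by
    intro P
    rw [hR, Finset.mem_map]
    constructor
    · rintro ⟨Q, hQ1, hQ2⟩
      have : Q = P := Subtype.ext hQ2
      rwa [← this]
    · intro h; exact ⟨P, h, rfl⟩
  refine ⟨R, hRT, ?_⟩
  have hD0 : DR T σ R ≠ 0 := mul_ne_zero (prod_ne_zero_iff.2 fun P _ => P.2.2.ne_zero)
      (prod_ne_zero_iff.2 fun P _ => (σ P).2.2.ne_zero)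
  refine hTrans F g f (DR T σ R) hm hdeg hD0 fun z hzN hzv => ?_
  have hz0 : (z : LL f) ≠ 0 := z.ne_zero
  -- divisibility of D
  have hprim : ∀ P : Prm F, Prime P.1 := fun P => P.2.2.prime
  have hdvd : ∀ P Q : Prm F, P.1 ∣ Q.1 → P = Q := by
    intro P Q h
    exact Subtype.ext (eq_of_monic_of_associated P.2.1 Q.2.1
      ((P.2.2.associated_of_dvd Q.2.2) h))
  have hnd : ∀ P : Prm F, P ∉ R → P ∉ T' → ¬ P.1 ∣ DR T σ R := by
    intro P hP hP' h
    rcases (hprim P).dvd_mul.1 h with h | h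
    · obtain ⟨Q, hQ1, hQ2⟩ := (hprim P).exists_mem_finset_dvd h
      exact hP (hdvd P Q hQ2 ▸ hQ1)
    · obtain ⟨Q, hQ1, hQ2⟩ := (hprim P).exists_mem_finset_dvd h
      exact hP' (hdvd P (σ Q) hQ2 ▸ hσ Q (mem_sdiff.1 hQ1).1)
  have hsplit : ∀ P ∈ R, ∃ D' : F[X], DR T σ R = P.1 * D' ∧ ¬ P.1 ∣ D' := by
    intro P hP
    refine ⟨(∏ Q ∈ R.erase P, Q.1) * ∏ Q ∈ T \ R, (σ Q).1, ?_, ?_⟩
    · rw [DR, ← mul_assoc, mul_prod_erase R (fun Q => Q.1) hP]
    · intro h
      rcases (hprim P).dvd_mul.1 h with h | h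
      · obtain ⟨Q, hQ1, hQ2⟩ := (hprim P).exists_mem_finset_dvd h
        exact (mem_erase.1 hQ1).1 (hdvd P Q hQ2).symm
      · obtain ⟨Q, hQ1, hQ2⟩ := (hprim P).exists_mem_finset_dvd h
        have h3 := hσ Q (mem_sdiff.1 hQ1).1
        rw [← hdvd P (σ Q) hQ2] at h3
        exact disjoint_left.1 hdis (hRT hP) h3
  -- evenness away from the q P
  have heven : ∀ v, (∀ P ∈ T, v ≠ q P) → EvenAt v (z : LL f) := by
    intro v hv
    obtain ⟨P, hP⟩ := (hOver F f hm).2 v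
    by_cases h1 : P ∈ T
    · exact (hQ3 F h2 g hg f hm P (hT P h1) (q P) (hq P h1) z hz0 hzN).1 v hP (hv P h1)
    by_cases h3 : P ∈ T'
    · exact (hI1 F h2 g hg f hm P (hT' P h3) z hz0 hzN).1 v hP
    · obtain ⟨w, hw1, hw2⟩ := hAbs F P
      exact hEven F h2 g hg f hm hdeg P (DR T σ R) (hnd P (fun h => h1 (hRT h)) h3) w hw1 hw2 z
        (hzv w hw1) v hP
  have hx0 := hR₀ (fun P => (om (q P) (z : LL f), ep P.1 (q P) (z : LL f)))
    ⟨z, hz0, hzN, heven, fun P => rfl⟩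
    (by
      intro P hP
      obtain ⟨w, hw1, hw2⟩ := hAbs F P.1
      have hPT' : P.1 ∉ T' := disjoint_left.1 hdis P.2
      have := hEven F h2 g hg f hm hdeg P.1 (DR T σ R) (hnd P.1 (fun h => hP ((hmemR P).1 h)) hPT')
        w hw1 hw2 z (hzv w hw1) (q P) (hq P P.2).1
      simp only [om, if_pos this])
    (by
      intro P hP
      obtain ⟨w, hw1, hw2⟩ := hAbs F P.1
      obtain ⟨D', hD', hD''⟩ := hsplit P.1 ((hmemR P).2 hP)
      have hz' := hzv w hw1
      rw [hD'] at hz'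
      rcases hη P P.2 D' hD'' w hw1 hw2 z hz' with h | h
      · left; exact Prod.ext h.1 h.2
      · right; exact Prod.ext h.1 h.2)
  have hx0' : ∀ P (hP : P ∈ T), om (q P) (z : LL f) = 0 ∧ ep P (q P) (z : LL f) = 0 := by
    intro P hP
    have := congrFun hx0 ⟨P, hP⟩
    exact ⟨congrArg Prod.fst this, congrArg Prod.snd this⟩
  have hsq : IsSquare (z : LL f) := by
    refine htriv z hz0 hzN (fun v => ?_) (fun P hP => ?_)
    · by_cases h : ∀ P ∈ T, v ≠ q P
      · exact heven v h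
      · push Not at h
        obtain ⟨P, hP, rfl⟩ := h
        by_contra hne
        have := (hx0' P hP).1
        rw [om, if_neg hne] at this
        exact one_ne_zero this
    · rcases mem_union.1 hP with h | h
      · exact (hQ3 F h2 g hg f hm P (hT P h) (q P) (hq P h) z hz0 hzN).2 (hx0' P h).1 (hx0' P h).2
      · exact (hI1 F h2 g hg f hm P (hT' P h) z hz0 hzN).2
  obtain ⟨y, hy⟩ := hsq
  have hy0 : y ≠ 0 := by rintro rfl; exact hz0 (by rw [hy, mul_zero])
  exact ⟨Units.mk0 y hy0, Units.ext (by rw [Units.val_mul, Units.val_mk0]; exact hy)⟩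

end Pool.Agent.Helper3.HY
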