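import Pool.Agent.Helper3.HY.St

/-!
# HY: basic lemmas for part U
-/

set_option autoImplicit false

namespace Pool.Agent.Helper3.HY

open Polynomial Finset Filter Topology Matrix IsDedekindDomain
open Pool.Agent.Helper54.PT (Prm prm)

section gm

variable {B : Type} [CommRing B] {g : ℕ}

lemma Gm_apply (i j : Ix g) : Gm B g i j = if j = Fin.rev i then 1 else 0 := rfl

lemma eq_rev_comm (i j : Ix g) : j = Fin.rev i ↔ i = Fin.rev j := by
  constructor
  · rintro rfl; rw [Fin.rev_rev]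
  · rintro rfl; rw [Fin.rev_rev]

lemma Gm_transpose : (Gm B g)ᵀ = Gm B g := by
  ext i j
  rw [transpose_apply, Gm_apply, Gm_apply]
  simp only [eq_rev_comm i j]

lemma Gm_mul_apply (b : Matrix (Ix g) (Ix g) B) (i j : Ix g) :
    (Gm B g * b) i j = b (Fin.rev i) j := by
  rw [mul_apply]
  simp only [Gm_apply, ite_mul, one_mul, zero_mul, sum_ite_eq', mem_univ, if_true]

lemma mul_Gm_apply (b : Matrix (Ix g) (Ix g) B) (i j : Ix g) :
    (b * Gm B g) i j = b i (Fin.rev j) := by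
  rw [mul_apply]
  simp only [Gm_apply, mul_ite, mul_one, mul_zero, eq_rev_comm _ j, sum_ite_eq', mem_univ,
    if_true]

lemma Gm_mul_Gm : Gm B g * Gm B g = 1 := by
  ext i j
  rw [Gm_mul_apply, Gm_apply, Fin.rev_rev, one_apply]
  simp only [eq_comm]

lemma Gm_map {B' : Type} [CommRing B'] (φ : B →+* B') : (Gm B g).map φ = Gm B' g := by
  ext i j
  rw [map_apply, Gm_apply, Gm_apply]
  split_ifs
  · exact map_one φ
  · exact map_zero φ

lemma Gm_symm (i j : Ix g) : Gm B g i j = Gm B g j i := by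
  rw [Gm_apply, Gm_apply]
  simp only [eq_rev_comm i j]

end gm

section nu

variable {g : ℕ} {m : Fin g → ℕ}

lemma nu_rev (i : Ix g) : nu g m (Fin.rev i) = -nu g m i := by
  have h1 : (Fin.rev i).1 = 2 * g - i.1 := by rw [Fin.val_rev]; omega
  have hi := i.2
  rcases lt_trichotomy i.1 g with h | h | h
  · rw [nu, nu, dif_neg (by omega), dif_pos (by omega), dif_pos h, neg_neg]
    congr 2
    apply Fin.ext
    simp only [h1]; omega
  · rw [nu, nu, dif_neg (by omega), dif_neg (by omega), dif_neg (by omega), dif_neg (by omega)]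
    rfl
  · rw [nu, nu, dif_pos (by omega), dif_neg (by omega), dif_pos h]
    congr 3
    exact Fin.ext h1

lemma nu_of_lt {i : Ix g} (h : i.1 < g) : nu g m i = -(m ⟨i.1, h⟩ : ℤ) := by rw [nu, dif_pos h]

lemma nu_mid {i : Ix g} (h : i.1 = g) : nu g m i = 0 := by
  rw [nu, dif_neg (by omega), dif_neg (by omega)]

lemma nu_of_gt {i : Ix g} (h : g < i.1) : nu g m i = (m ⟨2 * g - i.1, by omega⟩ : ℤ) := by
  rw [nu, dif_neg (by omega), dif_pos h]

lemma abs_nu_le (hg : 1 ≤ g) (hm : Antitone m) (i : Ix g) : |nu g m i| ≤ m ⟨0, hg⟩ := by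
  have h0 : ∀ j : Fin g, m j ≤ m ⟨0, hg⟩ := fun j => hm (by rw [Fin.le_def]; exact Nat.zero_le _)
  rcases lt_trichotomy i.1 g with h | h | h
  · rw [nu_of_lt h, abs_neg, Nat.abs_cast]; exact_mod_cast h0 _
  · rw [nu_mid h, abs_zero]; positivity
  · rw [nu_of_gt h, Nat.abs_cast]; exact_mod_cast h0 _

lemma neg_le_nu (hg : 1 ≤ g) (hm : Antitone m) (i : Ix g) : -(m ⟨0, hg⟩ : ℤ) ≤ nu g m i :=
  (abs_le.1 (abs_nu_le hg hm i)).1

lemma nu_le (hg : 1 ≤ g) (hm : Antitone m) (i : Ix g) : nu g m i ≤ m ⟨0, hg⟩ :=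
  (abs_le.1 (abs_nu_le hg hm i)).2

lemma sum_nu : ∑ i : Ix g, nu g m i = 0 := by
  have h : ∑ i : Ix g, nu g m i = ∑ i : Ix g, nu g m (Fin.rev i) :=
    (Equiv.sum_comp Fin.revPerm _).symm
  simp only [nu_rev, sum_neg_distrib] at h
  omega

/-- `ν` is monotone. -/
lemma nu_mono (hm : Antitone m) : Monotone (nu g m) := by
  intro i j hij
  have hij' : i.1 ≤ j.1 := hij
  have hj := j.2
  rcases lt_trichotomy i.1 g with h | h | h <;> rcases lt_trichotomy j.1 g with h' | h' | h'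
  · rw [nu_of_lt h, nu_of_lt h', neg_le_neg_iff]
    exact_mod_cast hm (by rw [Fin.le_def]; exact hij')
  · rw [nu_of_lt h, nu_mid h']; have : (0 : ℤ) ≤ m ⟨i.1, h⟩ := by positivity
    linarith
  · rw [nu_of_lt h, nu_of_gt h']
    have : (0 : ℤ) ≤ m ⟨i.1, h⟩ := by positivity
    have : (0 : ℤ) ≤ m ⟨2 * g - j.1, by omega⟩ := by positivity
    linarith
  · omega
  · rw [nu_mid h, nu_mid h']
  · rw [nu_mid h, nu_of_gt h']; positivity
  · omega
  · omega
  · rw [nu_of_gt h, nu_of_gt h']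
    exact_mod_cast hm (by rw [Fin.le_def]; simp only; omega)

end nu

section deg

variable {F : Type} [Field F]

lemma mem_degreeLT_iff {p : F[X]} {e : ℤ} :
    p ∈ degreeLT F (e + 1).toNat ↔ (p = 0 ∨ (p.natDegree : ℤ) ≤ e) := by
  rw [mem_degreeLT]
  by_cases hp : p = 0
  · subst hp
    simp only [degree_zero, true_or, iff_true]
    exact WithBot.bot_lt_coe _
  · rw [degree_eq_natDegree hp]
    simp only [hp, false_or, Nat.cast_lt]
    omega

lemma zero_or_natDegree_mul {a b : F[X]} {x y : ℤ} (ha : a = 0 ∨ (a.natDegree : ℤ) ≤ x)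
    (hb : b = 0 ∨ (b.natDegree : ℤ) ≤ y) : a * b = 0 ∨ ((a * b).natDegree : ℤ) ≤ x + y := by
  rcases ha with rfl | ha
  · exact Or.inl (zero_mul _)
  rcases hb with rfl | hb
  · exact Or.inl (mul_zero _)
  right
  have := natDegree_mul_le (p := a) (q := b)
  omega

lemma zero_or_natDegree_add {a b : F[X]} {x : ℤ} (ha : a = 0 ∨ (a.natDegree : ℤ) ≤ x)
    (hb : b = 0 ∨ (b.natDegree : ℤ) ≤ x) : a + b = 0 ∨ ((a + b).natDegree : ℤ) ≤ x := by
  rcases ha with rfl | ha
  · rw [zero_add]; exact hb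
  rcases hb with rfl | hb
  · rw [add_zero]; exact Or.inr ha
  right
  have := natDegree_add_le a b
  omega

lemma zero_or_natDegree_sum {ι : Type} {s : Finset ι} {a : ι → F[X]} {x : ℤ}
    (h : ∀ i ∈ s, a i = 0 ∨ ((a i).natDegree : ℤ) ≤ x) :
    ∑ i ∈ s, a i = 0 ∨ ((∑ i ∈ s, a i).natDegree : ℤ) ≤ x := by
  classical
  induction s using Finset.induction_on with
  | empty => left; exact sum_empty
  | insert i s hi ih =>
    rw [sum_insert hi]
    exact zero_or_natDegree_add (h i (mem_insert_self _ _))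
      (ih fun j hj => h j (mem_insert_of_mem hj))

end deg

section kp

variable {F : Type} [Field F]

lemma prm_natDegree_pos (P : Prm F) : 0 < P.1.natDegree := P.2.2.natDegree_pos

lemma finite_kp [Finite F] (P : Prm F) : Finite (kp P) := by
  have : Module.Finite F (kp P) := (AdjoinRoot.powerBasis P.2.2.ne_zero).finite
  exact Module.finite_of_finite F

lemma card_kp [Fintype F] (P : Prm F) : Nat.card (kp P) = Fintype.card F ^ P.1.natDegree := by
  have : Module.Finite F (kp P) := (AdjoinRoot.powerBasis P.2.2.ne_zero).finite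
  rw [Module.natCard_eq_pow_finrank (K := F) (V := kp P), Nat.card_eq_fintype_card,
    (AdjoinRoot.powerBasis P.2.2.ne_zero).finrank, AdjoinRoot.powerBasis_dim]

lemma two_ne_zero_kp (h2 : (2 : F) ≠ 0) (P : Prm F) : (2 : kp P) ≠ 0 := by
  have h : (2 : kp P) = algebraMap F (kp P) 2 := by rw [map_ofNat]
  rw [h]
  exact (_root_.map_ne_zero _).2 h2

/-- `LocGood` consists of symmetric matrices. -/
lemma LocGood.symm {k : Type} [Field k] {g : ℕ} {S : Set k[X]} {b : Matrix (Ix g) (Ix g) k}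
    (hb : b ∈ LocGood k g S) : b.IsSymm := by
  obtain ⟨h, -, hm, -, w, -, h2⟩ := hb
  ext i j
  rw [transpose_apply, ← h2, ← h2]
  congr 1
  ring

end kp

end Pool.Agent.Helper3.HY
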