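import Pool.Agent.Helper3.HY.Base
import Pool.Agent.Helper3.HY.StC

/-!
# HY, module Cd: `R` is selfdual for `tau`
-/

set_option autoImplicit false

namespace Pool.Agent.Helper3.HY

open Polynomial Finset Filter Topology Matrix IsDedekindDomain

namespace M_Cd

theorem shift_top {B : Type} [CommRing B] [Nontrivial B] {h : B[X]} (hm : h.Monic) {j : ℕ}
    (hj : j < h.natDegree) (w : AdjoinRoot h) (hw : ∀ i, h.natDegree - j ≤ i → co hm i w = 0) :
    tau hm (w * AdjoinRoot.root h ^ j) = co hm (h.natDegree - 1 - j) w := by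
  obtain ⟨q, rfl⟩ := AdjoinRoot.mk_surjective w
  have h1 : AdjoinRoot.mk h q = AdjoinRoot.mk h (q %ₘ h) := by
    rw [AdjoinRoot.mk_eq_mk]
    exact ⟨q /ₘ h, by rw [sub_eq_iff_eq_add, add_comm, modByMonic_add_div q h]⟩
  have hdeg : ((q %ₘ h) * X ^ j).degree < h.degree := by
    rw [degree_eq_natDegree hm.ne_zero, degree_lt_iff_coeff_zero]
    intro i hi
    rw [coeff_mul_X_pow']
    split_ifs with h2
    · have := hw (i - j) (by omega)
      rwa [co_mk] at this
    · rfl
  have h3 : AdjoinRoot.mk h q * AdjoinRoot.root h ^ j = AdjoinRoot.mk h ((q %ₘ h) * X ^ j) := by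
    rw [map_mul, map_pow, AdjoinRoot.mk_X, ← h1]
  rw [h3, tau, co_mk, co_mk, (modByMonic_eq_self_iff hm).2 hdeg, coeff_mul_X_pow',
    if_pos (by omega)]

theorem first {F : Type} [Field F] {f : F[X][X]} (hm : f.Monic) (z : LL f) (hz : InR z) :
    InA (tau (hm.map (algebraMap F[X] (RatFunc F))) z) := by
  obtain ⟨r, rfl⟩ := hz
  exact ⟨_, co_algebraMap hm _ r⟩

theorem second {F : Type} [Field F] {f : F[X][X]} (hm : f.Monic) (z : LL f)
    (hz : ∀ r : RR f, InA (tau (hm.map (algebraMap F[X] (RatFunc F)))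
      (z * algebraMap (RR f) (LL f) r))) : InR z := by
  have hN : (fK f).natDegree = f.natDegree := hm.natDegree_map _
  have key : ∀ j, j ≤ f.natDegree → ∃ r : RR f, ∀ i, f.natDegree - j ≤ i →
      co (hm.map (algebraMap F[X] (RatFunc F))) i (z - algebraMap (RR f) (LL f) r) = 0 := by
    intro j
    induction j with
    | zero =>
      intro _
      refine ⟨0, fun i hi => co_eq_zero _ ?_ _⟩
      rw [hN]
      omega
    | succ j ih =>
      intro hj
      obtain ⟨r, hr⟩ := ih (by omega)
      have h1 := shift_top (hm.map (algebraMap F[X] (RatFunc F))) (j := j) (by rw [hN]; omega)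
        (z - algebraMap (RR f) (LL f) r) (fun i hi => hr i (by rw [hN] at hi; exact hi))
      obtain ⟨c, hc⟩ : InA (tau (hm.map (algebraMap F[X] (RatFunc F)))
          ((z - algebraMap (RR f) (LL f) r) * AdjoinRoot.root (fK f) ^ j)) := by
        have e1 : (z - algebraMap (RR f) (LL f) r) * AdjoinRoot.root (fK f) ^ j =
            z * algebraMap (RR f) (LL f) (AdjoinRoot.root f ^ j) -
              algebraMap (RR f) (LL f) (r * AdjoinRoot.root f ^ j) := by
          rw [map_mul, map_pow, algebraMap_root, sub_mul]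
        rw [e1, map_sub]
        obtain ⟨a, ha⟩ := hz (AdjoinRoot.root f ^ j)
        obtain ⟨b, hb⟩ := first hm _ ⟨r * AdjoinRoot.root f ^ j, rfl⟩
        exact ⟨a - b, by rw [ha, hb, map_sub]⟩
      rw [hc, hN] at h1
      refine ⟨r + AdjoinRoot.mk f (C c * X ^ (f.natDegree - 1 - j)), fun i hi => ?_⟩
      have e2 : z - algebraMap (RR f) (LL f)
          (r + AdjoinRoot.mk f (C c * X ^ (f.natDegree - 1 - j))) =
          (z - algebraMap (RR f) (LL f) r) -
          algebraMap (RR f) (LL f) (AdjoinRoot.mk f (C c * X ^ (f.natDegree - 1 - j))) := by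
        rw [map_add]; ring
      have hself : (C c * X ^ (f.natDegree - 1 - j) : F[X][X]) %ₘ f =
          C c * X ^ (f.natDegree - 1 - j) := by
        rw [modByMonic_eq_self_iff hm]
        refine (degree_C_mul_X_pow_le _ _).trans_lt ?_
        rw [degree_eq_natDegree hm.ne_zero]
        exact_mod_cast (by omega : f.natDegree - 1 - j < f.natDegree)
      rw [e2, map_sub, co_algebraMap hm, co_mk, hself, coeff_C_mul_X_pow]
      split_ifs with h2
      · rw [h2, ← h1, sub_self]
      · rw [map_zero, sub_zero]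
        exact hr i (by omega)
  obtain ⟨r, hr⟩ := key f.natDegree le_rfl
  refine ⟨r, ?_⟩
  have h0 : z - algebraMap (RR f) (LL f) r = 0 := by
    refine ext_co (hm.map (algebraMap F[X] (RatFunc F))) fun i _ => ?_
    rw [map_zero]
    exact hr i (by omega)
  exact sub_eq_zero.1 h0

end M_Cd

theorem hCd : StCd := by
  intro F _ f hm _
  exact ⟨fun z hz => M_Cd.first hm z hz, fun z hz => M_Cd.second hm z hz⟩

end Pool.Agent.Helper3.HY
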