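import Pool.Agent.Helper3.HY.Base

/-!
# HY, module De3: the coordinate ring of a smooth plane curve is a Dedekind domain
-/

set_option autoImplicit false

namespace Pool.Agent.Helper3.HY

open Polynomial

namespace De3

/-- an ideal of `A[X]` containing a maximal element `p` is generated by `p` and one element -/
lemma two_gen {A : Type*} [CommRing A] (m : Ideal A[X])
    (p : A) (hp : (Ideal.span {p}).IsMaximal) (_ : C p ∈ m) :
    ∃ h : A[X], h ∈ m ∧ ∀ x ∈ m, ∃ a b : A[X], x = a * C p + b * h := by
  letI : Field (A ⧸ Ideal.span {p}) := Ideal.Quotient.field _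
  obtain ⟨π, hπdef⟩ : ∃ π : A[X] →+* (A ⧸ Ideal.span {p})[X],
    π = mapRingHom (Ideal.Quotient.mk (Ideal.span {p})) := ⟨_, rfl⟩
  have hπ : Function.Surjective π := by
    rw [hπdef]; exact map_surjective _ Ideal.Quotient.mk_surjective
  obtain ⟨g, hg⟩ := (IsPrincipalIdealRing.principal (m.map π)).principal
  have hgm : g ∈ m.map π := by rw [hg]; exact Submodule.mem_span_singleton_self g
  obtain ⟨h, hm, rfl⟩ := (Ideal.mem_map_iff_of_surjective π hπ).1 hgm
  refine ⟨h, hm, fun x hx => ?_⟩
  have h1 : π x ∈ Ideal.span {π h} := by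
    have := Ideal.mem_map_of_mem π hx
    rw [hg] at this
    exact this
  obtain ⟨c, hc⟩ := Ideal.mem_span_singleton'.1 h1
  obtain ⟨c, rfl⟩ := hπ c
  have h2 : π (x - c * h) = 0 := by rw [map_sub, map_mul, hc, sub_self]
  have h3 : C p ∣ x - c * h := by
    rw [C_dvd_iff_dvd_coeff]
    intro i
    have h4 := congrArg (fun q => q.coeff i) h2
    simp only [hπdef, coe_mapRingHom, coeff_map, coeff_zero] at h4
    exact Ideal.mem_span_singleton.1 (Ideal.Quotient.eq_zero_iff_mem.1 h4)
  obtain ⟨a, ha⟩ := h3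
  exact ⟨a, c, by rw [mul_comm a, ← ha]; ring⟩

/-- a localization is a discrete valuation ring if the maximal ideal is generated by two elements
`u`, `v` with a relation with a unit coefficient -/
lemma dvr {R : Type*} [CommRing R] [IsDomain R] [IsNoetherianRing R] (P : Ideal R) [P.IsPrime]
    (hP : P ≠ ⊥) (u v a b : R) (hu : ∀ x ∈ P, ∃ c d : R, x = c * u + d * v) (huP : u ∈ P)
    (hvP : v ∈ P) (h0 : a * u + b * v = 0) (hab : a ∉ P ∨ b ∉ P) :
    IsDiscreteValuationRing (Localization.AtPrime P) := by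
  have hinj : Function.Injective (algebraMap R (Localization.AtPrime P)) :=
    IsLocalization.injective _ P.primeCompl_le_nonZeroDivisors
  haveI : IsDomain (Localization.AtPrime P) :=
    IsLocalization.isDomain_localization P.primeCompl_le_nonZeroDivisors
  haveI : IsNoetherianRing (Localization.AtPrime P) :=
    IsLocalization.isNoetherianRing P.primeCompl _ inferInstance
  have hmax := Localization.AtPrime.map_eq_maximalIdeal (I := P)
  have hf : ¬ IsField (Localization.AtPrime P) := by
    rw [IsLocalRing.isField_iff_maximalIdeal_eq, ← hmax]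
    intro h
    apply hP
    rw [eq_bot_iff]
    intro x hx
    have h1 := Ideal.mem_map_of_mem (algebraMap R (Localization.AtPrime P)) hx
    rw [h, Ideal.mem_bot] at h1
    rw [Ideal.mem_bot]
    exact hinj (by rw [h1, map_zero])
  refine ((IsDiscreteValuationRing.TFAE (Localization.AtPrime P) hf).out 0 4).2 ?_
  have key : ∀ u v a b : R, (∀ x ∈ P, ∃ c d : R, x = c * u + d * v) → u ∈ P → v ∈ P →
      a * u + b * v = 0 → a ∉ P →
      (IsLocalRing.maximalIdeal (Localization.AtPrime P)).IsPrincipal := by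
    intro u v a b hu huP hvP h0 ha
    have hua : IsUnit (algebraMap R (Localization.AtPrime P) a) :=
      IsLocalization.map_units (M := P.primeCompl) (Localization.AtPrime P) ⟨a, ha⟩
    refine ⟨⟨algebraMap R (Localization.AtPrime P) v, ?_⟩⟩
    rw [← hmax]
    refine le_antisymm ?_ ?_
    · rw [Ideal.map_le_iff_le_comap]
      intro x hx
      obtain ⟨c, d, rfl⟩ := hu x hx
      rw [Ideal.mem_comap, map_add, map_mul, map_mul]
      have h1 : algebraMap R (Localization.AtPrime P) u ∈
          Ideal.span {algebraMap R (Localization.AtPrime P) v} := by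
        rw [← Ideal.unit_mul_mem_iff_mem _ hua, ← map_mul, eq_neg_of_add_eq_zero_left h0, map_neg,
          map_mul]
        exact Ideal.neg_mem_iff _ |>.2 (Ideal.mul_mem_left _ _ (Ideal.mem_span_singleton_self _))
      exact Ideal.add_mem _ (Ideal.mul_mem_left _ _ h1)
        (Ideal.mul_mem_left _ _ (Ideal.mem_span_singleton_self _))
    · exact (Ideal.span_singleton_le_iff_mem _).2 (Ideal.mem_map_of_mem _ hvP)
  rcases hab with h | h
  · exact key u v a b hu huP hvP h0 h
  · refine key v u b a (fun x hx => ?_) hvP huP (by rw [add_comm]; exact h0) h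
    obtain ⟨c, d, hcd⟩ := hu x hx
    exact ⟨d, c, by rw [add_comm]; exact hcd⟩

end De3

theorem hDe3 : StDe3 := by
  intro F _ _ f hm _ hirr hsm
  have hfi : Irreducible f := (hm.irreducible_iff_irreducible_map_fraction_map (K := RatFunc F)).2 hirr
  haveI : IsDomain (RR f) := AdjoinRoot.isDomain_of_prime hfi.prime
  haveI : Module.Finite F[X] (RR f) := hm.finite_adjoinRoot
  haveI : Algebra.IsIntegral F[X] (RR f) := Algebra.IsIntegral.of_finite F[X] (RR f)
  have hdvr : ∀ P : Ideal (RR f), P ≠ ⊥ → ∀ _ : P.IsPrime,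
      IsDiscreteValuationRing (Localization.AtPrime P) := by
    intro P hP hPp
    have hq0 : P.comap (algebraMap F[X] (RR f)) ≠ ⊥ := fun h =>
      hP (Ideal.eq_bot_of_comap_eq_bot h)
    haveI : (P.comap (algebraMap F[X] (RR f))).IsPrime := Ideal.comap_isPrime _ _
    have hqmax : (P.comap (algebraMap F[X] (RR f))).IsMaximal :=
      Ideal.IsPrime.isMaximal inferInstance hq0
    have hPmax : P.IsMaximal :=
      Ideal.isMaximal_of_isIntegral_of_isMaximal_comap (R := F[X]) P hqmax
    obtain ⟨p, hp⟩ := (IsPrincipalIdealRing.principal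
      (P.comap (algebraMap F[X] (RR f)))).principal
    have hp' : P.comap (algebraMap F[X] (RR f)) = Ideal.span {p} := hp
    have hpP : AdjoinRoot.mk f (C p) ∈ P := by
      have : p ∈ P.comap (algebraMap F[X] (RR f)) := by
        rw [hp']; exact Ideal.mem_span_singleton_self p
      exact this
    obtain ⟨m, hmdef⟩ : ∃ m : Ideal F[X][X], m = P.comap (AdjoinRoot.mk f) := ⟨_, rfl⟩
    have hmmax : m.IsMaximal := by
      rw [hmdef]
      exact Ideal.comap_isMaximal_of_surjective _ AdjoinRoot.mk_surjective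
    have hpm : C p ∈ m := by rw [hmdef]; exact hpP
    obtain ⟨h, hh, hgen⟩ := De3.two_gen m p (hp' ▸ hqmax) hpm
    have hfm : f ∈ m := by
      rw [hmdef, Ideal.mem_comap, AdjoinRoot.mk_self]
      exact P.zero_mem
    obtain ⟨a, b, hab⟩ := hgen f hfm
    have hnot : a ∉ m ∨ b ∉ m := by
      by_contra hcon
      push Not at hcon
      apply hsm m hmmax
      rw [pow_two, hab]
      exact Ideal.add_mem _ (Ideal.mul_mem_mul hcon.1 hpm) (Ideal.mul_mem_mul hcon.2 hh)
    refine De3.dvr P hP (AdjoinRoot.mk f (C p)) (AdjoinRoot.mk f h) (AdjoinRoot.mk f a)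
      (AdjoinRoot.mk f b) ?_ hpP (by rw [hmdef] at hh; exact hh) ?_ ?_
    · intro x hx
      obtain ⟨x, rfl⟩ := AdjoinRoot.mk_surjective x
      obtain ⟨c, d, hcd⟩ := hgen x (by rw [hmdef]; exact hx)
      exact ⟨AdjoinRoot.mk f c, AdjoinRoot.mk f d, by rw [hcd, map_add, map_mul, map_mul]⟩
    · rw [← map_mul, ← map_mul, ← map_add, ← hab, AdjoinRoot.mk_self]
    · rw [hmdef] at hnot
      exact hnot
  haveI : IsDedekindDomainDvr (RR f) := { is_dvr_at_nonzero_prime := hdvr }
  infer_instance

end Pool.Agent.Helper3.HY
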