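import Pool.Agent.Helper3.HY.Base
import Pool.Agent.Helper3.HY.StUU

/-!
# HY module Ub (exponent identity)
-/

set_option autoImplicit false

namespace Pool.Agent.Helper3.HY

open Finset

namespace Ub

theorem nu_rev {g : ℕ} (m : Fin g → ℕ) (i : Ix g) : nu g m (Fin.rev i) = -nu g m i := by
  unfold nu
  have hr : (Fin.rev i : ℕ) = 2 * g - i.1 := by
    rw [Fin.val_rev]; omega
  have hi := i.2
  rcases lt_trichotomy i.1 g with h | h | h
  · have h1 : ¬ (Fin.rev i : ℕ) < g := by omega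
    have h2 : g < (Fin.rev i : ℕ) := by omega
    rw [dif_neg h1, dif_pos h2, dif_pos h, neg_neg]
    congr 2
    apply Fin.ext
    simp only [hr]
    omega
  · have h1 : ¬ (Fin.rev i : ℕ) < g := by omega
    have h2 : ¬ g < (Fin.rev i : ℕ) := by omega
    rw [dif_neg h1, dif_neg h2, dif_neg (by omega), dif_neg (by omega), neg_zero]
  · have h1 : (Fin.rev i : ℕ) < g := by omega
    rw [dif_pos h1, dif_neg (by omega), dif_pos h]
    congr 3
    apply Fin.ext
    simp only [hr]

theorem nu_mono {g : ℕ} {m : Fin g → ℕ} (hm : Antitone m) {i j : Ix g} (hij : i ≤ j) :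
    nu g m i ≤ nu g m j := by
  have hij' : i.1 ≤ j.1 := hij
  have hi := i.2
  have hj := j.2
  unfold nu
  rcases lt_trichotomy i.1 g with h | h | h
  · rw [dif_pos h]
    rcases lt_trichotomy j.1 g with h' | h' | h'
    · rw [dif_pos h']
      have := hm (show (⟨i.1, h⟩ : Fin g) ≤ ⟨j.1, h'⟩ from hij')
      exact neg_le_neg (by exact_mod_cast this)
    · rw [dif_neg (by omega), dif_neg (by omega)]
      simp
    · rw [dif_neg (by omega), dif_pos h']
      have h1 : (0 : ℤ) ≤ (m ⟨i.1, h⟩ : ℤ) := by positivity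
      have h2 : (0 : ℤ) ≤ (m ⟨2 * g - j.1, by omega⟩ : ℤ) := by positivity
      linarith
  · rw [dif_neg (by omega), dif_neg (by omega)]
    rcases lt_trichotomy j.1 g with h' | h' | h'
    · omega
    · rw [dif_neg (by omega), dif_neg (by omega)]
    · rw [dif_neg (by omega), dif_pos h']
      positivity
  · rw [dif_neg (by omega), dif_pos h, dif_neg (by omega), dif_pos (by omega)]
    have := hm (show (⟨2 * g - j.1, by omega⟩ : Fin g) ≤ ⟨2 * g - i.1, by omega⟩ from by
      change 2 * g - j.1 ≤ 2 * g - i.1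
      omega)
    exact_mod_cast this

theorem term {g : ℕ} {m : Fin g → ℕ} (hm : Antitone m) (i j : Ix g) :
    (((if i < j then (nu g m i + nu g m j).toNat else 0 : ℕ)) : ℤ) =
      (if Fin.rev j < i ∧ i < j then nu g m i else 0) +
        (if Fin.rev j < i ∧ i < j then nu g m j else 0) := by
  by_cases hij : i < j
  · rw [if_pos hij]
    by_cases hr : Fin.rev j < i
    · rw [if_pos ⟨hr, hij⟩, if_pos ⟨hr, hij⟩, Int.toNat_of_nonneg]
      have h1 : nu g m (Fin.rev j) ≤ nu g m i := nu_mono hm hr.le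
      rw [nu_rev] at h1
      linarith
    · rw [if_neg (fun h => hr h.1), if_neg (fun h => hr h.1), add_zero]
      have h1 : nu g m i ≤ nu g m (Fin.rev j) := nu_mono hm (not_lt.1 hr)
      rw [nu_rev] at h1
      rw [Int.toNat_of_nonpos (by linarith)]
      rfl
  · rw [if_neg hij, if_neg (fun h => hij h.2), if_neg (fun h => hij h.2)]
    rfl

theorem sum_nu {g : ℕ} (m : Fin g → ℕ) (j : Ix g) :
    (∑ i : Ix g, if Fin.rev j < i ∧ i < j then nu g m i else 0) = 0 := by
  have h1 : (∑ i : Ix g, if Fin.rev j < i ∧ i < j then nu g m i else 0) =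
      -∑ i : Ix g, if Fin.rev j < i ∧ i < j then nu g m i else 0 := by
    conv_lhs => rw [← Equiv.sum_comp Fin.revPerm]
    rw [← sum_neg_distrib]
    refine sum_congr rfl fun i _ => ?_
    rw [Fin.revPerm_apply]
    have h2 : (Fin.rev j < Fin.rev i ∧ Fin.rev i < j) ↔ (Fin.rev j < i ∧ i < j) := by
      rw [Fin.rev_lt_rev]
      have : Fin.rev i < j ↔ Fin.rev j < i := by
        conv_lhs => rw [← Fin.rev_rev j]
        rw [Fin.rev_lt_rev]
      rw [this]
      tauto
    by_cases h : Fin.rev j < i ∧ i < j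
    · rw [if_pos h, if_pos (h2.2 h), nu_rev]
    · rw [if_neg h, if_neg (fun h' => h (h2.1 h')), neg_zero]
  omega

theorem card_int {g : ℕ} (j : Ix g) :
    (univ.filter fun i : Ix g => Fin.rev j < i ∧ i < j).card = 2 * j.1 - 2 * g - 1 := by
  have h1 : (univ.filter fun i : Ix g => Fin.rev j < i ∧ i < j) = Ioo (Fin.rev j) j := by
    ext i
    simp
  rw [h1, Fin.card_Ioo, Fin.val_rev]
  omega

theorem sum_all {g : ℕ} (m : Fin g → ℕ) :
    (∑ j : Ix g, ((2 * j.1 - 2 * g - 1 : ℕ) : ℤ) * nu g m j) =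
      ∑ i : Fin g, ((2 * g - 1 - 2 * (i : ℕ) : ℕ) : ℤ) * (m i : ℤ) := by
  set H : ℕ → ℤ := fun n => if h : n < g then ((2 * g - 1 - 2 * n : ℕ) : ℤ) * (m ⟨n, h⟩ : ℤ)
    else 0 with hH
  have h1 : (∑ j : Ix g, ((2 * j.1 - 2 * g - 1 : ℕ) : ℤ) * nu g m j) = ∑ j : Ix g, H j.1 := by
    rw [← Equiv.sum_comp Fin.revPerm]
    refine sum_congr rfl fun j _ => ?_
    rw [Fin.revPerm_apply, nu_rev, Fin.val_rev]
    have hj := j.2
    simp only [hH]
    by_cases h : j.1 < g
    · rw [dif_pos h]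
      unfold nu
      rw [dif_pos h, neg_neg]
      congr 2
      omega
    · rw [dif_neg h]
      have : 2 * (2 * g + 1 - (j.1 + 1)) - 2 * g - 1 = 0 := by omega
      rw [this]
      simp
  have h2 : (∑ i : Fin g, ((2 * g - 1 - 2 * (i : ℕ) : ℕ) : ℤ) * (m i : ℤ)) =
      ∑ i : Fin g, H i.1 := by
    refine sum_congr rfl fun i _ => ?_
    simp only [hH]
    rw [dif_pos i.2]
  rw [h1, h2, Fin.sum_univ_eq_sum_range (fun n => H n) (2 * g + 1),
    Fin.sum_univ_eq_sum_range (fun n => H n) g]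
  refine (sum_subset ?_ ?_).symm
  · intro x hx
    rw [mem_range] at hx ⊢
    omega
  · intro x _ hx
    rw [mem_range] at hx
    simp only [hH]
    rw [dif_neg hx]

end Ub

theorem hUb : StUb := by
  intro g m hm
  have h1 : ((∑ p : Ix g × Ix g, if p.1 < p.2 then (nu g m p.1 + nu g m p.2).toNat else 0 : ℕ) : ℤ)
      = ∑ j : Ix g, ((2 * j.1 - 2 * g - 1 : ℕ) : ℤ) * nu g m j := by
    rw [Nat.cast_sum, Fintype.sum_prod_type_right]
    refine sum_congr rfl fun j _ => ?_
    rw [sum_congr rfl fun i _ => Ub.term hm i j, sum_add_distrib, Ub.sum_nu, zero_add,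
      ← sum_filter, sum_const, Ub.card_int, nsmul_eq_mul]
  rw [Ub.sum_all] at h1
  have h2 : ((rho2 g m : ℕ) : ℤ) =
      ∑ i : Fin g, ((2 * g - 1 - 2 * (i : ℕ) : ℕ) : ℤ) * (m i : ℤ) := by
    unfold rho2
    rw [Nat.cast_sum]
    exact sum_congr rfl fun i _ => by rw [Nat.cast_mul]
  exact_mod_cast h2.trans h1.symm

end Pool.Agent.Helper3.HY
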