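import Pool.Agent.Helper3.HY.Base
import Pool.Agent.Helper3.HY.StUU

/-!
# HY module Ue1 (centralizer of a matrix with irreducible characteristic polynomial)
-/

set_option autoImplicit false

namespace Pool.Agent.Helper3.HY

open Polynomial Finset Matrix

theorem hUe1 : StUe1 := by
  intro K _ n X Y hirr hXY
  -- a nonzero vector
  have hn : 0 < n := by
    rcases Nat.eq_zero_or_pos n with h | h
    · subst h
      exact absurd hirr (by
        have : X.charpoly = 1 := by
          rw [Matrix.charpoly, Matrix.det_fin_zero]
        rw [this]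
        exact not_irreducible_one)
    · exact h
  set v : Fin n → K := Pi.single ⟨0, hn⟩ 1 with hv
  have hv0 : v ≠ 0 := by
    intro h
    have := congrFun h ⟨0, hn⟩
    rw [hv, Pi.single_eq_same] at this
    exact one_ne_zero this
  -- the evaluation map
  set L : degreeLT K n →ₗ[K] (Fin n → K) :=
    { toFun := fun p => (aeval X (p : K[X])) *ᵥ v
      map_add' := by
        intro p q
        rw [Submodule.coe_add, map_add, Matrix.add_mulVec]
      map_smul' := by
        intro c p
        rw [Submodule.coe_smul, map_smul, Matrix.smul_mulVec, RingHom.id_apply] } with hL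
  have hLinj : Function.Injective L := by
    rw [← LinearMap.ker_eq_bot, LinearMap.ker_eq_bot']
    intro p hp
    have hp' : (aeval X (p : K[X])) *ᵥ v = 0 := hp
    by_contra hp0
    have hp1 : (p : K[X]) ≠ 0 := fun h => hp0 (Subtype.ext h)
    have hdeg : (p : K[X]).natDegree < X.charpoly.natDegree := by
      rw [Matrix.charpoly_natDegree_eq_dim, Fintype.card_fin]
      have := mem_degreeLT.1 p.2
      exact (natDegree_lt_iff_degree_lt hp1).2 this
    have hcop : IsCoprime X.charpoly (p : K[X]) := by
      rw [hirr.coprime_iff_not_dvd]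
      intro hdvd
      exact absurd (natDegree_le_of_dvd hdvd hp1) (not_le.2 hdeg)
    obtain ⟨a, b, hab⟩ := hcop
    apply hv0
    have h1 : aeval X (a * X.charpoly + b * (p : K[X])) = 1 := by
      rw [hab, map_one]
    rw [map_add, map_mul, map_mul, Matrix.aeval_self_charpoly, mul_zero, zero_add] at h1
    calc v = (1 : Matrix (Fin n) (Fin n) K) *ᵥ v := (Matrix.one_mulVec v).symm
      _ = aeval X b *ᵥ (aeval X (p : K[X]) *ᵥ v) := by
        rw [← h1, Matrix.mulVec_mulVec]
      _ = 0 := by rw [hp', Matrix.mulVec_zero]
  have hfd : FiniteDimensional K (degreeLT K n) :=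
    (degreeLTEquiv K n).symm.finiteDimensional
  have hLsurj : Function.Surjective L := by
    refine (LinearMap.injective_iff_surjective_of_finrank_eq_finrank ?_).1 hLinj
    rw [LinearEquiv.finrank_eq (degreeLTEquiv K n)]
  obtain ⟨p, hp⟩ := hLsurj (Y *ᵥ v)
  refine ⟨p, ?_⟩
  have hcomm : ∀ r : K[X], Y * aeval X r = aeval X r * Y := by
    intro r
    induction r using Polynomial.induction_on' with
    | add p q hp hq => rw [map_add, mul_add, add_mul, hp, hq]
    | monomial k a =>
      rw [aeval_monomial, ← mul_assoc, ← Algebra.commutes, mul_assoc, mul_assoc]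
      congr 1
      exact ((Commute.pow_right (show Commute Y X from hXY.symm)) k).eq
  apply Matrix.ext_of_mulVec_single
  intro i
  obtain ⟨r, hr⟩ := hLsurj (Pi.single i 1)
  have hr' : (aeval X (r : K[X])) *ᵥ v = Pi.single i 1 := hr
  have hp' : (aeval X (p : K[X])) *ᵥ v = Y *ᵥ v := hp
  rw [← hr', Matrix.mulVec_mulVec, hcomm, ← Matrix.mulVec_mulVec, ← hp', Matrix.mulVec_mulVec,
    Matrix.mulVec_mulVec, ← map_mul, ← map_mul, mul_comm]

end Pool.Agent.Helper3.HY
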