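import Pool.Agent.Helper3.HY.Base
import Pool.Agent.Helper3.HY.StUU

/-!
# HY module Ui2: square roots of one
-/

set_option autoImplicit false

namespace Pool.Agent.Helper3.HY

open Polynomial Finset

namespace Ui2

theorem two_ne {k : Type} [Field k] (h2 : (2 : k) ≠ 0) {h : k[X]} (hd : h.degree ≠ 0) :
    (2 : AdjoinRoot h) ≠ 0 := by
  have hn : Nontrivial (AdjoinRoot h) := AdjoinRoot.nontrivial h hd
  intro h0
  apply h2
  apply (algebraMap k (AdjoinRoot h)).injective
  rw [map_zero, map_ofNat]
  exact h0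

theorem card2 {R : Type} [CommRing R] (h2 : (2 : R) ≠ 0) :
    ∃ s : Finset R, s.card = 2 ∧ ∀ β ∈ s, β ^ 2 = 1 := by
  classical
  refine ⟨{1, -1}, ?_, ?_⟩
  · apply Finset.card_pair
    intro h
    apply h2
    linear_combination h
  · intro β hβ
    rw [mem_insert, mem_singleton] at hβ
    rcases hβ with rfl | rfl
    · ring
    · ring

theorem card4 {R : Type} [CommRing R] (h2 : (2 : R) ≠ 0) (e : R) (he : e ^ 2 = 1) (he1 : e ≠ 1)
    (he2 : e ≠ -1) : ∃ s : Finset R, s.card = 4 ∧ ∀ β ∈ s, β ^ 2 = 1 := by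
  classical
  refine ⟨{1, -1, e, -e}, ?_, ?_⟩
  · have h1 : (-e) ≠ e := by
      intro h
      apply h2
      linear_combination (-e) * h - 2 * he
    rw [card_insert_of_notMem, card_insert_of_notMem, card_pair h1.symm]
    · rw [mem_insert, mem_singleton, not_or]
      refine ⟨fun h => he2 h.symm, fun h => he1 ?_⟩
      linear_combination h
    · rw [mem_insert, mem_insert, mem_singleton, not_or, not_or]
      refine ⟨fun h => h2 ?_, fun h => he1 h.symm, fun h => he2 ?_⟩
      · linear_combination h
      · linear_combination h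
  · intro β hβ
    rw [mem_insert, mem_insert, mem_insert, mem_singleton] at hβ
    rcases hβ with rfl | rfl | rfl | rfl
    · ring
    · ring
    · exact he
    · rw [neg_sq]
      exact he

end Ui2

theorem hUi2 : StUi2 := by
  intro k _ h2 g hg h
  refine ⟨?_, ?_⟩
  · rintro ⟨hm, hi, hd⟩
    apply Ui2.card2
    apply Ui2.two_ne h2
    intro h0
    have h1 : h.natDegree = 0 := natDegree_eq_zero_iff_degree_le_zero.2 h0.le
    omega
  · rintro ⟨a, p, hm, hi, hd, rfl⟩
    have hX : Irreducible (X - C a : k[X]) := irreducible_X_sub_C a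
    have hcop : IsCoprime (X - C a) p := by
      rw [hX.coprime_iff_not_dvd]
      rintro ⟨c, hc⟩
      rcases hi.isUnit_or_isUnit hc with h | h
      · exact hX.not_isUnit h
      · have h1 := congrArg natDegree hc
        rw [natDegree_mul hX.ne_zero h.ne_zero, natDegree_eq_zero_of_isUnit h,
          natDegree_X_sub_C] at h1
        omega
    obtain ⟨u, v, huv⟩ := hcop
    have hdeg : ((X - C a) * p).degree ≠ 0 := by
      rw [degree_mul, degree_X_sub_C, degree_eq_natDegree hm.ne_zero, hd]
      norm_cast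
      omega
    have h2R := Ui2.two_ne h2 hdeg
    -- `2` is invertible modulo nonunits
    have hunit : ∀ q : k[X], ¬ IsUnit q → ¬ q ∣ 2 := by
      intro q hq hdvd
      apply hq
      apply isUnit_of_dvd_unit hdvd
      have : (2 : k[X]) = C 2 := (map_ofNat C 2).symm
      rw [this]
      exact isUnit_C.2 (isUnit_iff_ne_zero.2 h2)
    refine Ui2.card4 h2R (AdjoinRoot.mk _ (v * p - u * (X - C a))) ?_ ?_ ?_
    · have h1 : (1 : AdjoinRoot ((X - C a) * p)) = AdjoinRoot.mk _ 1 := (map_one _).symm
      rw [← map_pow, h1, AdjoinRoot.mk_eq_mk]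
      refine ⟨-(4 * u * v), ?_⟩
      linear_combination (1 + (u * (X - C a) + v * p)) * huv
    · intro h
      have h1 : (1 : AdjoinRoot ((X - C a) * p)) = AdjoinRoot.mk _ 1 := (map_one _).symm
      rw [h1, AdjoinRoot.mk_eq_mk] at h
      have h3 : p ∣ v * p - u * (X - C a) - 1 := (Dvd.intro_left _ rfl).trans h
      apply hunit p hi.not_isUnit
      obtain ⟨c, hc⟩ := h3
      refine ⟨2 * v - c, ?_⟩
      linear_combination (-1 : k[X]) * hc - huv
    · intro h
      have h1 : (-1 : AdjoinRoot ((X - C a) * p)) = AdjoinRoot.mk _ (-1) := by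
        rw [map_neg, map_one]
      rw [h1, AdjoinRoot.mk_eq_mk] at h
      have h3 : (X - C a) ∣ v * p - u * (X - C a) - -1 := (Dvd.intro _ rfl).trans h
      apply hunit (X - C a) hX.not_isUnit
      obtain ⟨c, hc⟩ := h3
      refine ⟨c + 2 * u, ?_⟩
      linear_combination hc - huv

end Pool.Agent.Helper3.HY
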