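import Pool.Agent.Helper3.HY.Base
import Pool.Agent.Helper3.HY.StUU

/-!
# HY, module Uc: the cusp inequality
-/

set_option autoImplicit false

namespace Pool.Agent.Helper3.HY

open Finset

namespace Uc

lemma core (n : ℕ) (x : ℕ → ℤ) (d : ℤ) (hd : 0 ≤ d) (hle : ∀ k ≤ n, x k ≤ x 0)
    (hanti : ∀ k < n, x (k + 1) ≤ x k) (hstep : ∀ k < n, x k ≤ x (k + 1) + d)
    (hlast : 2 * x n ≤ d) (h0 : ∀ k ≤ n, 0 ≤ x k) :
    max 0 (x 0 + x 0 - (d + 1)) + max 0 (x 0 - (d + 1)) +
      ∑ k ∈ range n, (max 0 (x 0 + x (k + 1) - (d + 1)) + max 0 (x 0 - x (k + 1) - (d + 1))) +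
      min ((d + 1) / 2) (x 0) ≤ (2 * n + 1) * x 0 := by
  have hx0 := h0 0 (Nat.zero_le n)
  have hnx : 0 ≤ (n : ℤ) * x 0 := by positivity
  rcases le_or_gt (2 * x 0) (d + 1) with hc | hc
  · have h1 : ∑ k ∈ range n,
        (max 0 (x 0 + x (k + 1) - (d + 1)) + max 0 (x 0 - x (k + 1) - (d + 1))) = 0 := by
      refine sum_eq_zero fun k hk => ?_
      have hk := mem_range.1 hk
      have h2 := hle (k + 1) hk
      have h3 := h0 (k + 1) hk
      omega
    rw [h1]
    have h4 : ((2 : ℤ) * n + 1) * x 0 = 2 * (n * x 0) + x 0 := by ring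
    rw [h4]
    omega
  rcases lt_or_ge (x 0) (d + 1) with hc2 | hc2
  · have hn : 1 ≤ n := by
      by_contra hn
      have : n = 0 := by omega
      subst this
      omega
    have h1 : ∑ k ∈ range n,
        (max 0 (x 0 + x (k + 1) - (d + 1)) + max 0 (x 0 - x (k + 1) - (d + 1))) ≤
        ∑ k ∈ range n, (2 * x 0 - (d + 1)) := by
      refine sum_le_sum fun k hk => ?_
      have hk := mem_range.1 hk
      have h2 := hle (k + 1) hk
      have h3 := h0 (k + 1) hk
      omega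
    rw [sum_const, card_range, nsmul_eq_mul] at h1
    have h4 : ((2 : ℤ) * n + 1) * x 0 = 2 * (n * x 0) + x 0 := by ring
    have h5 : (n : ℤ) * (2 * x 0 - (d + 1)) = 2 * (n * x 0) - n * (d + 1) := by ring
    have h6 : (d + 1) ≤ (n : ℤ) * (d + 1) := by nlinarith [show (1 : ℤ) ≤ n by exact_mod_cast hn]
    rw [h4]
    rw [h5] at h1
    have h7 : max 0 (x 0 + x 0 - (d + 1)) = 2 * x 0 - (d + 1) := by omega
    have h8 : max 0 (x 0 - (d + 1)) = 0 := by omega
    rw [h7, h8]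
    omega
  · have h1 : ∑ k ∈ range n,
        (max 0 (x 0 + x (k + 1) - (d + 1)) + max 0 (x 0 - x (k + 1) - (d + 1))) ≤
        ∑ k ∈ range n, ((2 * x 0 - (d + 1)) - (x k - x (k + 1))) := by
      refine sum_le_sum fun k hk => ?_
      have hk := mem_range.1 hk
      have h2 := hle (k + 1) hk
      have h3 := h0 (k + 1) hk
      have h4 := hle k hk.le
      have h5 := hanti k hk
      have h6 := hstep k hk
      omega
    rw [sum_sub_distrib, sum_const, card_range, nsmul_eq_mul, sum_range_sub'] at h1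
    have h2 : ∑ k ∈ range n, (x k - x (k + 1)) ≤ ∑ k ∈ range n, d := by
      refine sum_le_sum fun k hk => ?_
      have h6 := hstep k (mem_range.1 hk)
      omega
    rw [sum_const, card_range, nsmul_eq_mul, sum_range_sub'] at h2
    have h4 : ((2 : ℤ) * n + 1) * x 0 = 2 * (n * x 0) + x 0 := by ring
    have h5 : (n : ℤ) * (2 * x 0 - (d + 1)) = 2 * (n * x 0) - n * d - n := by ring
    rw [h4]
    rw [h5] at h1
    have h7 : max 0 (x 0 + x 0 - (d + 1)) = 2 * x 0 - (d + 1) := by omega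
    have h8 : max 0 (x 0 - (d + 1)) = x 0 - (d + 1) := by omega
    rw [h7, h8]
    have hn0 : (0 : ℤ) ≤ n := Int.natCast_nonneg n
    omega

/-- splitting a sum over `2 n + 1` terms -/
lemma sum_split (n : ℕ) (h : ℕ → ℤ) :
    ∑ k ∈ range (2 * n + 1), h k = h n + ∑ k ∈ range n, (h k + h (2 * n - k)) := by
  have h1 : 2 * n + 1 = n + (n + 1) := by ring
  rw [h1, sum_range_add, sum_range_succ' (fun x => h (n + x)), add_zero, sum_add_distrib]
  have h2 : ∑ k ∈ range n, h (2 * n - k) = ∑ k ∈ range n, h (n + (k + 1)) := by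
    rw [← sum_range_reflect]
    refine sum_congr rfl fun k hk => ?_
    have := mem_range.1 hk
    congr 1
    omega
  rw [h2]
  ring

/-- the degrees, with a sign, as integers -/
def M (g : ℕ) (m : Fin g → ℕ) (j : ℕ) : ℤ := if h : j < 2 * g + 1 then -nu g m ⟨j, h⟩ else 0

lemma M_lt {g : ℕ} (m : Fin g → ℕ) (j : ℕ) (h : j < g) : M g m j = m ⟨j, h⟩ := by
  unfold M nu
  rw [dif_pos (by omega), dif_pos h, neg_neg]

lemma M_g {g : ℕ} (m : Fin g → ℕ) : M g m g = 0 := by
  unfold M nu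
  rw [dif_pos (by omega), dif_neg (by simp), dif_neg (by simp), neg_zero]

lemma M_ge {g : ℕ} (m : Fin g → ℕ) (j : ℕ) (h : g ≤ j) : M g m j ≤ 0 := by
  unfold M nu
  split_ifs with h1 h2 h3
  · simp only at h2; omega
  · simp
  · simp
  · simp

lemma M_refl {g : ℕ} (m : Fin g → ℕ) (j : ℕ) (h : j < g) : M g m (2 * g - j) = -M g m j := by
  rw [M_lt m j h]
  unfold M nu
  rw [dif_pos (by omega), dif_neg (by simp only; omega), dif_pos (by simp only; omega)]
  congr 3
  simp only [Fin.mk.injEq]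
  omega

lemma exc_eq (g d : ℕ) (m : Fin g → ℕ) : ((exc g d m : ℕ) : ℤ) =
    ∑ i ∈ range (2 * g + 1), ∑ j ∈ range (2 * g + 1),
      if i ≤ j then max 0 (M g m i + M g m j - ((d : ℤ) + 1)) else 0 := by
  rw [Finset.sum_range, exc, Nat.cast_sum, Fintype.sum_prod_type]
  refine sum_congr rfl fun i _ => ?_
  rw [Finset.sum_range]
  refine sum_congr rfl fun j _ => ?_
  have h1 : M g m i.1 = -nu g m i := by unfold M; rw [dif_pos i.2]
  have h2 : M g m j.1 = -nu g m j := by unfold M; rw [dif_pos j.2]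
  rw [h1, h2]
  by_cases hij : i ≤ j
  · rw [if_pos hij, if_pos (Fin.le_def.1 hij), Int.ofNat_toNat]
    dsimp only
    omega
  · rw [if_neg hij, if_neg (fun h => hij (Fin.le_def.2 h)), Nat.cast_zero]

lemma M_le_neg {g : ℕ} (m : Fin g → ℕ) (hm : Antitone m) (i j : ℕ) (hi : i < g)
    (hj : 2 * g - i ≤ j) (hj2 : j < 2 * g + 1) : M g m i + M g m j ≤ 0 := by
  rw [M_lt m i hi]
  unfold M nu
  rw [dif_pos hj2, dif_neg (by simp only; omega), dif_pos (by simp only; omega)]
  have h2 : m ⟨i, hi⟩ ≤ m ⟨2 * g - j, by omega⟩ := hm (by rw [Fin.le_def]; simp only; omega)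
  simp only at *
  omega

/-- the row `i ≥ g` -/
lemma row_ge {g : ℕ} (d : ℕ) (m : Fin g → ℕ) (i : ℕ) (hi : g ≤ i) :
    ∑ j ∈ range (2 * g + 1),
      (if i ≤ j then max 0 (M g m i + M g m j - ((d : ℤ) + 1)) else 0) = 0 := by
  refine sum_eq_zero fun j _ => ?_
  split_ifs with h
  · have h1 := M_ge m i hi
    have h2 := M_ge m j (hi.trans h)
    omega
  · rfl

/-- the row `i < g` -/
lemma row_lt {g : ℕ} (d : ℕ) (m : Fin g → ℕ) (hm : Antitone m) (i n : ℕ) (hn : i + (n + 1) = g) :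
    ∑ j ∈ range (2 * g + 1),
      (if i ≤ j then max 0 (M g m i + M g m j - ((d : ℤ) + 1)) else 0) =
    max 0 (M g m (i + 0) + M g m (i + 0) - ((d : ℤ) + 1)) +
      max 0 (M g m (i + 0) - ((d : ℤ) + 1)) +
      ∑ k ∈ range n, (max 0 (M g m (i + 0) + M g m (i + (k + 1)) - ((d : ℤ) + 1)) +
        max 0 (M g m (i + 0) - M g m (i + (k + 1)) - ((d : ℤ) + 1))) := by
  have e1 : 2 * g + 1 = i + ((2 * n + 1 + 1) + (i + 1)) := by omega
  rw [e1, sum_range_add, sum_range_add, sum_range_succ']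
  have h1 : ∑ x ∈ range i,
      (if i ≤ x then max 0 (M g m i + M g m x - ((d : ℤ) + 1)) else 0) = 0 := by
    refine sum_eq_zero fun x hx => ?_
    rw [if_neg]
    exact not_le.2 (mem_range.1 hx)
  have h2 : ∑ x ∈ range (i + 1), (if i ≤ i + (2 * n + 1 + 1 + x) then
      max 0 (M g m i + M g m (i + (2 * n + 1 + 1 + x)) - ((d : ℤ) + 1)) else 0) = 0 := by
    refine sum_eq_zero fun x hx => ?_
    have hx := mem_range.1 hx
    rw [if_pos (by omega)]
    have h3 := M_le_neg m hm i (i + (2 * n + 1 + 1 + x)) (by omega) (by omega) (by omega)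
    omega
  have h4 : ∀ x, (if i ≤ i + (x + 1) then
      max 0 (M g m i + M g m (i + (x + 1)) - ((d : ℤ) + 1)) else 0) =
      max 0 (M g m i + M g m (i + (x + 1)) - ((d : ℤ) + 1)) := fun x => if_pos (by omega)
  rw [h1, h2, zero_add, add_zero, sum_congr rfl fun x _ => h4 x, sum_split n,
    if_pos (by omega), add_zero]
  have h5 : M g m (i + (n + 1)) = 0 := by rw [hn]; exact M_g m
  have h6 : ∑ k ∈ range n, (max 0 (M g m i + M g m (i + (k + 1)) - ((d : ℤ) + 1)) +
      max 0 (M g m i + M g m (i + (2 * n - k + 1)) - ((d : ℤ) + 1))) =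
      ∑ k ∈ range n, (max 0 (M g m i + M g m (i + (k + 1)) - ((d : ℤ) + 1)) +
        max 0 (M g m i - M g m (i + (k + 1)) - ((d : ℤ) + 1))) := by
    refine sum_congr rfl fun k hk => ?_
    have hk := mem_range.1 hk
    have h7 : i + (2 * n - k + 1) = 2 * g - (i + (k + 1)) := by omega
    rw [h7, M_refl m _ (by omega), ← sub_eq_add_neg]
  rw [h6, h5, add_zero]
  ring

end Uc

theorem hUc : StUc := by
  intro g d m hadm i₀ hi₀
  obtain ⟨hanti, hlast, hstep⟩ := hadm
  have hg : 0 < g := (Nat.zero_le _).trans_lt i₀.2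
  have hrow : ∀ i ∈ range g, (∑ j ∈ range (2 * g + 1),
      (if i ≤ j then max 0 (Uc.M g m i + Uc.M g m j - ((d : ℤ) + 1)) else 0)) +
      min (((d : ℤ) + 1) / 2) (Uc.M g m i) ≤ (2 * (g - 1 - i : ℕ) + 1) * Uc.M g m i := by
    intro i hi
    have hi := mem_range.1 hi
    obtain ⟨n, hn⟩ : ∃ n, i + (n + 1) = g := ⟨g - 1 - i, by omega⟩
    have hn' : g - 1 - i = n := by omega
    rw [Uc.row_lt d m hanti i n hn, hn']
    have h1 := Uc.core n (fun k => Uc.M g m (i + k)) d (Int.natCast_nonneg d) ?_ ?_ ?_ ?_ ?_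
    · exact h1
    · intro k hk
      rw [Uc.M_lt m _ (by omega), Uc.M_lt m _ (by omega)]
      exact_mod_cast hanti (by rw [Fin.le_def]; simp only; omega)
    · intro k hk
      rw [Uc.M_lt m _ (by omega), Uc.M_lt m _ (by omega)]
      exact_mod_cast hanti (by rw [Fin.le_def]; simp only; omega)
    · intro k hk
      rw [Uc.M_lt m _ (by omega), Uc.M_lt m _ (by omega)]
      exact_mod_cast hstep _ _ (by simp only; omega)
    · rw [Uc.M_lt m _ (by omega)]
      exact_mod_cast hlast _ (by simp only; omega)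
    · intro k hk
      rw [Uc.M_lt m _ (by omega)]
      exact Int.natCast_nonneg _
  have h1 := sum_le_sum hrow
  rw [sum_add_distrib] at h1
  have h2 : ((exc g d m : ℕ) : ℤ) = ∑ i ∈ range g, ∑ j ∈ range (2 * g + 1),
      (if i ≤ j then max 0 (Uc.M g m i + Uc.M g m j - ((d : ℤ) + 1)) else 0) := by
    have e1 : range (2 * g + 1) = range (g + (g + 1)) := by congr 1; ring
    rw [Uc.exc_eq]
    conv_lhs => rw [e1]
    rw [sum_range_add]
    have h3 : ∑ x ∈ range (g + 1), ∑ j ∈ range (2 * g + 1),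
        (if g + x ≤ j then max 0 (Uc.M g m (g + x) + Uc.M g m j - ((d : ℤ) + 1)) else 0) = 0 :=
      sum_eq_zero fun x _ => Uc.row_ge d m (g + x) (by omega)
    rw [← e1, h3, add_zero]
  have h4 : ((rho2 g m : ℕ) : ℤ) =
      ∑ i ∈ range g, (2 * (g - 1 - i : ℕ) + 1) * Uc.M g m i := by
    rw [Finset.sum_range, rho2, Nat.cast_sum]
    refine sum_congr rfl fun i _ => ?_
    rw [Uc.M_lt m i.1 i.2, Nat.cast_mul]
    congr 1
    have := i.2
    omega
  have h5 : min (((d : ℤ) + 1) / 2) (Uc.M g m 0) ≤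
      ∑ i ∈ range g, min (((d : ℤ) + 1) / 2) (Uc.M g m i) := by
    refine single_le_sum (f := fun i => min (((d : ℤ) + 1) / 2) (Uc.M g m i)) (fun i hi => ?_)
      (mem_range.2 hg)
    rw [Uc.M_lt m i (mem_range.1 hi)]
    omega
  have h6 : Uc.M g m 0 = m i₀ := by
    rw [Uc.M_lt m 0 hg]
    congr 2
    exact Fin.ext hi₀.symm
  rw [h6] at h5
  rw [← h2, ← h4] at h1
  omega

end Pool.Agent.Helper3.HY
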