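import Pool.Agent.Helper3.HY.St

/-!
# HY: standard bases of unimodular lattices over `F[t]` with a selfdual filtration at infinity
-/

set_option autoImplicit false

namespace Pool.Agent.Helper3.HY

open Polynomial Finset Filter Topology Matrix IsDedekindDomain

section defs

variable {F : Type} [Field F] {V : Type} [AddCommGroup V] [Module (RatFunc F) V]
  [Module F[X] V] [IsScalarTower F[X] (RatFunc F) V] [Module F V] [IsScalarTower F (RatFunc F) V]

/-- A selfdual filtration at infinity for the form `B`. -/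
structure IsFil (Fil : ℤ → Submodule F V) (B : LinearMap.BilinForm (RatFunc F) V) : Prop where
  symm : ∀ x y, B x y = B y x
  mono : Monotone Fil
  kmul : ∀ (k n : ℤ) (a : RatFunc F) (x : V), a ∈ Kfil F k → x ∈ Fil n → a • x ∈ Fil (k + n)
  exh : ∀ x, ∃ n, x ∈ Fil n
  sep : ∀ x, (∀ n, x ∈ Fil n) → x = 0
  bound : ∀ (m n : ℤ) (x y : V), x ∈ Fil m → y ∈ Fil n → B x y ∈ Kfil F (m + n)
  dual : ∀ (n : ℤ) (y : V), (∀ (m : ℤ) (x : V), x ∈ Fil m → B x y ∈ Kfil F (m + n)) → y ∈ Fil n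

/-- A unimodular lattice with a selfdual filtration at infinity. -/
structure IsLat (M : Submodule F[X] V) (Fil : ℤ → Submodule F V)
    (B : LinearMap.BilinForm (RatFunc F) V) : Prop where
  fil : IsFil Fil B
  bdd : ∃ n₀ : ℤ, ∀ x ∈ M, x ∈ Fil n₀ → x = 0
  span : ∀ x : V, ∃ a : F[X], a ≠ 0 ∧ a • x ∈ M
  int : ∀ x ∈ M, ∀ y ∈ M, ∃ a : F[X], B x y = algebraMap F[X] (RatFunc F) a
  unimod : ∀ y, (∀ x ∈ M, ∃ a : F[X], B x y = algebraMap F[X] (RatFunc F) a) → y ∈ M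

/-- A good projection. -/
structure IsGP (M : Submodule F[X] V) (Fil : ℤ → Submodule F V)
    (B : LinearMap.BilinForm (RatFunc F) V) (π : V →ₗ[RatFunc F] V) : Prop where
  idem : ∀ x, π (π x) = π x
  adj : ∀ x y, B (π x) y = B x (π y)
  mem : ∀ x ∈ M, π x ∈ M
  fil : ∀ (n : ℤ) (x : V), x ∈ Fil n → π x ∈ Fil n

/-- The nonzero vectors of `M ∩ im π` have degree at least `ν`. -/
def MinDeg (M : Submodule F[X] V) (Fil : ℤ → Submodule F V) (π : V →ₗ[RatFunc F] V) (ν : ℤ) :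
    Prop :=
  ∀ x ∈ M, π x = x → x ∈ Fil (ν - 1) → x = 0

/-- A standard system of `r` hyperbolic pairs and one more vector in `M ∩ im π`. -/
structure IsStd (M : Submodule F[X] V) (Fil : ℤ → Submodule F V)
    (B : LinearMap.BilinForm (RatFunc F) V) (π : V →ₗ[RatFunc F] V) {r : ℕ} (m : Fin r → ℕ)
    (u w : Fin r → V) (c : V) (δ : F) : Prop where
  anti : Antitone m
  uM : ∀ i, u i ∈ M ∧ π (u i) = u i ∧ u i ∈ Fil (-(m i : ℤ))
  wM : ∀ i, w i ∈ M ∧ π (w i) = w i ∧ w i ∈ Fil (m i : ℤ)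
  cM : c ∈ M ∧ π c = c ∧ c ∈ Fil 0
  uw : ∀ i j, B (u i) (w j) = if i = j then 1 else 0
  uu : ∀ i j, B (u i) (u j) = 0
  ww : ∀ i j, B (w i) (w j) = 0
  cu : ∀ i, B c (u i) = 0
  cw : ∀ i, B c (w i) = 0
  cc : B c c = algebraMap F (RatFunc F) δ
  ne : δ ≠ 0

end defs

/-- S1 (functional lemma).  Given `l : V → F` vanishing on `M` and on `Fil (c - 1)`.  For `z ∈ M` put
`φ(z) = ∑_j l(t^(-j-1) z) t^j` (finite sum, since `t^(-j-1) z ∈ Fil (c-1)` for large `j`).  `φ : M → F[t]`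
is additive and `F[t]`-linear (`φ(t z) = l(z) + t φ(z) = t φ(z)`); extend it to a `K`-linear map `V → K`
(`M` spans) and represent it as `B y` (`B` is nondegenerate by `dual` and `sep`, `V` finite
dimensional).  Degree: for `z ∈ M ∩ Fil m`, `l(t^(-j-1) z) ≠ 0` implies `m - j - 1 > c - 1`, so
`deg φ(z) ≤ m - c - 1`; for `x ∈ Fil m` arbitrary multiply by `a ≠ 0` with `a x ∈ M`.  So
`y ∈ Fil (-c-1)` by `dual`. -/
def StS1 : Prop :=
  ∀ (F : Type) [Field F] (V : Type) [AddCommGroup V] [Module (RatFunc F) V]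
    [Module F[X] V] [IsScalarTower F[X] (RatFunc F) V] [Module F V] [IsScalarTower F (RatFunc F) V]
    [FiniteDimensional (RatFunc F) V] (M : Submodule F[X] V) (Fil : ℤ → Submodule F V)
    (B : LinearMap.BilinForm (RatFunc F) V), IsFil Fil B →
    (∀ x : V, ∃ a : F[X], a ≠ 0 ∧ a • x ∈ M) → ∀ (c : ℤ) (l : V →ₗ[F] F), (∀ x ∈ M, l x = 0) →
    (∀ x ∈ Fil (c - 1), l x = 0) →
    ∃ y ∈ Fil (-c - 1), ∀ z ∈ M, ∃ a : F[X], B y z = algebraMap F[X] (RatFunc F) a ∧
      ∀ j : ℕ, a.coeff j = l (((RatFunc.X : RatFunc F)⁻¹) ^ (j + 1) • z)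

/-- S2a (minimal vector).  `π ≠ 0`: some `x` with `π x ≠ 0`, `a x ∈ M`, so `π (a x) ≠ 0` is in
`M ∩ im π`; the set of `n` with a nonzero vector of `M ∩ im π` in `Fil n` is nonempty (`exh`) and bounded
below (`bdd`, `mono`); take the least. -/
def StS2a : Prop :=
  ∀ (F : Type) [Field F] (V : Type) [AddCommGroup V] [Module (RatFunc F) V]
    [Module F[X] V] [IsScalarTower F[X] (RatFunc F) V] [Module F V] [IsScalarTower F (RatFunc F) V]
    (M : Submodule F[X] V) (Fil : ℤ → Submodule F V)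
    (B : LinearMap.BilinForm (RatFunc F) V) (π : V →ₗ[RatFunc F] V), IsLat M Fil B →
    IsGP M Fil B π → π ≠ 0 →
    ∃ (ν : ℤ) (e : V), e ∈ M ∧ π e = e ∧ e ∈ Fil ν ∧ e ≠ 0 ∧ MinDeg M Fil π ν

/-- S2b (partner of a minimal vector).  `t⁻¹ e ∉ M + Fil (ν - 2)`: otherwise `t⁻¹ e = z + w`, apply `π`:
`z ∈ M ∩ im π`, `z = t⁻¹ e - w ∈ Fil (ν - 1)`, so `z = 0`, `t⁻¹ e ∈ Fil (ν - 2)`, `e ∈ Fil (ν - 1)`,
`e = 0`.  So there is `l` vanishing on `M + Fil (ν - 2)` with `l (t⁻¹ e) = 1`; S1 with `c = ν - 1` gives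
`y ∈ Fil (-ν)`, `y ∈ M` (`unimod`), `B y e = ∑_j l(t^(-j-1) e) t^j = 1` (`t^(-j-1) e ∈ Fil (ν-2)` for
`j ≥ 1`).  Replace `y` by `π y`. -/
def StS2b : Prop :=
  ∀ (F : Type) [Field F] (V : Type) [AddCommGroup V] [Module (RatFunc F) V]
    [Module F[X] V] [IsScalarTower F[X] (RatFunc F) V] [Module F V] [IsScalarTower F (RatFunc F) V]
    [FiniteDimensional (RatFunc F) V]
    (M : Submodule F[X] V) (Fil : ℤ → Submodule F V)
    (B : LinearMap.BilinForm (RatFunc F) V) (π : V →ₗ[RatFunc F] V), IsLat M Fil B →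
    IsGP M Fil B π → ∀ (ν : ℤ) (e : V), e ∈ M → π e = e → e ∈ Fil ν → e ≠ 0 → MinDeg M Fil π ν →
    ∃ y ∈ M, π y = y ∧ y ∈ Fil (-ν) ∧ B y e = 1

/-- S3 (split off a hyperbolic plane).  `π' x = π x - B(x,y) e - B(x,e) y`. -/
def StS3 : Prop :=
  ∀ (F : Type) [Field F] (V : Type) [AddCommGroup V] [Module (RatFunc F) V]
    [Module F[X] V] [IsScalarTower F[X] (RatFunc F) V] [Module F V] [IsScalarTower F (RatFunc F) V]
    [FiniteDimensional (RatFunc F) V]
    (M : Submodule F[X] V) (Fil : ℤ → Submodule F V)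
    (B : LinearMap.BilinForm (RatFunc F) V) (π : V →ₗ[RatFunc F] V), IsLat M Fil B →
    IsGP M Fil B π → ∀ (ν : ℤ) (e y : V), e ∈ M → π e = e → e ∈ Fil ν → y ∈ M → π y = y →
    y ∈ Fil (-ν) → B e e = 0 → B y y = 0 → B y e = 1 →
    ∃ π' : V →ₗ[RatFunc F] V, IsGP M Fil B π' ∧
      Module.finrank (RatFunc F) (LinearMap.range π') + 2 =
        Module.finrank (RatFunc F) (LinearMap.range π) ∧
      ∀ x, π' x = x ↔ (π x = x ∧ B x e = 0 ∧ B x y = 0)

/-- S3b (split off an anisotropic vector of degree 0).  `π' x = π x - δ⁻¹ B(x,e) e`. -/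
def StS3b : Prop :=
  ∀ (F : Type) [Field F] (V : Type) [AddCommGroup V] [Module (RatFunc F) V]
    [Module F[X] V] [IsScalarTower F[X] (RatFunc F) V] [Module F V] [IsScalarTower F (RatFunc F) V]
    [FiniteDimensional (RatFunc F) V]
    (M : Submodule F[X] V) (Fil : ℤ → Submodule F V)
    (B : LinearMap.BilinForm (RatFunc F) V) (π : V →ₗ[RatFunc F] V), IsLat M Fil B →
    IsGP M Fil B π → ∀ (e : V) (δ : F), e ∈ M → π e = e → e ∈ Fil 0 → δ ≠ 0 →
    B e e = algebraMap F (RatFunc F) δ →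
    ∃ π' : V →ₗ[RatFunc F] V, IsGP M Fil B π' ∧
      Module.finrank (RatFunc F) (LinearMap.range π') + 1 =
        Module.finrank (RatFunc F) (LinearMap.range π) ∧
      ∀ x, π' x = x ↔ (π x = x ∧ B x e = 0)

/-- S4a (vectors of degree 0).  If the minimal degree of `M ∩ im π` is `≥ 0` and `π ≠ 0`, there is a
nonzero vector of degree `≤ 0`: take `(ν, e)` from S2a (so `ν ≥ 0`, else `e = 0`) and `y` from S2b:
`y ∈ Fil (-ν)`, `y ≠ 0`, so `-ν ≥ 0`, `ν = 0`. -/
def StS4a : Prop :=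
  ∀ (F : Type) [Field F] (V : Type) [AddCommGroup V] [Module (RatFunc F) V]
    [Module F[X] V] [IsScalarTower F[X] (RatFunc F) V] [Module F V] [IsScalarTower F (RatFunc F) V]
    [FiniteDimensional (RatFunc F) V]
    (M : Submodule F[X] V) (Fil : ℤ → Submodule F V)
    (B : LinearMap.BilinForm (RatFunc F) V) (π : V →ₗ[RatFunc F] V), IsLat M Fil B →
    IsGP M Fil B π → π ≠ 0 → MinDeg M Fil π 0 →
    ∃ e ∈ M, π e = e ∧ e ∈ Fil 0 ∧ e ≠ 0

/-- S4 (isotropic vector of degree 0).  Three times: take `e` from S4a; `B e e` is a polynomial of degree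
`≤ 0`, a constant; if it is `0` we are done; otherwise split `e` off (S3b; `MinDeg` is inherited).  After
three steps there are orthogonal `e1, e2, e3` with constants `δ1, δ2, δ3 ≠ 0`; the equation
`δ1 x^2 + δ2 y^2 + δ3 z^2 = 0` has a nonzero solution in `F` (`FiniteField.exists_root_sum_quadratic`
with `z = 1`), and `x e1 + y e2 + z e3` is isotropic, nonzero, of degree `≤ 0`. -/
def StS4 : Prop :=
  ∀ (F : Type) [Field F] [Fintype F], (2 : F) ≠ 0 → ∀ (V : Type) [AddCommGroup V]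
    [Module (RatFunc F) V]
    [Module F[X] V] [IsScalarTower F[X] (RatFunc F) V] [Module F V] [IsScalarTower F (RatFunc F) V]
    [FiniteDimensional (RatFunc F) V]
    (M : Submodule F[X] V) (Fil : ℤ → Submodule F V)
    (B : LinearMap.BilinForm (RatFunc F) V) (π : V →ₗ[RatFunc F] V), IsLat M Fil B →
    IsGP M Fil B π → 3 ≤ Module.finrank (RatFunc F) (LinearMap.range π) → MinDeg M Fil π 0 →
    ∃ e ∈ M, π e = e ∧ e ∈ Fil 0 ∧ e ≠ 0 ∧ B e e = 0

/-- S5 (hyperbolic pair of minimal degree).  Take `(ν, e)` from S2a.  If `ν < 0`: `B e e` is a polynomial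
of degree `≤ 2 ν < 0`, so `0`; `m = -ν`.  If `ν ≥ 0`: `MinDeg 0`, take the isotropic `e` from S4, `m = 0`.
In both cases S2b gives `y ∈ Fil m` with `B y e = 1`; replace `y` by `y - (B y y / 2) e` (a polynomial
multiple of `e`; `B y y` is a polynomial of degree `≤ 2 m`, so `(B y y / 2) e ∈ Fil (2 m - m)`). -/
def StS5 : Prop :=
  ∀ (F : Type) [Field F] [Fintype F], (2 : F) ≠ 0 → ∀ (V : Type) [AddCommGroup V]
    [Module (RatFunc F) V]
    [Module F[X] V] [IsScalarTower F[X] (RatFunc F) V] [Module F V] [IsScalarTower F (RatFunc F) V]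
    [FiniteDimensional (RatFunc F) V]
    (M : Submodule F[X] V) (Fil : ℤ → Submodule F V)
    (B : LinearMap.BilinForm (RatFunc F) V) (π : V →ₗ[RatFunc F] V), IsLat M Fil B →
    IsGP M Fil B π → 3 ≤ Module.finrank (RatFunc F) (LinearMap.range π) →
    ∃ (m : ℕ) (e y : V), MinDeg M Fil π (-(m : ℤ)) ∧ e ∈ M ∧ π e = e ∧ e ∈ Fil (-(m : ℤ)) ∧
      y ∈ M ∧ π y = y ∧ y ∈ Fil (m : ℤ) ∧ B e e = 0 ∧ B y y = 0 ∧ B y e = 1

/-- S6 (induction).  Induction on `r`.  `r = 0`: `im π` has dimension 1; S2a, S2b: `(ν, e)`, `y` with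
`B y e = 1`; `y ∈ M ∩ im π ∩ Fil (-ν)`, `y ≠ 0`, minimality gives `-ν ≥ ν`, `ν ≤ 0`; `y = a e` with
`a ∈ K`, so `B e e ≠ 0`; it is a nonzero polynomial of degree `≤ 2 ν`: `ν = 0` and `B e e` is a nonzero
constant.  Step: S5 gives `m, e, y`; S3 (with `ν = -m`) gives `π'` of rank `2 r + 1`; induction; the new
`u 0 = e, w 0 = y`; the vectors fixed by `π'` are fixed by `π` and orthogonal to `e, y`; antitone: if
`m' 0 > m` then `u' 0 ∈ Fil (-m-1)` is zero by `MinDeg`, contradiction with `B (u' 0) (w' 0) = 1`. -/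
def StS6 : Prop :=
  ∀ (F : Type) [Field F] [Fintype F], (2 : F) ≠ 0 → ∀ (V : Type) [AddCommGroup V]
    [Module (RatFunc F) V]
    [Module F[X] V] [IsScalarTower F[X] (RatFunc F) V] [Module F V] [IsScalarTower F (RatFunc F) V]
    [FiniteDimensional (RatFunc F) V]
    (M : Submodule F[X] V) (Fil : ℤ → Submodule F V)
    (B : LinearMap.BilinForm (RatFunc F) V), IsLat M Fil B →
    ∀ (r : ℕ) (π : V →ₗ[RatFunc F] V),
    IsGP M Fil B π → Module.finrank (RatFunc F) (LinearMap.range π) = 2 * r + 1 →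
    ∃ (m : Fin r → ℕ) (u w : Fin r → V) (c : V) (δ : F), IsStd M Fil B π m u w c δ

/-- S (standard basis).  S6 with `π = id`, `r = g`.  With the basis `e = (u 0, .., u (g-1), c,
w (g-1), .., w 0)` the Gram matrix is antidiagonal with `1` except `δ` in the middle, of determinant
`(-1)^g δ`; comparing with `b`: `(-1)^g δ = det(p)^2 det(Gram b)`, so `δ` is a square in `K`, hence in `F`
(`δ = s^2`); replace `c` by `s⁻¹ c`. -/
def StS : Prop :=
  ∀ (F : Type) [Field F] [Fintype F], (2 : F) ≠ 0 → ∀ (V : Type) [AddCommGroup V]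
    [Module (RatFunc F) V]
    [Module F[X] V] [IsScalarTower F[X] (RatFunc F) V] [Module F V] [IsScalarTower F (RatFunc F) V]
    (M : Submodule F[X] V) (Fil : ℤ → Submodule F V)
    (B : LinearMap.BilinForm (RatFunc F) V) (g : ℕ) (b : Module.Basis (Ix g) (RatFunc F) V),
    IsLat M Fil B → IsSquare ((-1) ^ g * (Matrix.of fun i j => B (b i) (b j)).det) →
    ∃ m : Fin g → ℕ, Antitone m ∧ ∃ e : Ix g → V, (∀ i, e i ∈ M) ∧ (∀ i, e i ∈ Fil (nu g m i)) ∧
      ∀ i j, B (e i) (e j) = Gm (RatFunc F) g i j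

end Pool.Agent.Helper3.HY
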