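import Pool.Agent.Helper3.HY.Defs0
import Pool.Agent.Helper54.PT.Defs

/-!
# HY: internal definitions
-/

set_option autoImplicit false

namespace Pool.Agent.Helper3.HY

open Polynomial Finset Filter Topology Matrix
open Pool.Agent.Helper54.PT (Prm prm)

/-! ### The fields and rings -/

section rings

variable {F : Type} [Field F]

/-- `f` as a polynomial over `K = F(t)`. -/
noncomputable abbrev fK (f : F[X][X]) : (RatFunc F)[X] := f.map (algebraMap F[X] (RatFunc F))

/-- `R = F[t][θ]`. -/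
abbrev RR (f : F[X][X]) : Type := AdjoinRoot f

/-- `L = F(t)[θ]`. -/
abbrev LL (f : F[X][X]) : Type := AdjoinRoot (fK f)

/-- `R → L`. -/
noncomputable instance algRL (f : F[X][X]) : Algebra (RR f) (LL f) :=
  (AdjoinRoot.map (algebraMap F[X] (RatFunc F)) f (fK f) dvd_rfl).toAlgebra

/-- `θ` in `L`. -/
noncomputable abbrev th (f : F[X][X]) : LL f := AdjoinRoot.root (fK f)

/-- The `i`-th coordinate of `z` with respect to the powers of the root. -/
noncomputable def co {B : Type} [CommRing B] {h : B[X]} (hm : h.Monic) (i : ℕ) :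
    AdjoinRoot h →ₗ[B] B :=
  lcoeff B i ∘ₗ AdjoinRoot.modByMonicHom hm

/-- The top coordinate. -/
noncomputable def tau {B : Type} [CommRing B] {h : B[X]} (hm : h.Monic) :
    AdjoinRoot h →ₗ[B] B :=
  co hm (h.natDegree - 1)

/-- The elements of `K` of degree at most `n`. -/
noncomputable def Kfil (F : Type) [Field F] (n : ℤ) : Submodule F (RatFunc F) where
  carrier := {h | h = 0 ∨ h.intDegree ≤ n}
  zero_mem' := Or.inl rfl
  add_mem' := by
    intro a b ha hb
    by_cases h0 : a + b = 0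
    · exact Or.inl h0
    rcases ha with rfl | ha
    · rw [zero_add]; exact hb
    rcases hb with rfl | hb
    · rw [add_zero]; exact Or.inr ha
    by_cases hb0 : b = 0
    · subst hb0; rw [add_zero]; exact Or.inr ha
    · exact Or.inr ((RatFunc.intDegree_add_le hb0 h0).trans (max_le ha hb))
  smul_mem' := by
    intro c a ha
    rcases ha with rfl | ha
    · exact Or.inl (smul_zero c)
    by_cases hc : c = 0
    · subst hc; exact Or.inl (zero_smul _ _)
    by_cases ha0 : a = 0
    · subst ha0; exact Or.inl (smul_zero c)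
    refine Or.inr ?_
    have h1 : c • a = RatFunc.C c * a := by
      rw [RatFunc.smul_eq_C_mul]
    have hC : (RatFunc.C c : RatFunc F) ≠ 0 := by
      rwa [Ne, map_eq_zero]
    rw [h1, RatFunc.intDegree_mul hC ha0, RatFunc.intDegree_C, zero_add]
    exact ha

/-- The elements `z` of `L` of degree at most `n` at infinity: `deg z_i + i d ≤ n`. -/
noncomputable def Lfil {f : F[X][X]} (hm : f.Monic) (d : ℕ) (n : ℤ) : Submodule F (LL f) where
  carrier := {z | ∀ i : ℕ, co (hm.map (algebraMap F[X] (RatFunc F))) i z ∈ Kfil F (n - i * d)}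
  zero_mem' := by intro i; rw [map_zero]; exact zero_mem _
  add_mem' := by intro a b ha hb i; rw [map_add]; exact add_mem (ha i) (hb i)
  smul_mem' := by
    intro c a ha i
    have : co (hm.map (algebraMap F[X] (RatFunc F))) i (c • a) =
        c • co (hm.map (algebraMap F[X] (RatFunc F))) i a := by
      rw [← algebraMap_smul (RatFunc F) c a, map_smul, algebraMap_smul]
    rw [this]
    exact Submodule.smul_mem _ c (ha i)

/-- The form `τ(α x y)` on `L`. -/
noncomputable def Bf {f : F[X][X]} (hm : f.Monic) (α : LL f) :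
    LinearMap.BilinForm (RatFunc F) (LL f) :=
  LinearMap.mk₂ (RatFunc F) (fun x y => tau (hm.map (algebraMap F[X] (RatFunc F))) (α * x * y))
    (by intro a b c; rw [mul_add, add_mul, map_add])
    (by intro c a b; rw [mul_smul_comm, smul_mul_assoc, map_smul])
    (by intro a b c; rw [mul_add, map_add])
    (by intro c a b; rw [mul_smul_comm, map_smul])

/-- `f` stays irreducible at infinity: the polynomial of the leading coefficients (of `t ^ (i d)` in
`c_i`) is irreducible. -/
def InfIrr (d : ℕ) (f : F[X][X]) : Prop :=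
  Irreducible (∑ i ∈ range (f.natDegree + 1),
    C ((f.coeff i).coeff ((f.natDegree - i) * d)) * X ^ i : F[X])

/-- The plane curve `f(t, x) = 0` is smooth (as a scheme over the perfect field `F`). -/
def Smooth (f : F[X][X]) : Prop := ∀ m : Ideal F[X][X], m.IsMaximal → f ∉ m ^ 2

/-- The residue field of a prime. -/
abbrev kp (P : Prm F) : Type := AdjoinRoot P.1

instance factIrr (P : Prm F) : Fact (Irreducible P.1) := ⟨P.2.2⟩

/-- Reduction modulo `P`. -/
noncomputable abbrev red (P : Prm F) : F[X] →+* kp P := AdjoinRoot.mk P.1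

/-- The polynomials `(x - a) p(x)` with `p` irreducible of degree `2 g`. -/
def TType (k : Type) [Field k] (g : ℕ) : Set k[X] :=
  {h | ∃ (a : k) (p : k[X]), p.Monic ∧ Irreducible p ∧ p.natDegree = 2 * g ∧ h = (X - C a) * p}

/-- The irreducible monic polynomials of degree `2 g + 1`. -/
def IType (k : Type) [Field k] (g : ℕ) : Set k[X] :=
  {h | h.Monic ∧ Irreducible h ∧ h.natDegree = 2 * g + 1}

/-- The good polynomials. -/
def GoodSet (F : Type) [Field F] (g d : ℕ) (S : Finset (Prm F)) (Cl : ∀ P : Prm F, Set (kp P)[X]) :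
    Set F[X][X] :=
  {f | f ∈ family F (2 * g + 1) d ∧ InfIrr d f ∧ (∀ P ∈ S, f.map (red P) ∈ Cl P) ∧ Smooth f}

/-- The type conditions: `TType` on `T`, `IType` elsewhere. -/
noncomputable def Cls (g : ℕ) (T : Finset (Prm F)) (P : Prm F) : Set (kp P)[X] :=
  by classical exact if P ∈ T then TType (kp P) g else IType (kp P) g

/-- `z` lies in `1 + P R_(P)`. -/
def NearOne (P : Prm F) {f : F[X][X]} (z : LL f) : Prop :=
  ∃ (r : RR f) (a : F[X]), ¬ P.1 ∣ a ∧
    algebraMap F[X] (LL f) a * (z - 1) = algebraMap F[X] (LL f) P.1 * algebraMap (RR f) (LL f) r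

/-- `z` is a square locally at `P`. -/
def LocSq (P : Prm F) {f : F[X][X]} (z : LL f) : Prop :=
  ∃ β : LL f, β ≠ 0 ∧ NearOne P (z * β ^ 2)

end rings

/-! ### Types of lattices and matrices -/

section matrices

/-- The index set. -/
abbrev Ix (g : ℕ) : Type := Fin (2 * g + 1)

/-- The degrees of the standard basis: `-m_0 ≤ ... ≤ -m_(g-1) ≤ 0 ≤ m_(g-1) ≤ ... ≤ m_0`. -/
def nu (g : ℕ) (m : Fin g → ℕ) (i : Ix g) : ℤ :=
  if h : i.1 < g then -(m ⟨i.1, h⟩ : ℤ)
  else if h' : g < i.1 then (m ⟨2 * g - i.1, by omega⟩ : ℤ) else 0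

/-- The antidiagonal matrix. -/
def Gm (B : Type) [Zero B] [One B] (g : ℕ) : Matrix (Ix g) (Ix g) B :=
  fun i j => if j = Fin.rev i then 1 else 0

variable (F : Type) [Field F]

/-- The symmetric matrices with `deg b_ij ≤ d + ν_i + ν_j`. -/
def Vset (g d : ℕ) (m : Fin g → ℕ) : Set (Matrix (Ix g) (Ix g) F[X]) :=
  {b | b.IsSymm ∧ ∀ i j, b i j = 0 ∨ ((b i j).natDegree : ℤ) ≤ d + nu g m i + nu g m j}

variable {F}

/-- The characteristic polynomial attached to `b`. -/
noncomputable def chi {B : Type} [CommRing B] {g : ℕ} (b : Matrix (Ix g) (Ix g) B) : B[X] :=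
  (b * Gm B g).charpoly

/-- The admissible types. -/
def Adm (g d : ℕ) (m : Fin g → ℕ) : Prop :=
  Antitone m ∧ (∀ i : Fin g, (i : ℕ) + 1 = g → 2 * m i ≤ d) ∧
    ∀ i j : Fin g, (i : ℕ) + 1 = j → m i ≤ m j + d

/-- The matrices over a field `k` which come from the distinguished orbit of a polynomial in `S`. -/
def LocGood (k : Type) [Field k] (g : ℕ) (S : Set k[X]) : Set (Matrix (Ix g) (Ix g) k) :=
  {b | ∃ h ∈ S, ∃ hm : h.Monic, h.natDegree = 2 * g + 1 ∧ ∃ w : Ix g → AdjoinRoot h,
    (∀ i j, tau hm (w i * w j) = Gm k g i j) ∧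
      ∀ i j, tau hm (AdjoinRoot.root h * w i * w j) = b i j}

/-- The good matrices: reductions modulo all `P` in `S` come from the distinguished orbit. -/
def VGood (g d : ℕ) (m : Fin g → ℕ) (S : Finset (Prm F)) (Cl : ∀ P : Prm F, Set (kp P)[X]) :
    Set (Matrix (Ix g) (Ix g) F[X]) :=
  {b | b ∈ Vset F g d m ∧ ∀ P ∈ S, b.map (red P) ∈ LocGood (kp P) g (Cl P)}

/-- The unipotent isometries of the type `m`. -/
def Ugp (F : Type) [Field F] (g : ℕ) (m : Fin g → ℕ) : Set (Matrix (Ix g) (Ix g) F[X]) :=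
  {h | hᵀ * Gm F[X] g * h = Gm F[X] g ∧ (∀ i, h i i = 1) ∧
    ∀ i j, i ≠ j → h i j = 0 ∨ (nu g m i < nu g m j ∧ ((h i j).natDegree : ℤ) ≤ nu g m j - nu g m i)}

/-- `⟨2ρ, m⟩`. -/
def rho2 (g : ℕ) (m : Fin g → ℕ) : ℕ := ∑ i : Fin g, (2 * g - 1 - 2 * (i : ℕ)) * m i

/-- The excess in the cusp. -/
def exc (g d : ℕ) (m : Fin g → ℕ) : ℕ :=
  ∑ p : Ix g × Ix g, if p.1 ≤ p.2 then (-(d + 1 : ℤ) - nu g m p.1 - nu g m p.2).toNat else 0

end matrices

end Pool.Agent.Helper3.HY
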