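import Mathlib

/-!
# Odd degree hyperelliptic Jacobians over `F(t)`: the 2-Selmer set

`k` is a field, `h` a polynomial of odd degree over `k` and `C : y ^ 2 = h(x)` the hyperelliptic curve;
`AdjoinRoot h = k[θ]` with `h(θ) = 0`.
-/

set_option autoImplicit false

namespace Pool.Agent.Helper3.HY

open Polynomial

universe u

/-- The element `z` of `k[θ]` is the value of the `x - T` map at a divisor class of degree zero of the
curve `y ^ 2 = h(x)` over `k`: the class is given by a pair `(U, V)` of polynomials (Mumford
representation) with `U` monic and coprime to `h` and `U ∣ h - V ^ 2`, that is by the divisor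
`(U(x) = 0, y = V(x))`, and `z = (-1) ^ deg U * U(θ)`. -/
def IsPointValue {k : Type u} [Field k] (h : k[X]) (z : AdjoinRoot h) : Prop :=
  ∃ U V : k[X], U.Monic ∧ IsCoprime U h ∧ U ∣ h - V ^ 2 ∧
    z = AdjoinRoot.mk h ((-1) ^ U.natDegree * U)

/-- The image of the Jacobian of `y ^ 2 = h(x)` under the `x - T` map, as a subgroup of the unit group
of `k[θ]` which contains all squares. -/
noncomputable def descentGroup {k : Type u} [Field k] (h : k[X]) : Subgroup (AdjoinRoot h)ˣ :=
  Subgroup.closure ({z | IsPointValue h (z : AdjoinRoot h)} ∪ Set.range fun z => z ^ 2)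

/-- The homomorphism from `k[θ]` to `k'[θ]` for a homomorphism of fields. -/
noncomputable def baseChange {k k' : Type u} [Field k] [Field k'] (i : k →+* k') (h : k[X]) :
    AdjoinRoot h →+* AdjoinRoot (h.map i) :=
  AdjoinRoot.map i h (h.map i) dvd_rfl

/-- The 2-Selmer set: the units of `k[θ]` whose norm is a square and which lie in the descent group
over the completion of `k` at every nontrivial absolute value. -/
def selmerSet {k : Type u} [Field k] (h : k[X]) : Set (AdjoinRoot h)ˣ :=
  {z | IsSquare (Algebra.norm k (z : AdjoinRoot h)) ∧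
    ∀ v : AbsoluteValue k ℝ, v.IsNontrivial →
      Units.map (baseChange (algebraMap k v.Completion) h : AdjoinRoot h →* _) z ∈
        descentGroup (h.map (algebraMap k v.Completion))}

/-- The monic polynomials `x ^ N + c_1 x ^ (N - 1) + ... + c_N` with coefficients `c_i` in `F[t]` of
degree at most `i * d`. -/
def family (F : Type) [Field F] (N d : ℕ) : Set F[X][X] :=
  {f | f.Monic ∧ f.natDegree = N ∧ ∀ i ≤ N, (f.coeff i).natDegree ≤ (N - i) * d}

end Pool.Agent.Helper3.HY
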